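import Pool.Agent.Y23.G.Co

/-! # The form domain -/

set_option autoImplicit false
set_option maxHeartbeats 2000000

open Complex Filter Topology Set MeasureTheory
open scoped ComplexConjugate

namespace Pool.Agent.Y23.G

/-- the form domain through the weighted norm on the line -/
def Hd (a : ℝ) (f : ℝ → ℂ) : Prop := Fa a f ∧ Integrable (fun v : ℝ => Lg v * ‖TT f (v * I)‖ ^ 2)

/-- the weighted norm -/
noncomputable def LL (f : ℝ → ℂ) : ℝ := ∫ v : ℝ, Lg v * ‖TT f (v * I)‖ ^ 2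

lemma Lg_pos (t : ℝ) : 0 < Lg t := by linarith [one_le_Lg t]

lemma LL_nonneg (f : ℝ → ℂ) : 0 ≤ LL f :=
  integral_nonneg fun v => mul_nonneg (Lg_pos v).le (sq_nonneg _)

lemma TT_line_cont {a : ℝ} {f : ℝ → ℂ} (hf : Fa a f) : Continuous (fun v : ℝ => TT f (v * I)) :=
  (differentiable_TT hf).continuous.comp (by fun_prop)

lemma LL_cont {a : ℝ} {f : ℝ → ℂ} (hf : Fa a f) : Continuous (fun v : ℝ => Lg v * ‖TT f (v * I)‖ ^ 2) :=
  Lg_cont.mul ((TT_line_cont hf).norm.pow 2)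

lemma N2_le_LL {a : ℝ} {f : ℝ → ℂ} (hf : Hd a f) : 2 * Real.pi * N2 f ≤ LL f := by
  rw [← plancherel hf.1]
  refine integral_mono (int_TT_sq hf.1) hf.2 fun v => ?_
  have h1 := one_le_Lg v
  have h2 := sq_nonneg ‖TT f (v * I)‖
  simp only
  nlinarith

lemma Hd.zero {a : ℝ} : Hd a (fun _ => (0 : ℂ)) := by
  refine ⟨Fa.zero, ?_⟩
  have : (fun v : ℝ => Lg v * ‖TT (fun _ => (0 : ℂ)) (v * I)‖ ^ 2) = fun _ => 0 := by
    funext v
    simp [TT]
  rw [this]
  exact integrable_zero _ _ _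

lemma Hd.smul {a : ℝ} {f : ℝ → ℂ} (hf : Hd a f) (c : ℂ) : Hd a (fun x => c * f x) := by
  refine ⟨hf.1.smul c, ?_⟩
  refine (hf.2.const_mul (‖c‖ ^ 2)).congr (Eventually.of_forall fun v => ?_)
  simp only
  rw [TT_smul, norm_mul]
  ring

lemma LL_smul (f : ℝ → ℂ) (c : ℂ) : LL (fun x => c * f x) = ‖c‖ ^ 2 * LL f := by
  unfold LL
  rw [← integral_const_mul]
  refine integral_congr_ae (Eventually.of_forall fun v => ?_)
  simp only
  rw [TT_smul, norm_mul]
  ring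

lemma N2_smul (f : ℝ → ℂ) (c : ℂ) : N2 (fun x => c * f x) = ‖c‖ ^ 2 * N2 f := by
  unfold N2
  rw [← integral_const_mul]
  refine integral_congr_ae (Eventually.of_forall fun v => ?_)
  simp only
  rw [norm_mul]
  ring

lemma sq_add_le' (x y : ℂ) : ‖x + y‖ ^ 2 ≤ 2 * ‖x‖ ^ 2 + 2 * ‖y‖ ^ 2 := by
  have h := norm_add_le x y
  have h1 := norm_nonneg (x + y)
  nlinarith [sq_nonneg (‖x‖ - ‖y‖)]

lemma Hd.add {a : ℝ} {f g : ℝ → ℂ} (hf : Hd a f) (hg : Hd a g) : Hd a (fun x => f x + g x) := by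
  refine ⟨hf.1.add hg.1, ?_⟩
  refine ((hf.2.const_mul 2).add (hg.2.const_mul 2)).mono' (LL_cont (hf.1.add hg.1)).aestronglyMeasurable
    (Eventually.of_forall fun v => ?_)
  rw [Real.norm_eq_abs, abs_of_nonneg (mul_nonneg (Lg_pos v).le (sq_nonneg _)), TT_add hf.1 hg.1]
  have h1 := sq_add_le' (TT f (v * I)) (TT g (v * I))
  have h2 := Lg_pos v
  simp only [Pi.add_apply]
  nlinarith

lemma LL_add_le {a : ℝ} {f g : ℝ → ℂ} (hf : Hd a f) (hg : Hd a g) :
    LL (fun x => f x + g x) ≤ 2 * LL f + 2 * LL g := by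
  unfold LL
  rw [← integral_const_mul, ← integral_const_mul, ← integral_add (hf.2.const_mul 2) (hg.2.const_mul 2)]
  refine integral_mono (hf.add hg).2 ((hf.2.const_mul 2).add (hg.2.const_mul 2)) fun v => ?_
  simp only
  rw [TT_add hf.1 hg.1]
  have h1 := sq_add_le' (TT f (v * I)) (TT g (v * I))
  have h2 := Lg_pos v
  nlinarith

lemma Hd.sub {a : ℝ} {f g : ℝ → ℂ} (hf : Hd a f) (hg : Hd a g) : Hd a (fun x => f x - g x) := by
  have := hf.add (hg.smul (-1))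
  have e : (fun x => f x + -1 * g x) = fun x => f x - g x := by funext x; ring
  rwa [e] at this

lemma LL_sub_le {a : ℝ} {f g : ℝ → ℂ} (hf : Hd a f) (hg : Hd a g) :
    LL (fun x => f x - g x) ≤ 2 * LL f + 2 * LL g := by
  have := LL_add_le hf (hg.smul (-1))
  have e : (fun x => f x + -1 * g x) = fun x => f x - g x := by funext x; ring
  rw [e, LL_smul] at this
  simpa using this

/-- division by a zero in the form domain -/
lemma Hd.div {a : ℝ} (ha : 0 < a) {f : ℝ → ℂ} (hf : Hd a f) (w0 : ℂ) (h0 : TT f w0 = 0) :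
    ∃ g : ℝ → ℂ, Hd a g ∧ (∀ w, (w - w0) * TT g w = TT f w) ∧ (w0.re = 0 → N2 g ≤ 4 * a ^ 2 * N2 f) := by
  obtain ⟨g, hg, h1, h2⟩ := division ha hf.1 w0 h0
  refine ⟨g, ⟨hg, ?_⟩, h1, h2⟩
  have hc := LL_cont hg
  rw [← integrableOn_univ, ← union_compl_self (Icc (w0.im - 1) (w0.im + 1))]
  refine IntegrableOn.union ?_ ?_
  · exact hc.continuousOn.integrableOn_compact isCompact_Icc
  · refine (hf.2.integrableOn).mono' hc.aestronglyMeasurable ?_
    rw [ae_restrict_iff' measurableSet_Icc.compl]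
    refine Eventually.of_forall fun v hv => ?_
    rw [Real.norm_eq_abs, abs_of_nonneg (mul_nonneg (Lg_pos v).le (sq_nonneg _))]
    refine mul_le_mul_of_nonneg_left ?_ (Lg_pos v).le
    have h3 : 1 ≤ ‖(v * I - w0 : ℂ)‖ := by
      refine le_trans ?_ (Complex.abs_im_le_norm _)
      have e : (v * I - w0 : ℂ).im = v - w0.im := by simp
      rw [e]
      rw [mem_compl_iff, mem_Icc, not_and_or, not_le, not_le] at hv
      rcases hv with hv | hv
      · rw [abs_of_neg (by linarith)]; linarith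
      · rw [abs_of_pos (by linarith)]; linarith
    have h4 : ‖TT g (v * I)‖ ≤ ‖TT f (v * I)‖ := by
      rw [← h1 (v * I), norm_mul]
      nlinarith [norm_nonneg (TT g (v * I))]
    exact pow_le_pow_left₀ (norm_nonneg _) h4 2

variable [D : ZD]

/-- the norm on the zeros -/
noncomputable def SS (f : ℝ → ℂ) : ℝ := ∑' ρ : Zt, (mu ρ : ℝ) * ‖TT f ((ρ : ℂ) - 1 / 2)‖ ^ 2

lemma SS_nonneg (f : ℝ → ℂ) : 0 ≤ SS f :=
  tsum_nonneg fun ρ => by positivity


/-- coercivity -/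
class ZC [D : ZD] : Prop where
  co : ∀ a : ℝ, 0 < a → ∃ C : ℝ, 0 < C ∧ ∀ f : ℝ → ℂ, Fa a f → Dom f →
    Integrable (fun v : ℝ => Lg v * ‖TT f (v * I)‖ ^ 2) ∧
      ∫ v : ℝ, Lg v * ‖TT f (v * I)‖ ^ 2 ≤ 4 * Real.pi * QQ f + C * N2 f

/-- the norm on the zeros is controlled by the weighted norm -/
lemma dom_of_Hd {a : ℝ} (ha : 0 < a) : ∃ C : ℝ, 0 < C ∧ ∀ f : ℝ → ℂ, Hd a f → Dom f ∧ SS f ≤ C * LL f := by
  classical
  obtain ⟨C, hC, hpp⟩ := pp ha
  obtain ⟨K, hK, hz⟩ := zsum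
  refine ⟨C * K, by positivity, fun f hf => ?_⟩
  have key : ∀ S : Finset Zt, ∑ ρ ∈ S, (mu ρ : ℝ) * ‖TT f ((ρ : ℂ) - 1 / 2)‖ ^ 2 ≤ C * K * LL f := by
    intro S
    have hint : ∀ y : ℝ, Integrable (fun t : ℝ => ‖TT f (t * I)‖ ^ 2 * (1 / (1 + (y - t) ^ 2))) := by
      intro y
      refine (int_TT_sq hf.1).mono' ?_ (Eventually.of_forall fun t => ?_)
      · refine Continuous.aestronglyMeasurable ?_
        refine ((TT_line_cont hf.1).norm.pow 2).mul ?_
        refine continuous_const.div (by fun_prop) fun t => ?_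
        positivity
      · have h1 : 1 / (1 + (y - t) ^ 2) ≤ 1 := by
          rw [div_le_one (by positivity)]
          have := sq_nonneg (y - t)
          linarith
        have h2 : 0 ≤ 1 / (1 + (y - t) ^ 2) := by positivity
        have h3 := sq_nonneg ‖TT f (t * I)‖
        rw [Real.norm_eq_abs, abs_of_nonneg (mul_nonneg h3 h2)]
        nlinarith
    calc ∑ ρ ∈ S, (mu ρ : ℝ) * ‖TT f ((ρ : ℂ) - 1 / 2)‖ ^ 2
        ≤ ∑ ρ ∈ S, (mu ρ : ℝ) * (C * ∫ t : ℝ, ‖TT f (t * I)‖ ^ 2 * (1 / (1 + ((ρ : ℂ).im - t) ^ 2))) := by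
          refine Finset.sum_le_sum fun ρ _ => mul_le_mul_of_nonneg_left ?_ (Nat.cast_nonneg _)
          have h1 := hpp f hf.1 ((ρ : ℂ) - 1 / 2) ((half_re ρ).trans (by norm_num))
          have e : ((ρ : ℂ) - 1 / 2).im = (ρ : ℂ).im := by simp
          rwa [e] at h1
      _ = C * ∫ t : ℝ, ∑ ρ ∈ S, (mu ρ : ℝ) * (‖TT f (t * I)‖ ^ 2 * (1 / (1 + ((ρ : ℂ).im - t) ^ 2))) := by
          rw [integral_finsetSum _ fun ρ _ => (hint _).const_mul _, Finset.mul_sum]
          refine Finset.sum_congr rfl fun ρ _ => ?_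
          rw [integral_const_mul]
          ring
      _ ≤ C * ∫ t : ℝ, K * (Lg t * ‖TT f (t * I)‖ ^ 2) := by
          refine mul_le_mul_of_nonneg_left ?_ hC.le
          refine integral_mono (integrable_finsetSum _ fun ρ _ => (hint _).const_mul _) (hf.2.const_mul K) fun t => ?_
          simp only
          have h1 := hz t (S.map (Function.Embedding.subtype _)) (by
            intro s hs
            rw [Finset.mem_map] at hs
            obtain ⟨u, _, rfl⟩ := hs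
            exact u.2)
          rw [Finset.sum_map] at h1
          have e : ∑ ρ ∈ S, (mu ρ : ℝ) * (‖TT f (t * I)‖ ^ 2 * (1 / (1 + ((ρ : ℂ).im - t) ^ 2))) =
              ‖TT f (t * I)‖ ^ 2 * ∑ ρ ∈ S, (mu ρ : ℝ) * (1 / (1 + ((ρ : ℂ).im - t) ^ 2)) := by
            rw [Finset.mul_sum]
            exact Finset.sum_congr rfl fun ρ _ => by ring
          rw [e]
          have h2 : ‖TT f (t * I)‖ ^ 2 * ∑ ρ ∈ S, (mu ρ : ℝ) * (1 / (1 + ((ρ : ℂ).im - t) ^ 2)) ≤
              ‖TT f (t * I)‖ ^ 2 * (K * Lg t) := mul_le_mul_of_nonneg_left h1 (sq_nonneg _)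
          linarith
      _ = C * K * LL f := by
          rw [integral_const_mul]; unfold LL; ring
  have hs : Dom f := summable_of_sum_le (fun ρ => by positivity) key
  exact ⟨hs, hs.tsum_le_of_sum_le key⟩

variable [EC : ZC]

/-- the two descriptions of the domain agree -/
lemma Hd_iff {a : ℝ} (ha : 0 < a) (f : ℝ → ℂ) : Hd a f ↔ Fa a f ∧ Dom f := by
  obtain ⟨C, _, h⟩ := dom_of_Hd ha
  obtain ⟨C', _, h'⟩ := EC.co a ha
  exact ⟨fun hf => ⟨hf.1, (h f hf).1⟩, fun hf => ⟨hf.1, (h' f hf.1 hf.2).1⟩⟩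

lemma coer {a : ℝ} (ha : 0 < a) : ∃ C : ℝ, 0 < C ∧ ∀ f : ℝ → ℂ, Hd a f → LL f ≤ 4 * Real.pi * QQ f + C * N2 f := by
  obtain ⟨C', hC', h'⟩ := EC.co a ha
  exact ⟨C', hC', fun f hf => (h' f hf.1 ((Hd_iff ha f).1 hf).2).2⟩

end Pool.Agent.Y23.G
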