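import Pool.Agent.Y23.G.Ts4
import Pool.Agent.Y23.Kc1

/-! # Division by several linear factors -/

set_option autoImplicit false
set_option linter.unusedSectionVars false
set_option maxHeartbeats 2000000

open Complex Filter Topology Set MeasureTheory Metric
open scoped ComplexConjugate Convolution

namespace Pool.Agent.Y23.G

/-- the kernel decays quadratically in every strip -/
lemma kap_boundR {a : ℝ} (ha : 0 < a) {r : ℝ} : ∃ C : ℝ, 0 < C ∧ ∀ w : ℂ, |w.re| ≤ r →
    ‖TT (kap a) w‖ ≤ C / (1 + w.im ^ 2) := by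
  set C1 : ℝ := Real.sqrt (2 * (2 * a) * Real.exp (2 * (2 * a) * r) * N2 (kap a)) with hC1
  set C2 : ℝ := (2 * Real.exp (2 * a * r) + 2 * Real.exp (a * r)) / a with hC2
  have hC2p : 0 < C2 := by positivity
  refine ⟨C1 + C2, by positivity, fun w hw => ?_⟩
  have h1 : ‖TT (kap a) w‖ ≤ C1 := by
    rw [hC1]
    refine Real.le_sqrt_of_sq_le ((norm_TT_le (by linarith) (Fa_kap ha) w).trans ?_)
    refine mul_le_mul_of_nonneg_right ?_ (N2_nonneg _)
    refine mul_le_mul_of_nonneg_left (Real.exp_le_exp.2 ?_) (by positivity)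
    exact mul_le_mul_of_nonneg_left hw (by positivity)
  have h2 : ‖w‖ ^ 2 * ‖TT (kap a) w‖ ≤ C2 := by
    rw [← norm_pow, ← norm_mul, TT_kap_sq ha, norm_div, Complex.norm_real, Real.norm_eq_abs,
      abs_of_pos ha, hC2]
    refine div_le_div_of_nonneg_right ?_ ha.le
    have h3 : ∀ (c : ℝ), 0 ≤ c → ‖cexp ((c : ℂ) * w)‖ ≤ Real.exp (c * r) ∧ ‖cexp (-((c : ℂ) * w))‖ ≤ Real.exp (c * r) := by
      intro c hc
      have hre : ((c : ℂ) * w).re = c * w.re := by simp
      rw [abs_le] at hw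
      constructor
      · rw [Complex.norm_exp, hre]
        exact Real.exp_le_exp.2 (by nlinarith [hw.2])
      · rw [Complex.norm_exp, neg_re, hre]
        exact Real.exp_le_exp.2 (by nlinarith [hw.1])
    obtain ⟨h4, h5⟩ := h3 (2 * a) (by linarith)
    obtain ⟨h6, h7⟩ := h3 a ha.le
    push_cast at h4 h5
    calc _ ≤ ‖cexp (2 * a * w)‖ + ‖cexp (-(2 * a * w))‖ + ‖cexp (a * w)‖ + ‖cexp (-(a * w))‖ := by
          refine (norm_sub_le _ _).trans (add_le_add_left ?_ _)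
          refine (norm_sub_le _ _).trans (add_le_add_left ?_ _)
          exact norm_add_le _ _
      _ ≤ _ := by linarith
  have h3 : w.im ^ 2 ≤ ‖w‖ ^ 2 := by
    rw [← Complex.normSq_eq_norm_sq, Complex.normSq_apply]
    nlinarith [sq_nonneg w.re]
  rw [le_div_iff₀ (by positivity)]
  have h4 : w.im ^ 2 * ‖TT (kap a) w‖ ≤ C2 :=
    (mul_le_mul_of_nonneg_right h3 (norm_nonneg _)).trans h2
  nlinarith

/-- the normalised bump function -/
lemma bump : ∃ (h : ℝ → ℂ) (C : ℝ), 1 ≤ C ∧ Hd 1 h ∧ TT h 0 = 1 ∧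
    ∀ w : ℂ, |w.re| ≤ 4 → ‖TT h w‖ ≤ C / (1 + w.im ^ 2) := by
  have h8 : (0 : ℝ) < 1 / 2 := by norm_num
  obtain ⟨C, hC, hk⟩ := kap_boundR h8 (r := 4)
  have h0 := TT_kap_zero h8
  have hp : 0 < ‖TT (kap (1 / 2)) 0‖ := norm_pos_iff.2 h0
  have hF : Fa 1 (kap (1 / 2)) := by
    have := Fa_kap h8
    rwa [show 2 * (1 / 2 : ℝ) = 1 by norm_num] at this
  have hb : ∀ w : ℂ, |w.re| ≤ 4 → ‖TT (fun x => (TT (kap (1 / 2)) 0)⁻¹ * kap (1 / 2) x) w‖ ≤
      (C / ‖TT (kap (1 / 2)) 0‖ + 1) / (1 + w.im ^ 2) := by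
    intro w hw
    rw [TT_smul, norm_mul, norm_inv]
    calc ‖TT (kap (1 / 2)) 0‖⁻¹ * ‖TT (kap (1 / 2)) w‖ ≤ ‖TT (kap (1 / 2)) 0‖⁻¹ * (C / (1 + w.im ^ 2)) := by
          gcongr
          exact hk w hw
      _ = (C / ‖TT (kap (1 / 2)) 0‖) / (1 + w.im ^ 2) := by field_simp
      _ ≤ _ := by gcongr; linarith
  refine ⟨fun x => (TT (kap (1 / 2)) 0)⁻¹ * kap (1 / 2) x, C / ‖TT (kap (1 / 2)) 0‖ + 1, ?_, ⟨hF.smul _, ?_⟩, ?_, hb⟩
  · have : 0 < C / ‖TT (kap (1 / 2)) 0‖ := by positivity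
    linarith
  · -- the weighted integral
    set C2 := (C / ‖TT (kap (1 / 2)) 0‖ + 1) ^ 2 with hC2
    have hbig : Integrable (fun v : ℝ => (3 * C2) * (1 + v ^ 2)⁻¹) := integrable_inv_one_add_sq.const_mul _
    refine hbig.mono' (LL_cont (hF.smul _)).aestronglyMeasurable (Eventually.of_forall fun v => ?_)
    rw [Real.norm_eq_abs, abs_of_nonneg (mul_nonneg (Lg_pos v).le (sq_nonneg _))]
    have h1 := hb (v * I) (by simp)
    have h2 : ((v : ℂ) * I).im = v := by simp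
    rw [h2] at h1
    have h3 : Lg v ≤ 3 * (1 + v ^ 2) := by
      unfold Lg
      have h4 := Real.log_le_sub_one_of_pos (show 0 < 3 + |v| by positivity)
      have h5 : |v| ≤ 1 + v ^ 2 := by
        rw [← sq_abs]
        nlinarith [sq_nonneg (|v| - 1), abs_nonneg v]
      nlinarith [sq_nonneg v]
    have h4 := pow_le_pow_left₀ (norm_nonneg _) h1 2
    have hv : 0 < 1 + v ^ 2 := by positivity
    calc Lg v * ‖TT (fun x => (TT (kap (1 / 2)) 0)⁻¹ * kap (1 / 2) x) (v * I)‖ ^ 2 ≤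
        (3 * (1 + v ^ 2)) * (((C / ‖TT (kap (1 / 2)) 0‖ + 1) / (1 + v ^ 2)) ^ 2) :=
          mul_le_mul h3 h4 (by positivity) (by positivity)
      _ = (3 * C2) * (1 + v ^ 2)⁻¹ := by rw [hC2]; field_simp
  · rw [TT_smul, inv_mul_cancel₀ h0]

lemma Hd.mono {a b : ℝ} {f : ℝ → ℂ} (hf : Hd a f) (h : a ≤ b) : Hd b f := ⟨hf.1.mono h, hf.2⟩

/-- modulation -/
lemma Hd.modul {a : ℝ} {f : ℝ → ℂ} (hf : Hd a f) {C : ℝ} {z : ℂ}
    (hb : ∀ w : ℂ, |w.re| ≤ 4 → ‖TT f w‖ ≤ C / (1 + w.im ^ 2)) (hz : |z.re| ≤ 4) :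
    Hd a (fun x => f x * cexp (-z * x)) := by
  have hF : Fa a (fun x => f x * cexp (-z * x)) := hf.1.mul_bdd (by fun_prop)
  refine ⟨hF, ?_⟩
  have hbig : Integrable (fun v : ℝ => (C ^ 2 * (6 * (1 + |z.im|))) * (1 + (v - z.im) ^ 2)⁻¹) := by
    refine Integrable.const_mul ?_ _
    exact integrable_inv_one_add_sq.comp_sub_right z.im
  refine hbig.mono' (LL_cont hF).aestronglyMeasurable (Eventually.of_forall fun v => ?_)
  rw [Real.norm_eq_abs, abs_of_nonneg (mul_nonneg (Lg_pos v).le (sq_nonneg _)), TT_mul_exp]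
  have h1 := hb (-z + v * I) (by simpa using hz)
  have h2 : (-z + (v : ℂ) * I).im = v - z.im := by simp; ring
  rw [h2] at h1
  set u := v - z.im with hu
  have h3 : Lg v ≤ (6 * (1 + |z.im|)) * (1 + u ^ 2) := by
    unfold Lg
    have h4 := Real.log_le_sub_one_of_pos (show 0 < 3 + |v| by positivity)
    have h5 : |v| ≤ |u| + |z.im| := by
      have : v = u + z.im := by rw [hu]; ring
      rw [this]; exact abs_add_le _ _
    have h6 : |u| ≤ 1 + u ^ 2 := by
      rw [← sq_abs]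
      nlinarith [sq_nonneg (|u| - 1), abs_nonneg u]
    nlinarith [sq_nonneg u, abs_nonneg z.im, mul_nonneg (abs_nonneg z.im) (sq_nonneg u)]
  have h4 := pow_le_pow_left₀ (norm_nonneg _) h1 2
  have hv : 0 < 1 + u ^ 2 := by positivity
  calc Lg v * ‖TT f (-z + v * I)‖ ^ 2 ≤ ((6 * (1 + |z.im|)) * (1 + u ^ 2)) * ((C / (1 + u ^ 2)) ^ 2) :=
        mul_le_mul h3 h4 (by positivity) (by positivity)
    _ = (C ^ 2 * (6 * (1 + |z.im|))) * (1 + u ^ 2)⁻¹ := by field_simp

/-- division off the line does not increase the norm by more than the distance -/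
lemma N2_div {a : ℝ} {f g : ℝ → ℂ} (hf : Fa a f) (hg : Fa a g) {z : ℂ} (hz : z.re ≠ 0)
    (h : ∀ w, (w - z) * TT g w = TT f w) : N2 g ≤ N2 f / z.re ^ 2 := by
  have hz2 : 0 < z.re ^ 2 := by positivity
  have h1 := plancherel hg
  have h2 := plancherel hf
  have h3 : ∫ t : ℝ, ‖TT g (t * I)‖ ^ 2 ≤ ∫ t : ℝ, (1 / z.re ^ 2) * ‖TT f (t * I)‖ ^ 2 := by
    refine integral_mono (int_TT_sq hg) ((int_TT_sq hf).const_mul _) fun t => ?_
    simp only
    rw [← h (t * I), norm_mul, mul_pow]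
    have h4 : z.re ^ 2 ≤ ‖(t : ℂ) * I - z‖ ^ 2 := by
      rw [← sq_abs z.re]
      refine pow_le_pow_left₀ (abs_nonneg _) ?_ 2
      have := Complex.abs_re_le_norm ((t : ℂ) * I - z)
      simpa using this
    rw [one_div_mul_eq_div, le_div_iff₀ hz2]
    nlinarith [sq_nonneg ‖TT g (t * I)‖]
  rw [integral_const_mul, h1, h2] at h3
  have hpi := Real.pi_pos
  have h4 : (1 / z.re ^ 2) * (2 * Real.pi * N2 f) = (2 * Real.pi) * (N2 f / z.re ^ 2) := by ring
  rw [h4] at h3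
  exact le_of_mul_le_mul_left h3 (by positivity)

lemma wt_ineq (x y : ℝ) : 1 + |x| ≤ (1 + |y|) * (1 + |x - y|) := by
  have h1 : |x| ≤ |y| + |x - y| := by
    have : x = y + (x - y) := by ring
    calc |x| = |y + (x - y)| := by rw [← this]
      _ ≤ _ := abs_add_le _ _
  nlinarith [abs_nonneg y, abs_nonneg (x - y), mul_nonneg (abs_nonneg y) (abs_nonneg (x - y))]

/-- division by one linear factor -/
lemma single : ∃ C : ℝ, 1 ≤ C ∧ ∀ (a s σ : ℝ) (X : ℝ → ℂ) (Ψ R : ℂ → ℂ) (z : ℂ), 1 ≤ a → 0 ≤ s → σ ≤ 2 → Hd a X →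
    Differentiable ℂ Ψ → Differentiable ℂ R → (∀ w, TT X w = (w - z) * Ψ w - R w) →
    (∀ w : ℂ, |w.re| ≤ σ → ‖R w‖ ≤ s / (1 + |w.im|)) → |z.re| ≤ σ - 1 / 2 → z.re ≠ 0 →
    ∃ (W : ℝ → ℂ) (R' : ℂ → ℂ), Hd a W ∧ Differentiable ℂ R' ∧ (∀ w, TT W w = Ψ w - R' w) ∧
      (∀ w : ℂ, |w.re| ≤ σ → ‖R' w‖ ≤ (C * s) / (1 + |w.im|)) ∧ N2 W ≤ C * (N2 X + s ^ 2) / z.re ^ 2 := by
  obtain ⟨h, C, hC, hh, h0, hb⟩ := bump
  have hNh := N2_nonneg h
  refine ⟨4 * (1 + 2 * C) + 2 + 2 * Real.exp 4 * N2 h, by nlinarith [mul_nonneg (Real.exp_pos 4).le hNh], fun a s σ X Ψ R z ha hs hσ hX hΨ hR hXT hRb hz hz0 => ?_⟩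
  have ha0 : 0 < a := by linarith
  have hzre : |z.re| ≤ 2 := by linarith
  set c := TT X z with hc
  have hcR : c = -R z := by rw [hc, hXT, sub_self, zero_mul, zero_sub]
  have hcb : ‖c‖ ≤ s / (1 + |z.im|) := by
    rw [hcR, norm_neg]
    exact hRb z (by linarith)
  set hz' : ℝ → ℂ := fun x => h x * cexp (-z * x) with hhz
  have hHz : Hd 1 hz' := hh.modul hb (by linarith)
  have hTz : ∀ w, TT hz' w = TT h (-z + w) := fun w => TT_mul_exp _ _ _
  have hHza : Hd a hz' := hHz.mono ha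
  set X' : ℝ → ℂ := fun x => X x - c * hz' x with hX'
  have hX'H : Hd a X' := hX.sub (hHza.smul c)
  have hX'T : ∀ w, TT X' w = TT X w - c * TT hz' w := by
    intro w
    simp only [hX']
    rw [TT_sub hX.1 (hHza.smul c).1, TT_smul]
  have hX'0 : TT X' z = 0 := by
    rw [hX'T, hTz, neg_add_cancel, h0, mul_one, hc, sub_self]
  obtain ⟨W, hW, hWT, -⟩ := hX'H.div ha0 z hX'0
  -- the remainder
  set P : ℂ → ℂ := fun w => R w + c * TT hz' w with hP
  have hPd : Differentiable ℂ P := hR.add ((differentiable_TT hHz.1).const_mul c)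
  have hP0 : P z = 0 := by
    simp only [hP]
    rw [hTz, neg_add_cancel, h0, mul_one, hcR, add_neg_cancel]
  have hPb : ∀ w : ℂ, |w.re| ≤ σ → ‖P w‖ ≤ ((1 + 2 * C) * s) / (1 + |w.im|) := by
    intro w hw
    have h1 := hRb w hw
    have h2 := hb (-z + w) (by
      rw [Complex.add_re, Complex.neg_re]
      calc |-z.re + w.re| ≤ |-z.re| + |w.re| := abs_add_le _ _
        _ ≤ 4 := by rw [abs_neg]; linarith)
    have h3 : (-z + w).im = w.im - z.im := by simp; ring
    rw [h3] at h2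
    have h4 := wt_ineq w.im z.im
    set u := |w.im - z.im| with hu
    have hu0 : 0 ≤ u := abs_nonneg _
    have h5 : (w.im - z.im) ^ 2 = u ^ 2 := (sq_abs _).symm
    rw [h5] at h2
    have h6 : ‖c * TT hz' w‖ ≤ (2 * C * s) / (1 + |w.im|) := by
      rw [norm_mul, hTz]
      calc ‖c‖ * ‖TT h (-z + w)‖ ≤ (s / (1 + |z.im|)) * (C / (1 + u ^ 2)) :=
            mul_le_mul hcb h2 (norm_nonneg _) (by positivity)
        _ ≤ (2 * C * s) / (1 + |w.im|) := by
            rw [div_mul_div_comm, div_le_div_iff₀ (by positivity) (by positivity)]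
            have h7 : 1 + u ≤ 2 * (1 + u ^ 2) := by nlinarith [sq_nonneg (u - 1)]
            have h8 : 1 + |w.im| ≤ (1 + |z.im|) * (2 * (1 + u ^ 2)) :=
              h4.trans (mul_le_mul_of_nonneg_left h7 (by positivity))
            calc s * C * (1 + |w.im|) ≤ s * C * ((1 + |z.im|) * (2 * (1 + u ^ 2))) :=
                  mul_le_mul_of_nonneg_left h8 (by positivity)
              _ = _ := by ring
    calc ‖P w‖ ≤ ‖R w‖ + ‖c * TT hz' w‖ := norm_add_le _ _
      _ ≤ s / (1 + |w.im|) + (2 * C * s) / (1 + |w.im|) := add_le_add h1 h6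
      _ = _ := by ring
  have hds : Differentiable ℂ (dslope P z) := by
    intro w
    exact (((Complex.differentiableOn_dslope (c := z) (s := univ) univ_mem).2 hPd.differentiableOn) w (mem_univ w)).differentiableAt
      univ_mem
  have hdm : ∀ w, (w - z) * dslope P z w = P w := by
    intro w
    have := sub_smul_dslope P z w
    rw [hP0, sub_zero, smul_eq_mul] at this
    exact this
  refine ⟨W, dslope P z, hW, hds, fun w => ?_, fun w hw => ?_, ?_⟩
  · -- equality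
    have key : ∀ w, w ≠ z → TT W w = Ψ w - dslope P z w := by
      intro w hw
      have h1 : (w - z) * TT W w = (w - z) * (Ψ w - dslope P z w) := by
        rw [hWT, hX'T, hXT, mul_sub, hdm]
        simp only [hP]
        ring
      exact mul_left_cancel₀ (sub_ne_zero.2 hw) h1
    by_cases hw : w = z
    · have hd1 : Continuous (TT W) := (differentiable_TT hW.1).continuous
      have hd2 : Continuous (fun w => Ψ w - dslope P z w) := hΨ.continuous.sub hds.continuous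
      have h1 : TT W = fun w => Ψ w - dslope P z w := by
        refine Continuous.ext_on (s := {z}ᶜ) (dense_compl_singleton z) hd1 hd2 fun w hw => key w hw
      exact congrFun h1 w
    · exact key w hw
  · -- the bound
    have hCs : 0 ≤ (1 + 2 * C) * s := by positivity
    have hfin : ∀ y : ℝ, 0 ≤ y → 4 * ((1 + 2 * C) * s) / (1 + y) ≤
        ((4 * (1 + 2 * C) + 2 + 2 * Real.exp 4 * N2 h) * s) / (1 + y) := by
      intro y hy
      refine div_le_div_of_nonneg_right ?_ (by positivity)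
      have : 0 ≤ (2 + 2 * Real.exp 4 * N2 h) * s := by positivity
      nlinarith
    refine le_trans ?_ (hfin _ (abs_nonneg _))
    rcases le_total (1 / 2) ‖w - z‖ with h1 | h1
    · have h2 := hdm w
      have h3 : ‖w - z‖ * ‖dslope P z w‖ = ‖P w‖ := by rw [← norm_mul, h2]
      have h4 := hPb w hw
      have h5 : ‖dslope P z w‖ ≤ 2 * ‖P w‖ := by
        rw [← h3]
        nlinarith [norm_nonneg (dslope P z w)]
      calc ‖dslope P z w‖ ≤ 2 * ‖P w‖ := h5
        _ ≤ 2 * (((1 + 2 * C) * s) / (1 + |w.im|)) := by linarith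
        _ ≤ 4 * ((1 + 2 * C) * s) / (1 + |w.im|) := by
            have e : 4 * ((1 + 2 * C) * s) / (1 + |w.im|) = 4 * (((1 + 2 * C) * s) / (1 + |w.im|)) := by ring
            rw [e]
            have : 0 ≤ ((1 + 2 * C) * s) / (1 + |w.im|) := by positivity
            linarith
    · -- maximum principle
      have h2 : ∀ u ∈ sphere z (1 / 2), ‖dslope P z u‖ ≤ 4 * ((1 + 2 * C) * s) / (1 + |w.im|) := by
        intro u hu
        rw [mem_sphere, dist_eq_norm] at hu
        have h3 : ‖u - z‖ * ‖dslope P z u‖ = ‖P u‖ := by rw [← norm_mul, hdm u]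
        rw [hu] at h3
        have hure : |u.re| ≤ σ := by
          have h4 := Complex.abs_re_le_norm (u - z)
          rw [hu, Complex.sub_re] at h4
          have h5 : |u.re| ≤ |u.re - z.re| + |z.re| := by
            have := abs_add_le (u.re - z.re) z.re
            simpa using this
          linarith
        have h4 := hPb u hure
        have him : 1 + |w.im| ≤ 2 * (1 + |u.im|) := by
          have h5 := Complex.abs_im_le_norm (w - u)
          have h6 : ‖w - u‖ ≤ 1 := by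
            calc ‖w - u‖ = ‖(w - z) - (u - z)‖ := by congr 1; ring
              _ ≤ ‖w - z‖ + ‖u - z‖ := norm_sub_le _ _
              _ ≤ 1 := by rw [hu]; linarith
          rw [Complex.sub_im] at h5
          have h7 : |w.im| ≤ |w.im - u.im| + |u.im| := by
            have := abs_add_le (w.im - u.im) u.im
            simpa using this
          have := abs_nonneg u.im
          linarith
        calc ‖dslope P z u‖ = 2 * ‖P u‖ := by linarith
          _ ≤ 2 * (((1 + 2 * C) * s) / (1 + |u.im|)) := by linarith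
          _ ≤ 4 * ((1 + 2 * C) * s) / (1 + |w.im|) := by
              rw [← mul_div_assoc, div_le_div_iff₀ (by positivity) (by positivity)]
              calc 2 * ((1 + 2 * C) * s) * (1 + |w.im|) ≤ 2 * ((1 + 2 * C) * s) * (2 * (1 + |u.im|)) :=
                    mul_le_mul_of_nonneg_left him (by positivity)
                _ = _ := by ring
      refine Complex.norm_le_of_forall_mem_frontier_norm_le (U := ball z (1 / 2)) isBounded_ball hds.diffContOnCl ?_ ?_
      · intro u hu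
        rw [frontier_ball z (by norm_num)] at hu
        exact h2 u hu
      · rw [closure_ball z (by norm_num), mem_closedBall, dist_eq_norm]
        exact h1
  · -- the norm
    have h1 := N2_div hX'H.1 hW.1 hz0 hWT
    refine h1.trans ?_
    refine div_le_div_of_nonneg_right ?_ (sq_nonneg _)
    have h2 : N2 X' ≤ 2 * N2 X + 2 * (‖c‖ ^ 2 * N2 hz') := by
      have h3 := Pool.Agent.Y23.N2_add_le hX.1 (hHza.smul (-c)).1
      have e : (fun x => X x + -c * hz' x) = X' := by funext x; simp only [hX']; ring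
      rw [e, N2_smul, norm_neg] at h3
      exact h3
    have h3 : N2 hz' ≤ Real.exp 4 * N2 h := by
      have h4 := N2_exp_le hh.1 (-z.re)
      have h5 : N2 (fun x => h x * cexp (((-z.re : ℝ) : ℂ) * x)) = N2 hz' := by
        unfold N2
        refine integral_congr_ae (Eventually.of_forall fun x => ?_)
        simp only [hhz]
        rw [norm_mul, norm_mul, Complex.norm_exp, Complex.norm_exp]
        congr 3
        rw [Complex.re_mul_ofReal, Complex.re_mul_ofReal, Complex.neg_re, Complex.ofReal_re]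
      rw [h5] at h4
      refine h4.trans (mul_le_mul_of_nonneg_right (Real.exp_le_exp.2 ?_) hNh)
      rw [abs_neg]
      linarith
    have h4 : ‖c‖ ^ 2 ≤ s ^ 2 := by
      refine pow_le_pow_left₀ (norm_nonneg _) (hcb.trans ?_) 2
      rw [div_le_iff₀ (by positivity)]
      nlinarith [abs_nonneg z.im]
    have h5 : ‖c‖ ^ 2 * N2 hz' ≤ s ^ 2 * (Real.exp 4 * N2 h) := mul_le_mul h4 h3 (N2_nonneg _) (by positivity)
    have h6 := N2_nonneg X
    have h7 : 0 ≤ Real.exp 4 * N2 h := by positivity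
    nlinarith [mul_nonneg h6 h7, sq_nonneg s]

/-- division by several linear factors -/
lemma iter : ∃ C : ℝ, 1 ≤ C ∧ ∀ (a σ δ : ℝ), 1 ≤ a → σ ≤ 2 → 0 < δ → δ ≤ 1 → ∀ (l : List ℂ),
    (∀ z ∈ l, |z.re| ≤ σ - 1 / 2 ∧ δ ≤ |z.re|) → ∀ (s : ℝ) (X : ℝ → ℂ) (Ψ R : ℂ → ℂ), 0 ≤ s → Hd a X →
    Differentiable ℂ Ψ → Differentiable ℂ R → (∀ w, TT X w = PL l w * Ψ w - R w) →
    (∀ w : ℂ, |w.re| ≤ σ → ‖R w‖ ≤ s / (1 + |w.im|)) →
    ∃ (W : ℝ → ℂ) (R' : ℂ → ℂ), Hd a W ∧ Differentiable ℂ R' ∧ (∀ w, TT W w = Ψ w - R' w) ∧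
      (∀ w : ℂ, |w.re| ≤ σ → ‖R' w‖ ≤ (C ^ l.length * s) / (1 + |w.im|)) ∧
      N2 W ≤ (C / δ ^ 2) ^ l.length * (N2 X + s ^ 2) := by
  obtain ⟨C, hC, hsing⟩ := single
  refine ⟨C + C ^ 2, by nlinarith, fun a σ δ ha hσ hδ hδ1 l => ?_⟩
  have hCC : C ≤ C + C ^ 2 := by nlinarith
  have key : (∀ z ∈ l, |z.re| ≤ σ - 1 / 2 ∧ δ ≤ |z.re|) → ∀ (s : ℝ) (X : ℝ → ℂ) (Ψ R : ℂ → ℂ), 0 ≤ s → Hd a X →
    Differentiable ℂ Ψ → Differentiable ℂ R → (∀ w, TT X w = PL l w * Ψ w - R w) →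
    (∀ w : ℂ, |w.re| ≤ σ → ‖R w‖ ≤ s / (1 + |w.im|)) →
    ∃ (W : ℝ → ℂ) (R' : ℂ → ℂ), Hd a W ∧ Differentiable ℂ R' ∧ (∀ w, TT W w = Ψ w - R' w) ∧
      (∀ w : ℂ, |w.re| ≤ σ → ‖R' w‖ ≤ (C ^ l.length * s) / (1 + |w.im|)) ∧
      N2 W + (C ^ l.length * s) ^ 2 ≤ ((C + C ^ 2) / δ ^ 2) ^ l.length * (N2 X + s ^ 2) := by
    induction l with
    | nil =>
      intro _ s X Ψ R hs hX hΨ hR hXT hRb
      refine ⟨X, R, hX, hR, fun w => ?_, fun w hw => ?_, ?_⟩
      · rw [hXT, PL_nil, one_mul]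
      · simpa using hRb w hw
      · simp
    | cons z l ih =>
      intro hl s X Ψ R hs hX hΨ hR hXT hRb
      obtain ⟨hz1, hz2⟩ := hl z (by simp)
      have hPΨ : Differentiable ℂ (fun w => PL l w * Ψ w) := (PL_diff l).mul hΨ
      have hz0 : z.re ≠ 0 := by
        intro h
        rw [h, abs_zero] at hz2
        linarith
      obtain ⟨W1, R1, hW1, hR1, hT1, hb1, hN1⟩ := hsing a s σ X (fun w => PL l w * Ψ w) R z ha hs hσ hX hPΨ hR
        (fun w => by rw [hXT, PL_cons, mul_assoc]) hRb hz1 hz0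
      obtain ⟨W, R', hW, hR', hT, hb, hN⟩ := ih (fun y hy => hl y (by simp [hy])) (C * s) W1 Ψ R1 (by positivity) hW1 hΨ hR1 hT1 hb1
      refine ⟨W, R', hW, hR', hT, fun w hw => ?_, ?_⟩
      · have := hb w hw
        rw [List.length_cons, pow_succ]
        rwa [mul_assoc]
      · rw [List.length_cons]
        have hN0 := N2_nonneg X
        have e1 : C ^ (l.length + 1) * s = C ^ l.length * (C * s) := by rw [pow_succ]; ring
        rw [e1]
        refine hN.trans ?_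
        rw [pow_succ ((C + C ^ 2) / δ ^ 2) l.length, mul_assoc]
        refine mul_le_mul_of_nonneg_left ?_ (by positivity)
        have hδ2 : δ ^ 2 ≤ z.re ^ 2 := by
          rw [← sq_abs z.re]
          exact pow_le_pow_left₀ hδ.le hz2 2
        have hδ3 : δ ^ 2 ≤ 1 := by nlinarith
        have h1 : C * (N2 X + s ^ 2) / z.re ^ 2 ≤ C * (N2 X + s ^ 2) / δ ^ 2 := by gcongr
        have h2 : (C * s) ^ 2 ≤ C ^ 2 * (N2 X + s ^ 2) / δ ^ 2 := by
          rw [le_div_iff₀ (by positivity)]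
          have : 0 ≤ C ^ 2 * s ^ 2 := by positivity
          have : 0 ≤ C ^ 2 * N2 X := by positivity
          nlinarith
        calc N2 W1 + (C * s) ^ 2 ≤ C * (N2 X + s ^ 2) / δ ^ 2 + C ^ 2 * (N2 X + s ^ 2) / δ ^ 2 := by linarith
          _ = _ := by ring
  intro hl s X Ψ R hs hX hΨ hR hXT hRb
  obtain ⟨W, R', hW, hR', hT, hb, hN⟩ := key hl s X Ψ R hs hX hΨ hR hXT hRb
  refine ⟨W, R', hW, hR', hT, fun w hw => (hb w hw).trans ?_, ?_⟩
  · have : C ^ l.length ≤ (C + C ^ 2) ^ l.length := pow_le_pow_left₀ (by linarith) hCC _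
    gcongr
  · have : 0 ≤ (C ^ l.length * s) ^ 2 := sq_nonneg _
    linarith

end Pool.Agent.Y23.G
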