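import Pool.Agent.Y23.G.Sp
import Pool.Agent.TH839.NA.Raw
import Pool.Agent.H370R2.Local

/-! # L-functions: growth and the number of zeros -/

set_option autoImplicit false
set_option linter.unusedSectionVars false
set_option maxHeartbeats 2000000

open Complex Filter Topology Set MeasureTheory Metric
open scoped ComplexConjugate

namespace Pool.Agent.Y23.G

open Pool.Agent.W169.HF H353.E Pool.Agent.W355.UN Pool.Agent.TH839.NA

/-- an L-function with an Euler product -/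
class LFun : Type where
  /-- the degree -/
  m : ℕ
  /-- the order of the pole -/
  r : ℕ
  /-- the conductor -/
  N : ℝ
  /-- the archimedean parameters -/
  a : Fin m → ℂ
  /-- the coefficients -/
  b : ℕ → ℂ
  /-- the traces -/
  c : ℕ → ℂ
  /-- the completed function -/
  X : ℂ → ℂ
  raw : RawT (1 / 2) m r N a b c X
  str : ∀ j, -1 / 2 < (a j).re

variable [L : LFun]

lemma ul : UL L.m Bst L.N (1 / 2) (fun j => -L.a j) L.X (fun s => (s * (s - 1)) ^ L.r * LSeries L.b s) := L.raw.ul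

lemma Xd : Differentiable ℂ L.X := L.raw.entire

lemma X_fe : ∃ ε : ℂ, ‖ε‖ = 1 ∧ ∀ s : ℂ, L.X s = ε * conj (L.X (1 - conj s)) := L.raw.fe

lemma X_norm (s : ℂ) : ‖L.X (1 - conj s)‖ = ‖L.X s‖ := by
  obtain ⟨ε, h1, h2⟩ := X_fe
  rw [h2 s, norm_mul, h1, one_mul, RCLike.norm_conj]

lemma X_zero {s : ℂ} (h : L.X s = 0) : L.X (1 - conj s) = 0 := by
  rw [← norm_eq_zero, X_norm, h, norm_zero]

lemma X_ne {s : ℂ} (h : 3 / 2 < s.re) : L.X s ≠ 0 := ul.Xne (by linarith)

/-- the logarithmic derivative -/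
noncomputable def XL (s : ℂ) : ℂ := deriv L.X s / L.X s

lemma XL_fe (s : ℂ) : XL s = -conj (XL (1 - conj s)) := by
  obtain ⟨ε, h1, h2⟩ := X_fe
  have hε : ε ≠ 0 := by
    rintro rfl
    rw [norm_zero] at h1
    exact zero_ne_one h1
  have h3 : HasDerivAt (fun z => ε * conj (L.X (1 - conj z))) (ε * conj (-deriv L.X (1 - conj s))) s := by
    refine HasDerivAt.const_mul ε ?_
    have h4 : HasDerivAt (fun z : ℂ => L.X (1 - z)) (-deriv L.X (1 - conj s)) (conj s) := by
      have h5 := (Xd (1 - conj s)).hasDerivAt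
      have h6 : HasDerivAt (fun z : ℂ => 1 - z) (-1) (conj s) := by
        simpa using (hasDerivAt_id (conj s)).const_sub 1
      have h7 := HasDerivAt.comp (conj s) h5 h6
      rw [mul_neg_one] at h7
      exact h7
    have h5 := h4.conj_conj
    rw [Complex.conj_conj] at h5
    exact h5
  have h4 : deriv L.X s = ε * conj (-deriv L.X (1 - conj s)) := by
    have e : L.X = fun z => ε * conj (L.X (1 - conj z)) := funext h2
    conv_lhs => rw [e]
    exact h3.deriv
  unfold XL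
  rw [h4, h2 s, mul_div_mul_left _ _ hε, map_neg, map_div₀]
  ring

lemma mk_one (x y : ℝ) : 1 - conj (⟨x, y⟩ : ℂ) = ⟨1 - x, y⟩ := by
  apply Complex.ext <;> simp

lemma Lg_add (t y : ℝ) : Lg (t + y) ≤ Lg t + |y| := by
  unfold Lg
  have h1 := abs_add_le t y
  have h2 := abs_nonneg t
  have h3 := abs_nonneg y
  have h4 : Real.log (3 + |t + y|) ≤ Real.log ((3 + |t|) * (1 + |y|)) := by
    apply Real.log_le_log (by positivity)
    nlinarith [mul_nonneg h2 h3]
  rw [Real.log_mul (by positivity) (by positivity)] at h4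
  have h5 := Real.log_le_sub_one_of_pos (by positivity : 0 < 1 + |y|)
  linarith

/-- the logarithmic derivative to the right of the strip -/
lemma XL_bd : ∃ C : ℝ, 1 ≤ C ∧ ∀ s : ℂ, 2 ≤ s.re → s.re ≤ 12 → ‖XL s‖ ≤ C * Lg s.im := by
  have h := ul (L := L)
  have hp : ∀ j, 1 ≤ 1 + ‖-L.a j‖ := fun j => by linarith [norm_nonneg (-L.a j)]
  have hpp : 1 ≤ ∏ j, (1 + ‖-L.a j‖) := by
    refine Finset.prod_induction _ (fun x => (1 : ℝ) ≤ x) (fun a b ha hb => ?_) le_rfl fun j _ => hp j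
    nlinarith
  have hN : 1 ≤ L.N := h.hN
  have hlog : 0 ≤ Real.log (L.N * ∏ j, (1 + ‖-L.a j‖)) := Real.log_nonneg (by nlinarith)
  have hm : (0 : ℝ) ≤ L.m := Nat.cast_nonneg _
  have hB := Bst_nonneg (1 / 2)
  refine ⟨Real.log (L.N * ∏ j, (1 + ‖-L.a j‖)) + L.m * 11 + L.m * Bst (1 / 2) + 1, by
    have : 0 ≤ (L.m : ℝ) * 11 := by positivity
    have : 0 ≤ (L.m : ℝ) * Bst (1 / 2) := by positivity
    linarith, fun s h1 h2 => ?_⟩
  have e : XL s = logDeriv L.X s := by rw [logDeriv_apply]; rfl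
  rw [e, h.logD (by linarith)]
  have b1 := gaD_norm hN h.re_le (s := s) (by linarith)
  have b2 := h.bd (1 / 2) (by norm_num) (by norm_num) s (by linarith)
  have hL := one_le_Lg s.im
  have b3 : Real.log (‖s‖ + 4) ≤ 4 * Lg s.im := by
    have h3 : ‖s‖ + 4 ≤ (3 + |s.im|) ^ 4 := by
      have h4 := Complex.norm_le_abs_re_add_abs_im s
      rw [abs_of_nonneg (by linarith : 0 ≤ s.re)] at h4
      have h5 := abs_nonneg s.im
      have h6 : (3 + |s.im|) ^ 4 = (3 + |s.im|) ^ 3 * (3 + |s.im|) := by ring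
      have h7 : (3 : ℝ) ^ 3 ≤ (3 + |s.im|) ^ 3 := pow_le_pow_left₀ (by norm_num) (by linarith) 3
      nlinarith
    have h4 := Real.log_le_log (by positivity) h3
    rw [Real.log_pow] at h4
    unfold Lg
    push_cast at h4
    linarith
  refine (norm_add_le _ _).trans ((add_le_add b1 b2).trans ?_)
  have h5 : (L.m : ℝ) * (Real.log (‖s‖ + 4) + 7) ≤ L.m * (11 * Lg s.im) := by
    apply mul_le_mul_of_nonneg_left _ hm
    linarith
  have h6 : 0 ≤ (L.m : ℝ) * Bst (1 / 2) := by positivity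
  nlinarith

lemma X_seg {C : ℝ} (hC : 1 ≤ C) (hCb : ∀ s : ℂ, 2 ≤ s.re → s.re ≤ 12 → ‖XL s‖ ≤ C * Lg s.im) {s v : ℂ}
    (h1 : 2 ≤ s.re) (h2 : s.re ≤ 12) (h3 : 2 ≤ (s + v).re) (h4 : (s + v).re ≤ 12) :
    ‖L.X (s + v)‖ ≤ ‖L.X s‖ * Real.exp (C * (Lg s.im + |v.im|) * ‖v‖) := by
  have hre : ∀ τ : ℝ, (s + τ * v).re = s.re + τ * v.re := fun τ => by
    rw [add_re, Complex.re_ofReal_mul]
  have him : ∀ τ : ℝ, (s + τ * v).im = s.im + τ * v.im := fun τ => by
    rw [add_im, Complex.im_ofReal_mul]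
  rw [add_re] at h3 h4
  have hreg : ∀ τ ∈ Icc (0 : ℝ) 1, 2 ≤ (s + τ * v).re ∧ (s + τ * v).re ≤ 12 := by
    intro τ hτ
    rw [hre]
    constructor <;> nlinarith [hτ.1, hτ.2]
  have h := seg (F := L.X) (s := s) (v := v) (ℓ := 0) (K := C * (Lg s.im + |v.im|)) (fun τ _ => Xd _)
    (fun τ hτ => X_ne (by linarith [(hreg τ hτ).1])) (fun τ hτ => by
      rw [Complex.ofReal_zero, sub_zero, logDeriv_apply]
      refine (hCb _ (hreg τ hτ).1 (hreg τ hτ).2).trans ?_
      apply mul_le_mul_of_nonneg_left _ (by linarith)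
      rw [him]
      refine (Lg_add _ _).trans ?_
      rw [abs_mul, abs_of_nonneg hτ.1]
      have := abs_nonneg v.im
      nlinarith [hτ.2])
  rwa [zero_mul, zero_add] at h

/-- the centre of the discs -/
noncomputable def ctr (T : ℝ) : ℂ := ⟨9 / 2, T⟩

/-- bounds on discs -/
lemma X_ball : ∃ C : ℝ, 1 ≤ C ∧ ∀ T : ℝ, ∀ z ∈ closedBall (ctr T) 6,
    ‖L.X z‖ ≤ ‖L.X (ctr T)‖ * Real.exp (C * Lg T) := by
  obtain ⟨C, hC, hCb⟩ := XL_bd (L := L)
  refine ⟨170 * C, by linarith, fun T z hz => ?_⟩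
  have hL := one_le_Lg T
  rw [mem_closedBall, dist_eq_norm] at hz
  have hcre : (ctr T).re = 9 / 2 := rfl
  have hcim : (ctr T).im = T := rfl
  have hzre := (Complex.abs_re_le_norm (z - ctr T)).trans hz
  have hzim := (Complex.abs_im_le_norm (z - ctr T)).trans hz
  rw [sub_re, hcre] at hzre
  rw [sub_im, hcim] at hzim
  rw [abs_le] at hzre
  by_cases hre : 9 / 2 ≤ z.re
  · have h := X_seg hC hCb (s := ctr T) (v := z - ctr T) (by rw [hcre]; norm_num) (by rw [hcre]; norm_num)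
      (by rw [add_sub_cancel]; linarith) (by rw [add_sub_cancel]; linarith)
    rw [add_sub_cancel] at h
    refine h.trans ?_
    apply mul_le_mul_of_nonneg_left _ (norm_nonneg _)
    apply Real.exp_le_exp.2
    rw [sub_im, hcim]
    calc C * (Lg T + |z.im - T|) * ‖z - ctr T‖ ≤ C * (Lg T + 6) * 6 := by gcongr
      _ ≤ 170 * C * Lg T := by nlinarith
  · push Not at hre
    have hs : Slow (fun u => L.X ((1 / 2 + T * I) + (1 : ℝ) * u)) := slow_affine L.raw.slow (1 / 2 + T * I) one_pos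
    have hA : ∀ u : ℂ, |u.re| = 4 → ‖L.X ((1 / 2 + T * I) + (1 : ℝ) * u)‖ ≤
        ‖L.X (ctr T)‖ * Real.exp ((2 * C * Lg T) * (1 + ‖u‖ ^ 2)) := by
      intro u hu
      have key : ∀ y : ℝ, ‖L.X ⟨9 / 2, T + y⟩‖ ≤ ‖L.X (ctr T)‖ * Real.exp (C * (Lg T + |y|) * |y|) := by
        intro y
        have h := X_seg hC hCb (s := ctr T) (v := ⟨0, y⟩) (by rw [hcre]; norm_num) (by rw [hcre]; norm_num)
          (by rw [add_re, hcre]; norm_num) (by rw [add_re, hcre]; norm_num)
        have e1 : ctr T + (⟨0, y⟩ : ℂ) = ⟨9 / 2, T + y⟩ := by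
          unfold ctr; apply Complex.ext <;> simp
        have e2 : ‖(⟨0, y⟩ : ℂ)‖ = |y| := by
          have : (⟨0, y⟩ : ℂ) = y * I := by apply Complex.ext <;> simp
          rw [this, norm_mul, norm_I, mul_one, Complex.norm_real, Real.norm_eq_abs]
        rw [e1, e2, hcim] at h
        exact h
      have hbd : ‖L.X ⟨9 / 2, T + u.im⟩‖ ≤ ‖L.X (ctr T)‖ * Real.exp ((2 * C * Lg T) * (1 + ‖u‖ ^ 2)) := by
        refine (key u.im).trans ?_
        apply mul_le_mul_of_nonneg_left _ (norm_nonneg _)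
        apply Real.exp_le_exp.2
        have h1 := Complex.abs_im_le_norm u
        have h2 := norm_nonneg u
        have h3 := abs_nonneg u.im
        have h4 : (Lg T + |u.im|) * |u.im| ≤ 2 * Lg T * (1 + ‖u‖ ^ 2) := by
          have h5 : |u.im| ^ 2 ≤ ‖u‖ ^ 2 := pow_le_pow_left₀ h3 h1 2
          have h6 : |u.im| ≤ (1 + ‖u‖ ^ 2) := by nlinarith [sq_nonneg (|u.im| - 1)]
          have h7 : Lg T * |u.im| ≤ Lg T * (1 + ‖u‖ ^ 2) := mul_le_mul_of_nonneg_left h6 (by linarith)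
          have h8 : |u.im| ^ 2 ≤ Lg T * (1 + ‖u‖ ^ 2) := by nlinarith
          nlinarith
        nlinarith
      rcases eq_or_eq_neg_of_abs_eq hu with h | h
      · have e : (1 / 2 + T * I : ℂ) + (1 : ℝ) * u = ⟨9 / 2, T + u.im⟩ := by
          apply Complex.ext
          · simp [h]; norm_num
          · simp
        rw [e]; exact hbd
      · have e : (1 / 2 + T * I : ℂ) + (1 : ℝ) * u = 1 - conj (⟨9 / 2, T + u.im⟩ : ℂ) := by
          rw [mk_one]
          apply Complex.ext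
          · simp [h]; norm_num
          · simp
        rw [e, X_norm]; exact hbd
    have hst := strip hs (K := 2 * C * Lg T) (by nlinarith) (by norm_num : (0 : ℝ) < 4) hA (u := z - (1 / 2 + T * I)) (by
      have e : (z - (1 / 2 + T * I)).re = z.re - 1 / 2 := by simp
      rw [e, abs_le]
      constructor <;> linarith)
    have e : (1 / 2 + T * I : ℂ) + (1 : ℝ) * (z - (1 / 2 + T * I)) = z := by push_cast; ring
    rw [e] at hst
    refine hst.trans ?_
    apply mul_le_mul_of_nonneg_left _ (norm_nonneg _)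
    apply Real.exp_le_exp.2
    have hn : ‖z - (1 / 2 + T * I)‖ ^ 2 ≤ 52 := by
      rw [Complex.sq_norm, Complex.normSq_apply]
      have e1 : (z - (1 / 2 + T * I)).re = z.re - 1 / 2 := by simp
      have e2 : (z - (1 / 2 + T * I)).im = z.im - T := by simp
      rw [e1, e2]
      rw [abs_le] at hzim
      nlinarith
    calc 2 * C * Lg T * (1 + 2 * 4 ^ 2 + ‖z - (1 / 2 + T * I)‖ ^ 2) ≤ 2 * C * Lg T * (1 + 2 * 4 ^ 2 + 52) := by gcongr
      _ = 170 * C * Lg T := by ring

lemma mult_const_mul {f : ℂ → ℂ} {k : ℂ} (hk : k ≠ 0) {z : ℂ} (hf : AnalyticAt ℂ f z) :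
    H370.mult (fun w => k * f w) z = H370.mult f z := by
  unfold H370.mult analyticOrderNatAt
  have h1 : analyticOrderAt (fun w => k * f w) z = analyticOrderAt (fun _ : ℂ => k) z + analyticOrderAt f z :=
    analyticOrderAt_mul analyticAt_const hf
  have h2 : analyticOrderAt (fun _ : ℂ => k) z = 0 := analyticAt_const.analyticOrderAt_eq_zero.2 hk
  rw [h1, h2, zero_add]

/-- the normalised function -/
noncomputable def Xn (T : ℝ) (z : ℂ) : ℂ := (L.X (ctr T))⁻¹ * L.X z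

lemma ctr_ne (T : ℝ) : L.X (ctr T) ≠ 0 := X_ne (by show (3 : ℝ) / 2 < 9 / 2; norm_num)

lemma Xn_data : ∃ C : ℝ, 1 ≤ C ∧ ∀ T : ℝ, Xn T (ctr T) = 1 ∧ ∀ z ∈ closedBall (ctr T) 6, ‖Xn T z‖ ≤ Real.exp (C * Lg T) := by
  obtain ⟨C, hC, h⟩ := X_ball (L := L)
  refine ⟨C, hC, fun T => ⟨inv_mul_cancel₀ (ctr_ne T), fun z hz => ?_⟩⟩
  unfold Xn
  have h1 := h T z hz
  have h2 : 0 < ‖L.X (ctr T)‖ := norm_pos_iff.2 (ctr_ne T)
  rw [norm_mul, norm_inv, inv_mul_le_iff₀ h2]
  exact h1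

/-- the number of zeros -/
lemma X_cnt : ∃ C : ℝ, 0 < C ∧ ∀ t : ℝ, ∀ S : Finset ℂ, (∀ s ∈ S, L.X s = 0 ∧ |s.im - t| ≤ 1) →
    ((∑ s ∈ S, H370.mult L.X s : ℕ) : ℝ) ≤ C * Lg t := by
  obtain ⟨C, hC, h⟩ := Xn_data (L := L)
  have hq : 0 < Real.log (6 / 5.2) := Real.log_pos (by norm_num)
  refine ⟨C / Real.log (6 / 5.2), by positivity, fun t S hS => ?_⟩
  obtain ⟨h1, h2⟩ := h t
  have hL := one_le_Lg t
  have hM : 1 ≤ Real.exp (C * Lg t) := by
    apply Real.one_le_exp
    nlinarith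
  have hj := H370.Loc.jensen_mult (f := Xn t) (c := ctr t) (r := 5.2) (R := 6) (M := Real.exp (C * Lg t)) (by norm_num)
    (by norm_num) hM (fun z _ => by
      unfold Xn
      exact (analyticAt_const).mul (Xd.analyticAt z)) (by rw [h1]; exact one_ne_zero) h2 S (fun z hz => by
      obtain ⟨h3, h4⟩ := hS z hz
      have h5 : z.re ≤ 3 / 2 := by
        by_contra hcon
        push Not at hcon
        exact X_ne hcon h3
      have h6 : -1 / 2 ≤ z.re := by
        by_contra hcon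
        push Not at hcon
        refine X_ne (s := 1 - conj z) ?_ (X_zero h3)
        simp
        linarith
      rw [mem_closedBall, dist_eq_norm]
      have h7 : ‖z - ctr t‖ ^ 2 ≤ 5.2 ^ 2 := by
        rw [Complex.sq_norm, Complex.normSq_apply]
        have e1 : (z - ctr t).re = z.re - 9 / 2 := by unfold ctr; simp
        have e2 : (z - ctr t).im = z.im - t := by unfold ctr; simp
        rw [e1, e2]
        rw [abs_le] at h4
        nlinarith
      exact le_of_sq_le_sq h7 (by norm_num))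
  rw [h1, norm_one, div_one, Real.log_exp] at hj
  have e : ∀ z : ℂ, H370.mult (Xn t) z = H370.mult L.X z := fun z =>
    mult_const_mul (inv_ne_zero (ctr_ne t)) (Xd.analyticAt z)
  simp only [e] at hj
  push_cast
  refine hj.trans (le_of_eq ?_)
  ring

end Pool.Agent.Y23.G
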