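import Pool.Agent.Y23.G.An1
import Pool.Agent.H370R2.DirGood

/-! # Zero data and good heights -/

set_option autoImplicit false
set_option linter.unusedSectionVars false
set_option maxHeartbeats 2000000

open Complex Filter Topology Set MeasureTheory Metric
open scoped ComplexConjugate

namespace Pool.Agent.Y23.G

open Pool.Agent.W169.HF H353.E Pool.Agent.W355.UN Pool.Agent.TH839.NA

variable [L : LFun]

lemma Xan (s : ℂ) : AnalyticAt ℂ L.X s := Xd.analyticAt s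

lemma X_mrefl (s : ℂ) : H370.mult L.X (1 - conj s) = H370.mult L.X s := by
  obtain ⟨ε, h1, h2⟩ := X_fe (L := L)
  have hε : ε ≠ 0 := by
    rintro rfl
    rw [norm_zero] at h1
    exact zero_ne_one h1
  have e : L.X = fun z => ε * H370.DL.refl L.X z := funext h2
  have h3 : H370.mult (fun z => ε * H370.DL.refl L.X z) s = H370.mult (H370.DL.refl L.X) s :=
    mult_const_mul hε (H370.DL.analyticAt_refl (Xan _))
  rw [← e] at h3
  rw [h3]
  unfold H370.mult analyticOrderNatAt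
  rw [H370.DL.order_refl (Xan _)]

lemma X_mpos {s : ℂ} (hs : L.X s = 0) : 1 ≤ H370.mult L.X s :=
  (H370.Loc.mult_pos (f := L.X) (K := univ) isPreconnected_univ (fun z _ => Xan z) (mem_univ (ctr 0)) (ctr_ne 0)
    (mem_univ s)).2 hs

lemma X_strip {s : ℂ} (hs : L.X s = 0) : |s.re - 1 / 2| ≤ 1 := by
  rw [abs_le]
  constructor
  · by_contra hcon
    push Not at hcon
    refine X_ne (s := 1 - conj s) ?_ (X_zero hs)
    simp
    linarith
  · by_contra hcon
    push Not at hcon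
    exact X_ne (by linarith) hs

noncomputable instance zd : ZD where
  Zs := {s | L.X s = 0}
  mul := H370.mult L.X
  strip := fun _ hs => X_strip hs
  refl := fun _ hs => X_zero hs
  mrefl := fun s _ => X_mrefl s
  mpos := fun _ hs => X_mpos hs
  cnt := X_cnt

lemma Zs_iff (s : ℂ) : s ∈ ZD.Zs ↔ L.X s = 0 := Iff.rfl

lemma mu_X (s : ℂ) : mu s = H370.mult L.X s := rfl

/-- the zeros in a window are finite in number -/
lemma win_card : ∃ C : ℝ, 0 < C ∧ ∀ t : ℝ, ∀ S : Finset ℂ, (∀ s ∈ S, L.X s = 0 ∧ |s.im - t| ≤ 1) →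
    (S.card : ℝ) ≤ C * Lg t := by
  obtain ⟨C, hC, h⟩ := X_cnt (L := L)
  refine ⟨C, hC, fun t S hS => (?_ : (S.card : ℝ) ≤ _).trans (h t S hS)⟩
  have : S.card ≤ ∑ s ∈ S, H370.mult L.X s := by
    rw [Finset.card_eq_sum_ones]
    exact Finset.sum_le_sum fun s hs => X_mpos (hS s hs).1
  exact_mod_cast this

lemma win_finite (t : ℝ) : {s : ℂ | L.X s = 0 ∧ |s.im - t| ≤ 1}.Finite := by
  obtain ⟨C, _, h⟩ := win_card (L := L)
  by_contra hcon
  obtain ⟨n, hn⟩ := exists_nat_gt (C * Lg t)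
  obtain ⟨S, hS1, hS2⟩ := Set.Infinite.exists_subset_card_eq hcon n
  have := h t S fun s hs => hS1 hs
  rw [hS2] at this
  linarith

/-- good heights -/
lemma good_height : ∃ C : ℝ, 0 < C ∧ ∀ T : ℝ, ∃ U : ℝ, T ≤ U ∧ U ≤ T + 1 ∧ ∀ x : ℝ, |x| ≤ 2 →
    L.X ⟨1 / 2 + x, U⟩ ≠ 0 ∧ ‖XL (⟨1 / 2 + x, U⟩ : ℂ)‖ ≤ C * (1 + U ^ 2) := by
  classical
  obtain ⟨C0, hC0, hcard⟩ := win_card (L := L)
  obtain ⟨C, hC, hdata⟩ := Xn_data (L := L)
  set q : ℝ := Real.log (6 / 5.2) with hq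
  have hq0 : 0 < q := Real.log_pos (by norm_num)
  set ℓ : ℝ := |Real.log (5.2 / (6 - 5.2))| with hℓ
  have hℓ0 : 0 ≤ ℓ := abs_nonneg _
  set D : ℝ := C / q * (2 * (4 * C0 + 1)) + 2 * (C + C / q * ℓ + 1) * 22 with hD
  have hD0 : 0 < D := by positivity
  refine ⟨8 * D, by positivity, fun T => ?_⟩
  have hf1 := win_finite (L := L) T
  have hf2 := win_finite (L := L) (T + 1)
  set Γ : Finset ℝ := (hf1.toFinset ∪ hf2.toFinset).image Complex.im with hΓ
  obtain ⟨U, hU, hUΓ⟩ := H370.Loc.pigeon Γ T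
  refine ⟨U, hU.1, hU.2, ?_⟩
  have hLU := one_le_Lg U
  have hT1 : Lg T ≤ 2 * Lg U := by
    have h1 := Lg_add U (T - U)
    rw [add_sub_cancel] at h1
    have h2 : |T - U| ≤ 1 := by rw [abs_le]; constructor <;> linarith [hU.1, hU.2]
    linarith
  have hT2 : Lg (T + 1) ≤ 2 * Lg U := by
    have h1 := Lg_add U (T + 1 - U)
    rw [add_sub_cancel] at h1
    have h2 : |T + 1 - U| ≤ 1 := by rw [abs_le]; constructor <;> linarith [hU.1, hU.2]
    linarith
  have hΓc : (Γ.card : ℝ) ≤ 4 * C0 * Lg U := by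
    have h1 := hcard T hf1.toFinset fun s hs => by simpa using hs
    have h2 := hcard (T + 1) hf2.toFinset fun s hs => by simpa using hs
    have h3 : Γ.card ≤ hf1.toFinset.card + hf2.toFinset.card := Finset.card_image_le.trans (Finset.card_union_le _ _)
    have h4 : (Γ.card : ℝ) ≤ hf1.toFinset.card + hf2.toFinset.card := by exact_mod_cast h3
    have h5 := mul_le_mul_of_nonneg_left hT1 hC0.le
    have h6 := mul_le_mul_of_nonneg_left hT2 hC0.le
    linarith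
  obtain ⟨d1, d2⟩ := hdata U
  have hM : 1 ≤ Real.exp (C * Lg U) := Real.one_le_exp (by nlinarith)
  have hLsq : Lg U ^ 2 ≤ 8 * (1 + U ^ 2) := by
    have h1 : Lg U ≤ 2 + |U| := by
      unfold Lg
      have := Real.log_le_sub_one_of_pos (by positivity : 0 < 3 + |U|)
      linarith
    have h2 : Lg U ^ 2 ≤ (2 + |U|) ^ 2 := pow_le_pow_left₀ (by linarith) h1 2
    nlinarith [sq_abs U, sq_nonneg (|U| - 2)]
  have hδ : 0 < 1 / (2 * ((Γ.card : ℝ) + 1)) := by positivity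
  have hdist : ∀ ρ : ℂ, L.X ρ = 0 → 1 / (2 * ((Γ.card : ℝ) + 1)) ≤ |U - ρ.im| := by
    intro ρ hρ
    by_cases hw : |ρ.im - T| ≤ 1 ∨ |ρ.im - (T + 1)| ≤ 1
    · refine hUΓ ρ.im ?_
      rw [hΓ, Finset.mem_image]
      refine ⟨ρ, ?_, rfl⟩
      rw [Finset.mem_union, Set.Finite.mem_toFinset, Set.Finite.mem_toFinset]
      rcases hw with hw | hw
      · exact Or.inl ⟨hρ, hw⟩
      · exact Or.inr ⟨hρ, hw⟩
    · rw [not_or, not_le, not_le] at hw
      have h5 : 1 ≤ |U - ρ.im| := by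
        obtain ⟨h1, h2⟩ := hw
        rw [lt_abs] at h1 h2
        rw [le_abs]
        rcases h1 with h1 | h1
        · rcases h2 with h2 | h2
          · right; linarith [hU.2]
          · exfalso; linarith
        · left; linarith [hU.1]
      refine le_trans ?_ h5
      rw [div_le_one (by positivity)]
      have : (0 : ℝ) ≤ Γ.card := by positivity
      linarith
  have hright : ∀ x : ℝ, 0 ≤ x → x ≤ 2 → L.X ⟨1 / 2 + x, U⟩ ≠ 0 ∧ ‖XL (⟨1 / 2 + x, U⟩ : ℂ)‖ ≤ D * Lg U ^ 2 := by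
    intro x hx0 hx2
    have hland := H370.Loc.landau (f := Xn U) (c := ctr U) (r := 5.2) (r1 := 4.5) (r2 := 4.2) (R := 6)
      (M := Real.exp (C * Lg U)) (by norm_num) (by norm_num) (by norm_num) (by norm_num) (by norm_num) hM
      (by rw [d1, norm_one]; exact hM) (fun z _ => by unfold Xn; exact analyticAt_const.mul (Xan z))
      (by rw [d1]; exact one_ne_zero) d2 ⟨1 / 2 + x, U⟩ (by
        rw [mem_closedBall, dist_eq_norm]
        have e : (⟨1 / 2 + x, U⟩ : ℂ) - ctr U = ((x - 4 : ℝ) : ℂ) := by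
          unfold ctr; apply Complex.ext <;> simp; ring
        rw [e, Complex.norm_real, Real.norm_eq_abs, abs_le]
        constructor <;> linarith) _ hδ (by
        intro ρ _ hρ
        have hρ' : L.X ρ = 0 := by
          unfold Xn at hρ
          rcases mul_eq_zero.1 hρ with h | h
          · exact absurd h (inv_ne_zero (ctr_ne U))
          · exact h
        refine (hdist ρ hρ').trans ?_
        have := Complex.abs_im_le_norm ((⟨1 / 2 + x, U⟩ : ℂ) - ρ)
        rwa [sub_im] at this)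
    have e1 : deriv (Xn U) ⟨1 / 2 + x, U⟩ / Xn U ⟨1 / 2 + x, U⟩ = XL ⟨1 / 2 + x, U⟩ := by
      have h1 : deriv (Xn U) ⟨1 / 2 + x, U⟩ = (L.X (ctr U))⁻¹ * deriv L.X ⟨1 / 2 + x, U⟩ := by
        unfold Xn
        exact deriv_const_mul _ (Xd _)
      rw [h1]
      unfold Xn XL
      rw [mul_div_mul_left _ _ (inv_ne_zero (ctr_ne U))]
    obtain ⟨h1, h2⟩ := hland
    rw [e1, d1, norm_one, div_one, Real.log_exp, ← hq] at h2
    refine ⟨fun h => h1 (by unfold Xn; rw [h, mul_zero]), h2.trans ?_⟩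
    have b1 : C * Lg U / q / (1 / (2 * ((Γ.card : ℝ) + 1))) ≤ C / q * (2 * (4 * C0 + 1)) * Lg U ^ 2 := by
      have e2 : C * Lg U / q / (1 / (2 * ((Γ.card : ℝ) + 1))) = C / q * Lg U * (2 * ((Γ.card : ℝ) + 1)) := by
        field_simp
      rw [e2]
      have h3 : (Γ.card : ℝ) + 1 ≤ (4 * C0 + 1) * Lg U := by linarith
      have h4 : 0 ≤ C / q * Lg U := by positivity
      calc C / q * Lg U * (2 * ((Γ.card : ℝ) + 1)) ≤ C / q * Lg U * (2 * ((4 * C0 + 1) * Lg U)) := by gcongr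
        _ = _ := by ring
    have b2 : 2 * (C * Lg U + C * Lg U / q * Real.log (5.2 / (6 - 5.2)) + 1) * 4.5 / (5.2 - 4.5) / (4.5 - 4.2) ≤
        2 * (C + C / q * ℓ + 1) * 22 * Lg U ^ 2 := by
      have h3 : C * Lg U + C * Lg U / q * Real.log (5.2 / (6 - 5.2)) + 1 ≤ (C + C / q * ℓ + 1) * Lg U ^ 2 := by
        have h4 : Real.log (5.2 / (6 - 5.2)) ≤ ℓ := le_abs_self _
        have h5 : C * Lg U / q * Real.log (5.2 / (6 - 5.2)) ≤ C * Lg U / q * ℓ := by gcongr
        have h6 : C * Lg U / q * ℓ = C / q * ℓ * Lg U := by ring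
        have h7 : 0 ≤ C / q * ℓ := by positivity
        have h8 : Lg U ≤ Lg U ^ 2 := by nlinarith
        nlinarith
      have e3 : 2 * (C * Lg U + C * Lg U / q * Real.log (5.2 / (6 - 5.2)) + 1) * 4.5 / (5.2 - 4.5) / (4.5 - 4.2) =
          (C * Lg U + C * Lg U / q * Real.log (5.2 / (6 - 5.2)) + 1) * (2 * 4.5 / (5.2 - 4.5) / (4.5 - 4.2)) := by ring
      rw [e3]
      have h9 : (2 * 4.5 / (5.2 - 4.5) / (4.5 - 4.2) : ℝ) ≤ 44 := by norm_num
      have h10 : (0 : ℝ) ≤ 2 * 4.5 / (5.2 - 4.5) / (4.5 - 4.2) := by norm_num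
      have h11 : 0 ≤ (C + C / q * ℓ + 1) * Lg U ^ 2 := by positivity
      calc _ ≤ ((C + C / q * ℓ + 1) * Lg U ^ 2) * (2 * 4.5 / (5.2 - 4.5) / (4.5 - 4.2)) := mul_le_mul_of_nonneg_right h3 h10
        _ ≤ ((C + C / q * ℓ + 1) * Lg U ^ 2) * 44 := mul_le_mul_of_nonneg_left h9 h11
        _ = _ := by ring
    refine (add_le_add b1 b2).trans (le_of_eq ?_)
    rw [hD]; ring
  have hfinal : ∀ x : ℝ, |x| ≤ 2 → L.X ⟨1 / 2 + x, U⟩ ≠ 0 ∧ ‖XL (⟨1 / 2 + x, U⟩ : ℂ)‖ ≤ D * Lg U ^ 2 := by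
    intro x hx
    rw [abs_le] at hx
    by_cases h0 : 0 ≤ x
    · exact hright x h0 hx.2
    · push Not at h0
      obtain ⟨h1, h2⟩ := hright (-x) (by linarith) (by linarith)
      have e : 1 - conj (⟨1 / 2 + x, U⟩ : ℂ) = ⟨1 / 2 + -x, U⟩ := by
        rw [mk_one]; congr 1; ring
      refine ⟨fun h => h1 ?_, ?_⟩
      · rw [← e]; exact X_zero h
      · rw [XL_fe, e, norm_neg, RCLike.norm_conj]; exact h2
  intro x hx
  refine ⟨(hfinal x hx).1, (hfinal x hx).2.trans ?_⟩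
  have := mul_le_mul_of_nonneg_left hLsq hD0.le
  linarith

end Pool.Agent.Y23.G
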