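import Pool.Agent.Y23.G.An2
import Pool.Agent.H370R2.Rect

/-! # The sum over the zeros as an integral on a vertical line -/

set_option autoImplicit false
set_option linter.unusedSectionVars false
set_option maxHeartbeats 2000000

open Complex Filter Topology Set MeasureTheory Metric
open scoped ComplexConjugate

namespace Pool.Agent.Y23.G

open Pool.Agent.W169.HF H353.E Pool.Agent.W355.UN Pool.Agent.TH839.NA

lemma line_ct (x : ℝ) : Continuous (fun y : ℝ => (⟨x, y⟩ : ℂ)) := by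
  have : (fun y : ℝ => (⟨x, y⟩ : ℂ)) = fun y : ℝ => (x : ℂ) + y * I := by
    funext v; exact H370.mk_eq _ v
  rw [this]; fun_prop

lemma lin_dec_int {φ : ℝ → ℂ} (hc : Continuous φ) {C : ℝ} (hb : ∀ y, ‖φ y‖ ≤ C * (1 + |y|)) {g : ℝ → ℂ}
    (hg : Continuous g) {M δ : ℝ} (hδ : 0 < δ) (hgb : ∀ y, ‖g y‖ ≤ M * Real.exp (-δ * y ^ 2)) :
    Integrable (fun y => φ y * g y) := by
  have hM : 0 ≤ M := by
    have := (norm_nonneg _).trans (hgb 0)
    simpa using this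
  have hC : 0 ≤ C := by
    have := (norm_nonneg _).trans (hb 0)
    simpa using this
  have i1 : Integrable (fun y : ℝ => Real.exp (-δ * y ^ 2)) := integrable_exp_neg_mul_sq hδ
  have i2 : Integrable (fun y : ℝ => |y| * Real.exp (-δ * y ^ 2)) := by
    have := (integrable_mul_exp_neg_mul_sq hδ).norm
    refine this.congr (Eventually.of_forall fun y => ?_)
    show ‖y * Real.exp (-δ * y ^ 2)‖ = |y| * Real.exp (-δ * y ^ 2)
    rw [norm_mul, Real.norm_eq_abs, Real.norm_eq_abs, abs_of_pos (Real.exp_pos _)]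
  refine ((i1.add i2).const_mul (C * M)).mono' (hc.mul hg).aestronglyMeasurable (Eventually.of_forall fun y => ?_)
  rw [norm_mul]
  calc ‖φ y‖ * ‖g y‖ ≤ (C * (1 + |y|)) * (M * Real.exp (-δ * y ^ 2)) :=
        mul_le_mul (hb y) (hgb y) (norm_nonneg _) (by positivity)
    _ = _ := by simp only [Pi.add_apply]; ring

lemma dec_mul_int {φ : ℝ → ℂ} (hc : Continuous φ) {C : ℝ} (hb : ∀ y, ‖φ y‖ ≤ C * (1 + |y|)) {h : ℂ → ℂ} {M δ : ℝ}
    (hδ : 0 < δ) (hh : Dec h M δ) {σ : ℝ} (hσ : |σ| ≤ 2) : Integrable (fun y => φ y * h ⟨σ, y⟩) :=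
  lin_dec_int hc hb (dec_cont hh σ) hδ fun y => dec_line hh hσ y

lemma sq_exp_tendsto {δ : ℝ} (hδ : 0 < δ) {V : ℕ → ℝ} (hV : Tendsto (fun n => |V n|) atTop atTop) :
    Tendsto (fun n => (1 + V n ^ 2) * Real.exp (-δ * V n ^ 2)) atTop (𝓝 0) := by
  have h1 : Tendsto (fun x : ℝ => (1 + 2 / δ) ^ 2 * (1 / (1 + x ^ 2))) atTop (𝓝 ((1 + 2 / δ) ^ 2 * 0)) := by
    refine Tendsto.const_mul _ ?_
    have h2 : Tendsto (fun x : ℝ => 1 + x ^ 2) atTop atTop :=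
      tendsto_atTop_add_const_left _ _ (tendsto_pow_atTop two_ne_zero)
    refine h2.inv_tendsto_atTop.congr fun x => ?_
    rw [one_div]; rfl
  rw [mul_zero] at h1
  refine squeeze_zero (fun n => by positivity) (fun n => ?_) (h1.comp hV)
  simp only [Function.comp]
  have h3 := exp_neg_le_inv (δ := δ / 2) (x := V n) (by positivity)
  have e : 1 / (δ / 2) = 2 / δ := by field_simp
  rw [e] at h3
  have h4 : Real.exp (-δ * V n ^ 2) = Real.exp (-(δ / 2) * V n ^ 2) ^ 2 := by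
    rw [← Real.exp_nat_mul]; congr 1; push_cast; ring
  rw [h4, sq_abs]
  have hp : 0 < 1 + V n ^ 2 := by positivity
  have h5 : Real.exp (-(δ / 2) * V n ^ 2) ^ 2 ≤ ((1 + 2 / δ) * (1 / (1 + V n ^ 2))) ^ 2 :=
    pow_le_pow_left₀ (Real.exp_pos _).le h3 2
  calc (1 + V n ^ 2) * Real.exp (-(δ / 2) * V n ^ 2) ^ 2 ≤ (1 + V n ^ 2) * ((1 + 2 / δ) * (1 / (1 + V n ^ 2))) ^ 2 :=
        mul_le_mul_of_nonneg_left h5 hp.le
    _ = _ := by field_simp

lemma horiz_zero {φ : ℂ → ℂ} {h : ℂ → ℂ} {M δ C : ℝ} (hδ : 0 < δ) (hM : 0 ≤ M) (hC : 0 ≤ C) (hh : Dec h M δ)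
    {a b : ℝ} (ha : -2 ≤ a) (hb : b ≤ 2) (hab : a ≤ b) {V : ℕ → ℝ} (hV : Tendsto (fun n => |V n|) atTop atTop)
    (hφ : ∀ n, ∀ x : ℝ, a ≤ x → x ≤ b → ‖φ ⟨x, V n⟩‖ ≤ C * (1 + V n ^ 2)) :
    Tendsto (fun n => ∫ x in a..b, φ ⟨x, V n⟩ * h ⟨x, V n⟩) atTop (𝓝 0) := by
  have h1 := (sq_exp_tendsto hδ hV).const_mul (C * M * |b - a|)
  rw [mul_zero] at h1
  refine squeeze_zero_norm (fun n => ?_) h1
  have h2 : ‖∫ x in a..b, φ ⟨x, V n⟩ * h ⟨x, V n⟩‖ ≤ (C * (1 + V n ^ 2) * (M * Real.exp (-δ * V n ^ 2))) * |b - a| := by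
    apply intervalIntegral.norm_integral_le_of_norm_le_const
    intro x hx
    rw [uIoc_of_le hab] at hx
    have hx1 : |x| ≤ 2 := by
      rw [abs_le]; constructor <;> linarith [hx.1, hx.2]
    rw [norm_mul]
    have h3 := dec_line hh hx1 (V n)
    exact mul_le_mul (hφ n x hx.1.le hx.2) h3 (norm_nonneg _) (by positivity)
  refine h2.trans (le_of_eq ?_)
  ring

lemma nat_abs_tendsto : Tendsto (fun n : ℕ => |(n : ℝ)|) atTop atTop :=
  tendsto_abs_atTop_atTop.comp tendsto_natCast_atTop_atTop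

/-- shifting the line of integration -/
lemma dec_shift {g : ℂ → ℂ} {M δ : ℝ} (hδ : 0 < δ) (hM : 0 ≤ M) (hg : Dec g M δ) :
    ∫ y : ℝ, g ⟨2, y⟩ = ∫ y : ℝ, g ⟨0, y⟩ := by
  have hU : Tendsto (fun n : ℕ => (n : ℝ)) atTop atTop := tendsto_natCast_atTop_atTop
  have hU' : Tendsto (fun n : ℕ => -(n : ℝ)) atTop atBot := tendsto_neg_atTop_atBot.comp hU
  have key : ∀ n : ℕ, (∫ x in (0 : ℝ)..2, (1 : ℂ) * g ⟨x, -(n : ℝ)⟩) - (∫ x in (0 : ℝ)..2, (1 : ℂ) * g ⟨x, (n : ℝ)⟩) +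
      I * (∫ y in (-(n : ℝ))..(n : ℝ), g ⟨2, y⟩) - I * (∫ y in (-(n : ℝ))..(n : ℝ), g ⟨0, y⟩) = 0 := by
    intro n
    have h := Complex.integral_boundary_rect_eq_zero_of_differentiableOn g (⟨0, -(n : ℝ)⟩ : ℂ) (⟨2, (n : ℝ)⟩ : ℂ)
      hg.1.differentiableOn
    have hre : ∀ x : ℝ, ∀ y : ℝ, (x : ℂ) + (y : ℂ) * I = ⟨x, y⟩ := fun x y => (H370.mk_eq x y).symm
    simp only [hre, smul_eq_mul] at h
    simpa only [one_mul] using h
  have h1 := horiz_zero (φ := fun _ => 1) (C := 1) hδ hM zero_le_one hg (a := 0) (b := 2) (by norm_num) le_rfl zero_le_two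
    (V := fun n : ℕ => -(n : ℝ)) (by simpa only [abs_neg] using nat_abs_tendsto) (fun n x _ _ => by
      simp only [norm_one, one_mul]
      have := sq_nonneg (-(n : ℝ))
      linarith)
  have h2 := horiz_zero (φ := fun _ => 1) (C := 1) hδ hM zero_le_one hg (a := 0) (b := 2) (by norm_num) le_rfl zero_le_two
    (V := fun n : ℕ => (n : ℝ)) nat_abs_tendsto (fun n x _ _ => by
      simp only [norm_one, one_mul]
      have := sq_nonneg (n : ℝ)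
      linarith)
  have h3 := intervalIntegral_tendsto_integral (dec_int hδ hg (σ := 2) (by norm_num)) hU' hU
  have h4 := intervalIntegral_tendsto_integral (dec_int hδ hg (σ := 0) (by norm_num)) hU' hU
  have h5 := (((h1.sub h2).add (h3.const_mul I)).sub (h4.const_mul I))
  have h6 := tendsto_nhds_unique (h5.congr key) tendsto_const_nhds
  rw [sub_zero, zero_add, ← mul_sub] at h6
  rcases mul_eq_zero.1 h6 with h7 | h7
  · exact absurd h7 I_ne_zero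
  · exact sub_eq_zero.1 h7

/-- the conjugate function -/
noncomputable def hst (h : ℂ → ℂ) (w : ℂ) : ℂ := conj (h (-conj w))

lemma hst_dec {h : ℂ → ℂ} {M δ : ℝ} (hh : Dec h M δ) : Dec (hst h) M δ := by
  refine ⟨fun w => ?_, fun w hw => ?_⟩
  · have h1 : DifferentiableAt ℂ (fun z : ℂ => h (-z)) (conj w) := by
      have := hh.1 (-(conj w))
      exact this.comp (conj w) differentiable_neg.differentiableAt
    have h2 := h1.hasDerivAt.conj_conj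
    rw [Complex.conj_conj] at h2
    exact h2.differentiableAt
  · unfold hst
    rw [RCLike.norm_conj]
    have h1 := hh.2 (-conj w) (by simpa using hw)
    simpa using h1

lemma hst_line (h : ℂ → ℂ) (y : ℝ) : h ⟨-2, y⟩ = conj (hst h ⟨2, y⟩) := by
  unfold hst
  rw [Complex.conj_conj]
  congr 1
  apply Complex.ext <;> simp

variable [L : LFun]

lemma XL_cont (x : ℝ) (hx : 3 / 2 < x) : Continuous (fun y : ℝ => XL (⟨x, y⟩ : ℂ)) := by
  rw [continuous_iff_continuousAt]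
  intro y
  have h1 : ContinuousAt (fun z => deriv L.X z / L.X z) (⟨x, y⟩ : ℂ) :=
    (Xan _).deriv.continuousAt.div (Xan _).continuousAt (X_ne hx)
  exact ContinuousAt.comp (f := fun y : ℝ => (⟨x, y⟩ : ℂ)) (x := y) h1 (line_ct x).continuousAt

lemma Lg_lin (y : ℝ) : Lg y ≤ 3 * (1 + |y|) := by
  unfold Lg
  have := abs_nonneg y
  have h := Real.log_le_sub_one_of_pos (by positivity : 0 < 3 + |y|)
  linarith

lemma XL_line : ∃ C : ℝ, 0 < C ∧ ∀ y : ℝ, ‖XL (⟨5 / 2, y⟩ : ℂ)‖ ≤ C * (1 + |y|) := by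
  obtain ⟨C, hC, h⟩ := XL_bd (L := L)
  refine ⟨3 * C, by linarith, fun y => ?_⟩
  have h1 := h ⟨5 / 2, y⟩ (by norm_num) (by norm_num)
  have h2 := Lg_lin y
  have h3 : C * Lg y ≤ C * (3 * (1 + |y|)) := mul_le_mul_of_nonneg_left h2 (by linarith)
  linarith

/-- the sum over the zeros in a rectangle -/
lemma finsum_X (g : ℂ → ℂ) {U1 U2 : ℝ}
    (hfin : Set.Finite {s : ℂ | s ∈ Set.Ioo (-3 / 2 : ℝ) (5 / 2) ×ℂ Set.Ioo U1 U2 ∧ L.X s = 0}) :
    ∑ᶠ s ∈ {s : ℂ | s ∈ Set.Ioo (-3 / 2 : ℝ) (5 / 2) ×ℂ Set.Ioo U1 U2 ∧ L.X s = 0}, (H370.mult L.X s : ℂ) * g s =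
      ∑' ρ : Zt, if U1 < (ρ : ℂ).im ∧ (ρ : ℂ).im < U2 then (mu ρ : ℂ) * g ρ else 0 := by
  classical
  set A : Set ℂ := {s : ℂ | s ∈ Set.Ioo (-3 / 2 : ℝ) (5 / 2) ×ℂ Set.Ioo U1 U2 ∧ L.X s = 0} with hA
  have e1 : ∑' ρ : Zt, (if U1 < (ρ : ℂ).im ∧ (ρ : ℂ).im < U2 then (mu ρ : ℂ) * g ρ else 0) =
      ∑' s : ℂ, (ZD.Zs : Set ℂ).indicator (fun s => if U1 < s.im ∧ s.im < U2 then (mu s : ℂ) * g s else 0) s :=
    tsum_subtype (ZD.Zs : Set ℂ) (fun s => if U1 < s.im ∧ s.im < U2 then (mu s : ℂ) * g s else 0)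
  have e2 : (fun s : ℂ => (ZD.Zs : Set ℂ).indicator (fun s => if U1 < s.im ∧ s.im < U2 then (mu s : ℂ) * g s else 0) s) =
      A.indicator (fun s => (H370.mult L.X s : ℂ) * g s) := by
    funext s
    by_cases hs : L.X s = 0
    · have hs' : s ∈ (ZD.Zs : Set ℂ) := hs
      rw [indicator_of_mem hs']
      have h1 := abs_le.1 (X_strip hs)
      by_cases hU : U1 < s.im ∧ s.im < U2
      · have hm : s ∈ A := ⟨⟨⟨by linarith, by linarith⟩, hU⟩, hs⟩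
        rw [if_pos hU, indicator_of_mem hm]
        rfl
      · have hm : s ∉ A := fun h => hU h.1.2
        rw [if_neg hU, indicator_of_notMem hm]
    · have hs' : s ∉ (ZD.Zs : Set ℂ) := hs
      have hm : s ∉ A := fun h => hs h.2
      rw [indicator_of_notMem hs', indicator_of_notMem hm]
  rw [e1, e2, finsum_mem_eq_finite_toFinset_sum _ hfin, tsum_eq_sum (s := hfin.toFinset)]
  · refine Finset.sum_congr rfl fun s hs => ?_
    rw [Set.Finite.mem_toFinset] at hs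
    rw [indicator_of_mem hs]
  · intro s hs
    rw [Set.Finite.mem_toFinset] at hs
    rw [indicator_of_notMem hs]

/-- the sum over the zeros -/
lemma zeros_line {h : ℂ → ℂ} {M δ : ℝ} (hδ : 0 < δ) (hM : 0 ≤ M) (hh : Dec h M δ) :
    2 * Real.pi * ∑' ρ : Zt, (mu ρ : ℂ) * h ((ρ : ℂ) - 1 / 2) =
      (∫ y : ℝ, XL ⟨5 / 2, y⟩ * h ⟨2, y⟩) + conj (∫ y : ℝ, XL ⟨5 / 2, y⟩ * hst h ⟨2, y⟩) := by
  obtain ⟨C, hC, hgood⟩ := good_height (L := L)
  choose U hUa hUb hUc using fun n : ℕ => hgood (n : ℝ)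
  choose V hVa hVb hVc using fun n : ℕ => hgood (-(n : ℝ) - 2)
  have hT : Tendsto (fun n : ℕ => (n : ℝ)) atTop atTop := tendsto_natCast_atTop_atTop
  have hU : Tendsto U atTop atTop := tendsto_atTop_mono hUa hT
  have hV : Tendsto V atTop atBot := by
    refine tendsto_atBot_mono (fun n => ?_) (tendsto_neg_atTop_atBot.comp hT)
    simp only [Function.comp]
    linarith [hVb n]
  have hVU : ∀ n, V n < U n := fun n => by
    have : (0 : ℝ) ≤ n := Nat.cast_nonneg n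
    linarith [hUa n, hVb n]
  set H : ℂ → ℂ := fun s => h (s - 1 / 2) with hH
  have hHd : Differentiable ℂ H := hh.1.comp (by fun_prop)
  have hHx : ∀ x y : ℝ, H ⟨x, y⟩ = h ⟨x - 1 / 2, y⟩ := fun x y => by
    simp only [hH]; rw [sub_half]
  have hzero : ∀ n, ∀ s ∈ Set.Icc (-3 / 2 : ℝ) (5 / 2) ×ℂ Set.Icc (V n) (U n), L.X s = 0 →
      s ∈ Set.Ioo (-3 / 2 : ℝ) (5 / 2) ×ℂ Set.Ioo (V n) (U n) := by
    intro n s hs h0
    obtain ⟨h1, h2⟩ := hs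
    rw [mem_preimage] at h1 h2
    have h3 := X_strip h0
    have hx : |s.re - 1 / 2| ≤ 2 := h3.trans (by norm_num)
    rw [abs_le] at h3
    have es : (⟨1 / 2 + (s.re - 1 / 2), s.im⟩ : ℂ) = s := by
      apply Complex.ext <;> simp
    refine ⟨⟨by linarith, by linarith⟩, ⟨?_, ?_⟩⟩
    · refine lt_of_le_of_ne h2.1 fun he => ?_
      apply (hVc n (s.re - 1 / 2) hx).1
      rw [he, es]; exact h0
    · refine lt_of_le_of_ne h2.2 fun he => ?_
      apply (hUc n (s.re - 1 / 2) hx).1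
      rw [← he, es]; exact h0
  have hres := fun n => H370.rect_residue L.X H (-3 / 2) (5 / 2) (V n) (U n) (by norm_num) (hVU n)
    (fun s _ => Xan s) hHd (hzero n)
  have hhor : ∀ W : ℝ, (∫ x in (-3 / 2 : ℝ)..(5 / 2), deriv L.X (⟨x, W⟩ : ℂ) / L.X ⟨x, W⟩ * H ⟨x, W⟩) =
      ∫ x in (-2 : ℝ)..2, (fun w => XL (1 / 2 + w)) ⟨x, W⟩ * h ⟨x, W⟩ := by
    intro W
    have e := intervalIntegral.integral_comp_add_right (a := (-2 : ℝ)) (b := 2)
      (fun x : ℝ => deriv L.X (⟨x, W⟩ : ℂ) / L.X ⟨x, W⟩ * H ⟨x, W⟩) (1 / 2 : ℝ)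
    rw [show (-2 + 1 / 2 : ℝ) = -3 / 2 by norm_num, show (2 + 1 / 2 : ℝ) = 5 / 2 by norm_num] at e
    rw [← e]
    refine intervalIntegral.integral_congr fun x _ => ?_
    have e1 : (1 / 2 + (⟨x, W⟩ : ℂ)) = ⟨x + 1 / 2, W⟩ := by apply Complex.ext <;> simp; ring
    show deriv L.X (⟨x + 1 / 2, W⟩ : ℂ) / L.X ⟨x + 1 / 2, W⟩ * H ⟨x + 1 / 2, W⟩ = XL (1 / 2 + (⟨x, W⟩ : ℂ)) * h ⟨x, W⟩
    rw [hHx, add_sub_cancel_right, e1]
    rfl
  have key : ∀ n, (∫ x in (-2 : ℝ)..2, (fun w => XL (1 / 2 + w)) ⟨x, V n⟩ * h ⟨x, V n⟩) -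
      (∫ x in (-2 : ℝ)..2, (fun w => XL (1 / 2 + w)) ⟨x, U n⟩ * h ⟨x, U n⟩) +
      I * ((∫ y in (V n)..U n, XL ⟨5 / 2, y⟩ * h ⟨2, y⟩) + ∫ y in (V n)..U n, conj (XL ⟨5 / 2, y⟩ * hst h ⟨2, y⟩)) =
      2 * Real.pi * I * ∑' ρ : Zt, if V n < (ρ : ℂ).im ∧ (ρ : ℂ).im < U n then (mu ρ : ℂ) * h ((ρ : ℂ) - 1 / 2) else 0 := by
    intro n
    have hr := (hres n).2
    rw [finsum_X H (hres n).1, hhor, hhor] at hr
    have e1 : (∫ y in (V n)..U n, deriv L.X (⟨-3 / 2, y⟩ : ℂ) / L.X ⟨-3 / 2, y⟩ * H ⟨-3 / 2, y⟩) =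
        -∫ y in (V n)..U n, conj (XL ⟨5 / 2, y⟩ * hst h ⟨2, y⟩) := by
      rw [← intervalIntegral.integral_neg]
      refine intervalIntegral.integral_congr fun y _ => ?_
      have e3 : 1 - conj (⟨-3 / 2, y⟩ : ℂ) = ⟨5 / 2, y⟩ := by rw [mk_one]; congr 1; norm_num
      show XL ⟨-3 / 2, y⟩ * H ⟨-3 / 2, y⟩ = -conj (XL ⟨5 / 2, y⟩ * hst h ⟨2, y⟩)
      rw [XL_fe, e3, hHx, show (-3 / 2 - 1 / 2 : ℝ) = -2 by norm_num, hst_line h y, map_mul]
      ring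
    have e2 : (∫ y in (V n)..U n, deriv L.X (⟨5 / 2, y⟩ : ℂ) / L.X ⟨5 / 2, y⟩ * H ⟨5 / 2, y⟩) =
        ∫ y in (V n)..U n, XL ⟨5 / 2, y⟩ * h ⟨2, y⟩ := by
      refine intervalIntegral.integral_congr fun y _ => ?_
      show XL ⟨5 / 2, y⟩ * H ⟨5 / 2, y⟩ = XL ⟨5 / 2, y⟩ * h ⟨2, y⟩
      rw [hHx, show (5 / 2 - 1 / 2 : ℝ) = 2 by norm_num]
    rw [e1, e2] at hr
    rw [← hr]
    ring
  have hUabs : Tendsto (fun n => |U n|) atTop atTop := tendsto_abs_atTop_atTop.comp hU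
  have hVabs : Tendsto (fun n => |V n|) atTop atTop := tendsto_abs_atBot_atTop.comp hV
  have hb : ∀ W : ℝ, (∀ x : ℝ, |x| ≤ 2 → L.X ⟨1 / 2 + x, W⟩ ≠ 0 ∧ ‖XL (⟨1 / 2 + x, W⟩ : ℂ)‖ ≤ C * (1 + W ^ 2)) →
      ∀ x : ℝ, -2 ≤ x → x ≤ 2 → ‖(fun w => XL (1 / 2 + w)) ⟨x, W⟩‖ ≤ C * (1 + W ^ 2) := by
    intro W hW x hx1 hx2
    have hx : |x| ≤ 2 := abs_le.2 ⟨hx1, hx2⟩
    have e1 : (1 / 2 + (⟨x, W⟩ : ℂ)) = ⟨1 / 2 + x, W⟩ := by apply Complex.ext <;> simp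
    show ‖XL (1 / 2 + (⟨x, W⟩ : ℂ))‖ ≤ _
    rw [e1]
    exact (hW x hx).2
  have h1 := horiz_zero (φ := fun w => XL (1 / 2 + w)) hδ hM hC.le hh (a := -2) (b := 2) le_rfl le_rfl (by norm_num)
    hVabs (fun n => hb _ (hVc n))
  have h2 := horiz_zero (φ := fun w => XL (1 / 2 + w)) hδ hM hC.le hh (a := -2) (b := 2) le_rfl le_rfl (by norm_num)
    hUabs (fun n => hb _ (hUc n))
  obtain ⟨C1, hC1, hXb⟩ := XL_line (L := L)
  have hXc := XL_cont (L := L) (5 / 2) (by norm_num)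
  have hint : Integrable (fun y : ℝ => XL ⟨5 / 2, y⟩ * h ⟨2, y⟩) := dec_mul_int hXc hXb hδ hh (by norm_num)
  have hint2 : Integrable (fun y : ℝ => XL ⟨5 / 2, y⟩ * hst h ⟨2, y⟩) := dec_mul_int hXc hXb hδ (hst_dec hh) (by norm_num)
  have hint3 : Integrable (fun y : ℝ => conj (XL ⟨5 / 2, y⟩ * hst h ⟨2, y⟩)) := by
    refine hint2.norm.mono' ?_ (Eventually.of_forall fun y => ?_)
    · exact (Complex.continuous_conj.comp (hXc.mul (dec_cont (hst_dec hh) 2))).aestronglyMeasurable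
    · rw [RCLike.norm_conj]
  have h3 := intervalIntegral_tendsto_integral hint hV hU
  have h3' := intervalIntegral_tendsto_integral hint3 hV hU
  have h4 : Tendsto (fun n => ∑' ρ : Zt, if V n < (ρ : ℂ).im ∧ (ρ : ℂ).im < U n then (mu ρ : ℂ) * h ((ρ : ℂ) - 1 / 2) else 0) atTop
      (𝓝 (∑' ρ : Zt, (mu ρ : ℂ) * h ((ρ : ℂ) - 1 / 2))) := by
    refine tendsto_tsum_of_dominated_convergence (dec_summable hδ hM hh) ?_ ?_
    · intro ρ
      refine tendsto_const_nhds.congr' ?_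
      filter_upwards [hU.eventually_gt_atTop (ρ : ℂ).im, hV.eventually_lt_atBot (ρ : ℂ).im] with n hn hn'
      rw [if_pos ⟨hn', hn⟩]
    · refine Eventually.of_forall fun n ρ => ?_
      split_ifs
      · exact le_rfl
      · rw [norm_zero]; exact norm_nonneg _
  have h5 := (h1.sub h2).add ((h3.add h3').const_mul I)
  have h6 := h4.const_mul (2 * Real.pi * I)
  have h7 := tendsto_nhds_unique (h5.congr key) h6
  rw [sub_zero, zero_add] at h7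
  rw [← integral_conj]
  apply mul_left_cancel₀ I_ne_zero
  rw [h7]
  ring

end Pool.Agent.Y23.G
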