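import Pool.Agent.Y23.G.An3

/-! # The archimedean factor and the poles -/

set_option autoImplicit false
set_option linter.unusedSectionVars false
set_option maxHeartbeats 2000000

open Complex Filter Topology Set MeasureTheory Metric
open scoped ComplexConjugate

namespace Pool.Agent.Y23.G

open Pool.Agent.W169.HF H353.E Pool.Agent.W355.UN Pool.Agent.TH839.NA

/-- a shift of the line of integration -/
lemma shift_mul {φ h : ℂ → ℂ} {M δ C : ℝ} (hδ : 0 < δ) (hM : 0 ≤ M) (hC : 0 ≤ C) (hh : Dec h M δ)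
    (hφd : ∀ w : ℂ, 0 ≤ w.re → w.re ≤ 2 → DifferentiableAt ℂ φ w)
    (hφb : ∀ w : ℂ, 0 ≤ w.re → w.re ≤ 2 → ‖φ w‖ ≤ C * (1 + |w.im|)) :
    ∫ y : ℝ, φ ⟨2, y⟩ * h ⟨2, y⟩ = ∫ y : ℝ, φ ⟨0, y⟩ * h ⟨0, y⟩ := by
  have hU : Tendsto (fun n : ℕ => (n : ℝ)) atTop atTop := tendsto_natCast_atTop_atTop
  have hU' : Tendsto (fun n : ℕ => -(n : ℝ)) atTop atBot := tendsto_neg_atTop_atBot.comp hU
  have key : ∀ n : ℕ, (∫ x in (0 : ℝ)..2, φ ⟨x, -(n : ℝ)⟩ * h ⟨x, -(n : ℝ)⟩) - (∫ x in (0 : ℝ)..2, φ ⟨x, (n : ℝ)⟩ * h ⟨x, (n : ℝ)⟩) +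
      I * (∫ y in (-(n : ℝ))..(n : ℝ), φ ⟨2, y⟩ * h ⟨2, y⟩) - I * (∫ y in (-(n : ℝ))..(n : ℝ), φ ⟨0, y⟩ * h ⟨0, y⟩) = 0 := by
    intro n
    have hd := Complex.integral_boundary_rect_eq_zero_of_differentiableOn (fun w => φ w * h w) (⟨0, -(n : ℝ)⟩ : ℂ)
      (⟨2, (n : ℝ)⟩ : ℂ) (by
        intro w hw
        have h1 := hw.1
        rw [mem_preimage] at h1
        simp only at h1
        rw [uIcc_of_le (by norm_num)] at h1
        exact ((hφd w h1.1 h1.2).mul (hh.1 w)).differentiableWithinAt)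
    have hre : ∀ x : ℝ, ∀ y : ℝ, (x : ℂ) + (y : ℂ) * I = ⟨x, y⟩ := fun x y => (H370.mk_eq x y).symm
    simp only [hre, smul_eq_mul] at hd
    exact hd
  have hb : ∀ V : ℝ, ∀ x : ℝ, 0 ≤ x → x ≤ 2 → ‖φ ⟨x, V⟩‖ ≤ (2 * C) * (1 + V ^ 2) := by
    intro V x hx1 hx2
    refine (hφb ⟨x, V⟩ hx1 hx2).trans ?_
    show C * (1 + |V|) ≤ _
    have h1 : 1 + |V| ≤ 2 * (1 + V ^ 2) := by
      rw [← sq_abs]
      nlinarith [sq_nonneg (|V| - 1), abs_nonneg V]
    nlinarith
  have h1 := horiz_zero (φ := φ) hδ hM (by positivity : 0 ≤ 2 * C) hh (a := 0) (b := 2) (by norm_num) le_rfl zero_le_two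
    (V := fun n : ℕ => -(n : ℝ)) (by simpa only [abs_neg] using nat_abs_tendsto) (fun n => hb _)
  have h2 := horiz_zero (φ := φ) hδ hM (by positivity : 0 ≤ 2 * C) hh (a := 0) (b := 2) (by norm_num) le_rfl zero_le_two
    (V := fun n : ℕ => (n : ℝ)) nat_abs_tendsto (fun n => hb _)
  have hc : ∀ x : ℝ, 0 ≤ x → x ≤ 2 → Continuous (fun y : ℝ => φ ⟨x, y⟩) := by
    intro x h1 h2
    rw [continuous_iff_continuousAt]
    intro y
    exact ContinuousAt.comp (f := fun y : ℝ => (⟨x, y⟩ : ℂ)) (x := y) (hφd ⟨x, y⟩ h1 h2).continuousAt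
      (line_ct x).continuousAt
  have h3 := intervalIntegral_tendsto_integral (dec_mul_int (hc 2 zero_le_two le_rfl)
    (fun y => hφb ⟨2, y⟩ zero_le_two le_rfl) hδ hh (σ := 2) (by norm_num)) hU' hU
  have h4 := intervalIntegral_tendsto_integral (dec_mul_int (hc 0 le_rfl zero_le_two)
    (fun y => hφb ⟨0, y⟩ le_rfl zero_le_two) hδ hh (σ := 0) (by norm_num)) hU' hU
  have h5 := (((h1.sub h2).add (h3.const_mul I)).sub (h4.const_mul I))
  have h6 := tendsto_nhds_unique (h5.congr key) tendsto_const_nhds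
  rw [sub_zero, zero_add, ← mul_sub] at h6
  rcases mul_eq_zero.1 h6 with h7 | h7
  · exact absurd h7 I_ne_zero
  · exact sub_eq_zero.1 h7

lemma mult_lin : H370.mult (fun w : ℂ => w - 1 / 2) (1 / 2) = 1 := by
  unfold H370.mult analyticOrderNatAt
  have h : analyticOrderAt (fun w : ℂ => w - 1 / 2) (1 / 2) = 1 := by
    have h0 : AnalyticAt ℂ (fun w : ℂ => w - 1 / 2) (1 / 2) := by fun_prop
    rw [show (1 : ℕ∞) = ((1 : ℕ) : ℕ∞) by rfl, h0.analyticOrderAt_eq_natCast]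
    exact ⟨fun _ => 1, analyticAt_const, one_ne_zero, Eventually.of_forall fun z => by simp⟩
  rw [h]
  rfl

/-- the residue of the pole -/
lemma pole_shift {h : ℂ → ℂ} {M δ : ℝ} (hδ : 0 < δ) (hM : 0 ≤ M) (hh : Dec h M δ) :
    ∫ y : ℝ, 1 / (⟨2, y⟩ - 1 / 2) * h ⟨2, y⟩ = 2 * Real.pi * h (1 / 2) + ∫ y : ℝ, 1 / (⟨0, y⟩ - 1 / 2) * h ⟨0, y⟩ := by
  set U : ℕ → ℝ := fun n => (n : ℝ) + 1 with hUd
  have hU1 : ∀ n, 1 ≤ U n := fun n => by
    have : (0 : ℝ) ≤ n := Nat.cast_nonneg n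
    simp only [hUd]; linarith
  have hU : Tendsto U atTop atTop := tendsto_atTop_add_const_right _ _ tendsto_natCast_atTop_atTop
  have hU' : Tendsto (fun n => -U n) atTop atBot := tendsto_neg_atTop_atBot.comp hU
  have hUabs : Tendsto (fun n => |U n|) atTop atTop := tendsto_abs_atTop_atTop.comp hU
  set F : ℂ → ℂ := fun w => w - 1 / 2 with hF
  have hz : ∀ n, ∀ s ∈ Set.Icc (0 : ℝ) 2 ×ℂ Set.Icc (-U n) (U n), F s = 0 → s = 1 / 2 := by
    intro n s _ h0
    exact sub_eq_zero.1 h0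
  have hmem : ∀ n, (1 / 2 : ℂ) ∈ Set.Ioo (0 : ℝ) 2 ×ℂ Set.Ioo (-U n) (U n) := by
    intro n
    refine ⟨?_, ?_⟩
    · rw [mem_preimage]; norm_num
    · rw [mem_preimage]
      have : (1 / 2 : ℂ).im = 0 := by norm_num
      rw [this]
      exact ⟨by linarith [hU1 n], by linarith [hU1 n]⟩
  have hres := fun n => (H370.rect_residue F h 0 2 (-U n) (U n) (by norm_num) (by linarith [hU1 n])
    (fun s _ => by simp only [hF]; fun_prop) hh.1 (fun s hs h0 => by rw [hz n s hs h0]; exact hmem n)).2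
  have hset : ∀ n, {s : ℂ | s ∈ Set.Ioo (0 : ℝ) 2 ×ℂ Set.Ioo (-U n) (U n) ∧ F s = 0} = {1 / 2} := by
    intro n
    ext s
    constructor
    · rintro ⟨h1, h2⟩
      exact hz n s ⟨Ioo_subset_Icc_self h1.1, Ioo_subset_Icc_self h1.2⟩ h2
    · intro h
      rw [mem_singleton_iff] at h
      rw [h]
      exact ⟨hmem n, by simp [hF]⟩
  have hdF : ∀ w : ℂ, deriv F w / F w = 1 / (w - 1 / 2) := by
    intro w
    have : deriv F w = 1 := by
      simp only [hF]
      rw [deriv_sub_const]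
      simp
    rw [this]
  have key : ∀ n, (∫ x in (0 : ℝ)..2, (fun w : ℂ => 1 / (w - 1 / 2)) ⟨x, -U n⟩ * h ⟨x, -U n⟩) -
      (∫ x in (0 : ℝ)..2, (fun w : ℂ => 1 / (w - 1 / 2)) ⟨x, U n⟩ * h ⟨x, U n⟩) +
      I * (∫ y in (-U n)..U n, 1 / (⟨2, y⟩ - 1 / 2) * h ⟨2, y⟩) - I * (∫ y in (-U n)..U n, 1 / (⟨0, y⟩ - 1 / 2) * h ⟨0, y⟩) =
      2 * Real.pi * I * h (1 / 2) := by
    intro n
    have hr := hres n
    rw [hset n, finsum_mem_singleton, mult_lin, Nat.cast_one, one_mul] at hr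
    simp only [hdF] at hr
    exact hr
  have hb : ∀ (V : ℝ), 1 ≤ |V| → ∀ x : ℝ, 0 ≤ x → x ≤ 2 → ‖(fun w : ℂ => 1 / (w - 1 / 2)) ⟨x, V⟩‖ ≤ 1 * (1 + V ^ 2) := by
    intro V hV x _ _
    show ‖1 / ((⟨x, V⟩ : ℂ) - 1 / 2)‖ ≤ _
    rw [norm_div, norm_one]
    have h1 : 1 ≤ ‖(⟨x, V⟩ : ℂ) - 1 / 2‖ := by
      refine hV.trans ?_
      have := Complex.abs_im_le_norm ((⟨x, V⟩ : ℂ) - 1 / 2)
      simpa using this
    have h2 : 1 / ‖(⟨x, V⟩ : ℂ) - 1 / 2‖ ≤ 1 := by
      rw [div_le_one (by linarith)]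
      exact h1
    have := sq_nonneg V
    linarith
  have hUa : ∀ n, 1 ≤ |U n| := fun n => by rw [abs_of_pos (by linarith [hU1 n])]; exact hU1 n
  have h1 := horiz_zero (φ := fun w : ℂ => 1 / (w - 1 / 2)) (V := fun n => -U n) hδ hM zero_le_one hh (a := 0) (b := 2)
    (by norm_num) le_rfl zero_le_two (by simpa only [abs_neg] using hUabs) (fun n => hb _ (by rw [abs_neg]; exact hUa n))
  have h2 := horiz_zero (φ := fun w : ℂ => 1 / (w - 1 / 2)) (V := fun n => U n) hδ hM zero_le_one hh (a := 0) (b := 2)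
    (by norm_num) le_rfl zero_le_two hUabs (fun n => hb _ (hUa n))
  have hc : ∀ x : ℝ, x ≠ 1 / 2 → Continuous (fun y : ℝ => 1 / ((⟨x, y⟩ : ℂ) - 1 / 2)) := by
    intro x hx
    refine continuous_const.div ((line_ct x).sub continuous_const) fun y h => hx ?_
    have := congrArg Complex.re h
    rw [sub_half] at this
    have h3 : x - 1 / 2 = 0 := this
    linarith
  have hbl : ∀ x : ℝ, 1 / 2 ≤ |x - 1 / 2| → ∀ y : ℝ, ‖1 / ((⟨x, y⟩ : ℂ) - 1 / 2)‖ ≤ 2 * (1 + |y|) := by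
    intro x hx y
    rw [norm_div, norm_one]
    have h3 : 1 / 2 ≤ ‖(⟨x, y⟩ : ℂ) - 1 / 2‖ := by
      refine hx.trans ?_
      have := Complex.abs_re_le_norm ((⟨x, y⟩ : ℂ) - 1 / 2)
      rw [sub_half] at this ⊢
      exact this
    have h4 : 1 / ‖(⟨x, y⟩ : ℂ) - 1 / 2‖ ≤ 2 := by
      rw [div_le_iff₀ (by linarith)]
      linarith
    have := abs_nonneg y
    linarith
  have h3 := intervalIntegral_tendsto_integral (dec_mul_int (hc 2 (by norm_num)) (hbl 2 (by norm_num)) hδ hh (σ := 2) (by norm_num)) hU' hU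
  have h4 := intervalIntegral_tendsto_integral (dec_mul_int (hc 0 (by norm_num)) (hbl 0 (by norm_num)) hδ hh (σ := 0) (by norm_num)) hU' hU
  have h5 := ((h1.sub h2).add (h3.const_mul I)).sub (h4.const_mul I)
  have h6 := tendsto_nhds_unique (h5.congr key) tendsto_const_nhds
  rw [sub_zero, zero_add] at h6
  apply mul_left_cancel₀ I_ne_zero
  linear_combination h6

variable [L : LFun]

/-- the logarithmic derivative of the gamma factor -/
noncomputable def GA (s : ℂ) : ℂ := gaD L.N (fun j => -L.a j) s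

lemma dig_bd {η : ℝ} (hη : 0 < η) {z : ℂ} (hz : η ≤ z.re) : ‖logDeriv Gamma z - log (z + 2)‖ ≤ 1 / η + 3 := by
  have hσ : 0 < z.re := by linarith
  have e : logDeriv Gamma z - log (z + 2) = -(1 / z) - 1 / (z + 1) + ∑' n, H370.DG.er n z := by
    rw [H370.DG.logDeriv_Gamma' hσ]
    ring
  have b1 : ‖1 / z‖ ≤ 1 / η := by
    rw [norm_div, norm_one]
    exact one_div_le_one_div_of_le hη (hz.trans (re_le_norm z))
  have b2 : ‖1 / (z + 1)‖ ≤ 1 := by
    have h := re_le_norm (z + 1)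
    simp only [add_re, one_re] at h
    rw [norm_div, norm_one, div_le_iff₀ (by linarith)]
    linarith
  have b3 := (H370.DG.norm_tsum_er hσ).trans Z2_le
  rw [e]
  calc _ ≤ ‖-(1 / z) - 1 / (z + 1)‖ + ‖∑' n, H370.DG.er n z‖ := norm_add_le _ _
    _ ≤ (‖-(1 / z)‖ + ‖1 / (z + 1)‖) + ‖∑' n, H370.DG.er n z‖ := by
        gcongr
        exact norm_sub_le _ _
    _ ≤ (1 / η + 1) + 2 := by
        rw [norm_neg]
        gcongr
    _ = _ := by ring

lemma exists_eta : ∃ η : ℝ, 0 < η ∧ ∀ j, η ≤ (1 / 2 + (L.a j).re) / 2 := by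
  have hm : 0 < L.m := L.raw.hm
  obtain ⟨j0, _, hj0⟩ := Finset.exists_min_image (Finset.univ : Finset (Fin L.m)) (fun j => (L.a j).re)
    ⟨⟨0, hm⟩, Finset.mem_univ _⟩
  refine ⟨(1 / 2 + (L.a j0).re) / 2, by linarith [L.str j0], fun j => ?_⟩
  linarith [hj0 j (Finset.mem_univ j)]

/-- bounds for the gamma factor -/
lemma GA_bd : ∃ C : ℝ, 0 < C ∧ ∀ s : ℂ, 1 / 2 ≤ s.re → s.re ≤ 3 →
    ‖GA s‖ ≤ C * Lg s.im ∧ Lg s.im - C ≤ 2 * (GA s).re := by
  obtain ⟨η, hη, hj⟩ := exists_eta (L := L)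
  set K : Fin L.m → ℝ := fun j => 1 / η + 3 + 4 + Real.log (5 + ‖L.a j‖) + |Real.log Real.pi| with hK
  have hKj : ∀ j, 0 ≤ K j := fun j => by
    have : 0 ≤ Real.log (5 + ‖L.a j‖) := Real.log_nonneg (by linarith [norm_nonneg (L.a j)])
    have := abs_nonneg (Real.log Real.pi)
    simp only [hK]; positivity
  have hKs : 0 ≤ ∑ j, K j := Finset.sum_nonneg fun j _ => hKj j
  have hm : (1 : ℝ) ≤ L.m := by exact_mod_cast L.raw.hm
  have hN := Real.log_nonneg L.raw.hN
  refine ⟨Real.log L.N + ∑ j, K j + L.m, by linarith, fun s h1 h2 => ?_⟩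
  have hL := one_le_Lg s.im
  have hz : ∀ j, η ≤ ((s - -L.a j) / 2).re := fun j => by
    have e : ((s - -L.a j) / 2).re = (s.re + (L.a j).re) / 2 := by
      rw [show (2 : ℂ) = ((2 : ℝ) : ℂ) by norm_num, Complex.div_ofReal_re]
      simp
    rw [e]
    linarith [hj j]
  have hre : ∀ j, ((s - -L.a j) / 2).re = (s.re + (L.a j).re) / 2 := fun j => by
    rw [show (2 : ℂ) = ((2 : ℝ) : ℂ) by norm_num, Complex.div_ofReal_re]
    simp
  have him : ∀ j, ((s - -L.a j) / 2).im = (s.im + (L.a j).im) / 2 := fun j => by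
    rw [show (2 : ℂ) = ((2 : ℝ) : ℂ) by norm_num, Complex.div_ofReal_im]
    simp
  have hn2 : ∀ j, 1 ≤ ‖(s - -L.a j) / 2 + 2‖ := fun j => by
    have h3 := re_le_norm ((s - -L.a j) / 2 + 2)
    rw [add_re, re_ofNat] at h3
    linarith [hz j]
  have hup : ∀ j, Real.log ‖(s - -L.a j) / 2 + 2‖ ≤ Real.log (5 + ‖L.a j‖) + Lg s.im := fun j => by
    have h3 := Complex.norm_le_abs_re_add_abs_im ((s - -L.a j) / 2 + 2)
    have h4 : |((s - -L.a j) / 2 + 2).re| ≤ 4 + ‖L.a j‖ := by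
      rw [add_re, re_ofNat, hre, abs_of_nonneg (by linarith [hz j, hre j])]
      have := (le_abs_self _).trans (Complex.abs_re_le_norm (L.a j))
      have := norm_nonneg (L.a j)
      linarith
    have h5 : |((s - -L.a j) / 2 + 2).im| ≤ |s.im| + ‖L.a j‖ := by
      have e : ((s - -L.a j) / 2 + 2).im = (s.im + (L.a j).im) / 2 := by
        rw [add_im, him]; simp
      rw [e, abs_div, abs_two]
      have := abs_add_le s.im (L.a j).im
      have := Complex.abs_im_le_norm (L.a j)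
      have := abs_nonneg s.im
      have := norm_nonneg (L.a j)
      linarith
    have h6 : ‖(s - -L.a j) / 2 + 2‖ ≤ (5 + ‖L.a j‖) * (3 + |s.im|) := by
      have := abs_nonneg s.im
      have := norm_nonneg (L.a j)
      nlinarith
    have h7 := Real.log_le_log (by linarith [hn2 j]) h6
    rw [Real.log_mul (by positivity) (by positivity)] at h7
    exact h7
  have hlo : ∀ j, Lg s.im - Real.log (5 + ‖L.a j‖) ≤ Real.log ‖(s - -L.a j) / 2 + 2‖ := fun j => by
    have h3 : 3 + |s.im| ≤ (5 + ‖L.a j‖) * ‖(s - -L.a j) / 2 + 2‖ := by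
      have h4 := Complex.abs_im_le_norm ((s - -L.a j) / 2 + 2)
      have e : ((s - -L.a j) / 2 + 2).im = (s.im + (L.a j).im) / 2 := by
        rw [add_im, him]; simp
      rw [e, abs_div, abs_two] at h4
      have h5 : |s.im| ≤ |s.im + (L.a j).im| + ‖L.a j‖ := by
        have h6 := abs_add_le (s.im + (L.a j).im) (-(L.a j).im)
        rw [add_neg_cancel_right, abs_neg] at h6
        have := Complex.abs_im_le_norm (L.a j)
        linarith
      have := norm_nonneg (L.a j)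
      nlinarith [hn2 j]
    have h7 := Real.log_le_log (by positivity) h3
    rw [Real.log_mul (by positivity) (by linarith [hn2 j])] at h7
    unfold Lg
    linarith
  have hdig := fun j => dig_bd hη (hz j)
  constructor
  · unfold GA gaD
    have t1 : ‖((Real.log L.N / 2 : ℝ) : ℂ)‖ ≤ Real.log L.N := by
      rw [Complex.norm_real, Real.norm_eq_abs, abs_of_nonneg (by linarith)]
      linarith
    have t2 : ∀ j, ‖((-(Real.log Real.pi) / 2 : ℝ) : ℂ) + logDeriv Gamma ((s - -L.a j) / 2) / 2‖ ≤ K j + Lg s.im := by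
      intro j
      have h3 : ‖logDeriv Gamma ((s - -L.a j) / 2)‖ ≤ 1 / η + 3 + (Real.log (5 + ‖L.a j‖) + Lg s.im + 4) := by
        have e : logDeriv Gamma ((s - -L.a j) / 2) = (logDeriv Gamma ((s - -L.a j) / 2) - log ((s - -L.a j) / 2 + 2)) +
          log ((s - -L.a j) / 2 + 2) := by ring
        rw [e]
        refine (norm_add_le _ _).trans (add_le_add (hdig j) ?_)
        refine (Complex.norm_le_abs_re_add_abs_im _).trans ?_
        rw [Complex.log_re, Complex.log_im, abs_of_nonneg (Real.log_nonneg (hn2 j))]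
        have := Complex.abs_arg_le_pi ((s - -L.a j) / 2 + 2)
        have := Real.pi_le_four
        linarith [hup j]
      have h4 : ‖((-(Real.log Real.pi) / 2 : ℝ) : ℂ)‖ ≤ |Real.log Real.pi| := by
        rw [Complex.norm_real, Real.norm_eq_abs, abs_div, abs_neg, abs_two]
        have := abs_nonneg (Real.log Real.pi)
        linarith
      refine (norm_add_le _ _).trans ?_
      rw [norm_div, Complex.norm_ofNat]
      have h5 := norm_nonneg (logDeriv Gamma ((s - -L.a j) / 2))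
      simp only [hK]
      linarith
    refine (norm_add_le _ _).trans ((add_le_add t1 (norm_sum_le_of_le _ fun j _ => t2 j)).trans ?_)
    rw [Finset.sum_add_distrib, Finset.sum_const, Finset.card_univ, Fintype.card_fin, nsmul_eq_mul]
    nlinarith
  · have e : 2 * (GA s).re = Real.log L.N + ∑ j, (-(Real.log Real.pi) + (logDeriv Gamma ((s - -L.a j) / 2)).re) := by
      unfold GA gaD
      rw [add_re, Complex.ofReal_re, Complex.re_sum, mul_add, Finset.mul_sum]
      congr 1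
      · ring
      · refine Finset.sum_congr rfl fun j _ => ?_
        rw [add_re, Complex.ofReal_re, show (2 : ℂ) = ((2 : ℝ) : ℂ) by norm_num, Complex.div_ofReal_re]
        ring
    rw [e]
    have t2 : ∀ j, Lg s.im - K j ≤ -(Real.log Real.pi) + (logDeriv Gamma ((s - -L.a j) / 2)).re := by
      intro j
      have h3 := (Complex.abs_re_le_norm _).trans (hdig j)
      rw [sub_re, Complex.log_re] at h3
      have h4 := (abs_le.1 h3).1
      have h5 := hlo j
      have h6 := le_abs_self (Real.log Real.pi)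
      simp only [hK]
      linarith
    have t3 := Finset.sum_le_sum fun j (_ : j ∈ Finset.univ) => t2 j
    rw [Finset.sum_sub_distrib, Finset.sum_const, Finset.card_univ, Fintype.card_fin, nsmul_eq_mul] at t3
    nlinarith

lemma GA_diff {s : ℂ} (hs : 1 / 2 ≤ s.re) : DifferentiableAt ℂ GA s := by
  unfold GA gaD
  refine DifferentiableAt.const_add _ (DifferentiableAt.fun_sum fun j _ => ?_)
  refine DifferentiableAt.const_add _ (DifferentiableAt.div_const ?_ _)
  have hre : 0 < ((s - -L.a j) / 2).re := by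
    rw [show (2 : ℂ) = ((2 : ℝ) : ℂ) by norm_num, Complex.div_ofReal_re]
    simp
    linarith [L.str j]
  have h1 : DifferentiableAt ℂ (logDeriv Gamma) ((s - -L.a j) / 2) := by
    have hopen : IsOpen {z : ℂ | 0 < z.re} := isOpen_lt continuous_const Complex.continuous_re
    have han : AnalyticAt ℂ Gamma ((s - -L.a j) / 2) := by
      refine DifferentiableOn.analyticAt (s := {z : ℂ | 0 < z.re}) (fun z hz => ?_) (hopen.mem_nhds hre)
      refine (differentiableAt_Gamma z fun k hk => ?_).differentiableWithinAt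
      have hz' : 0 < z.re := hz
      rw [hk] at hz'
      simp at hz'
      have : (0 : ℝ) ≤ k := Nat.cast_nonneg k
      linarith
    have h2 := han.deriv.differentiableAt.div han.differentiableAt (Gamma_ne_zero_of_re_pos hre)
    exact h2
  exact DifferentiableAt.comp (f := fun s : ℂ => (s - -L.a j) / 2) s h1 (by fun_prop)

end Pool.Agent.Y23.G
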