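import Pool.Agent.Y23.G.An4

/-! # The prime part and the explicit formula -/

set_option autoImplicit false
set_option linter.unusedSectionVars false
set_option maxHeartbeats 2000000

open Complex Filter Topology Set MeasureTheory Metric
open scoped ComplexConjugate

namespace Pool.Agent.Y23.G

open Pool.Agent.W169.HF H353.E Pool.Agent.W355.UN Pool.Agent.TH839.NA

variable [L : LFun]

/-- the coefficients -/
noncomputable def aL (n : ℕ) : ℂ := ((ArithmeticFunction.vonMangoldt n : ℝ) : ℂ) * (L.c n * pw (-(1 / 2)) n)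

lemma aL_zero : aL 0 = 0 := by unfold aL; simp

lemma aL_norm (n : ℕ) : ‖aL n‖ ≤ L.m * ArithmeticFunction.vonMangoldt n := by
  unfold aL
  have h1 := cb_tw L.raw.cb n
  rw [norm_mul, Complex.norm_real, Real.norm_eq_abs, abs_of_nonneg ArithmeticFunction.vonMangoldt_nonneg, mul_comm]
  exact mul_le_mul_of_nonneg_right h1 ArithmeticFunction.vonMangoldt_nonneg

lemma lam_sum : Summable (fun n : ℕ => ArithmeticFunction.vonMangoldt n * (n : ℝ) ^ (-(2 : ℝ))) := by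
  have h := ArithmeticFunction.LSeriesSummable_vonMangoldt (s := (2 : ℂ)) (by norm_num)
  have h2 := h.norm
  refine h2.congr (fun n => ?_)
  rw [LSeries.norm_term_eq]
  split_ifs with h0
  · subst h0; simp
  · rw [Real.rpow_neg (by positivity), div_eq_mul_inv]
    congr 1
    simp [abs_of_nonneg ArithmeticFunction.vonMangoldt_nonneg]

/-- the Dirichlet series on the line `Re s = 5/2` -/
noncomputable def DL (y : ℝ) : ℂ := ∑' n : ℕ, aL n * (n : ℂ) ^ (-(⟨2, y⟩ : ℂ))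

/-- its bound -/
noncomputable def DB : ℝ := ∑' n : ℕ, ArithmeticFunction.vonMangoldt n * (n : ℝ) ^ (-(2 : ℝ))

lemma DB_nonneg : 0 ≤ DB := tsum_nonneg fun n =>
  mul_nonneg ArithmeticFunction.vonMangoldt_nonneg (by positivity)

lemma norm_np (n : ℕ) (v : ℝ) :
    ‖aL n * (n : ℂ) ^ (-(⟨2, v⟩ : ℂ))‖ ≤ L.m * (ArithmeticFunction.vonMangoldt n * (n : ℝ) ^ (-(2 : ℝ))) := by
  rcases Nat.eq_zero_or_pos n with h | h
  · subst h
    rw [aL_zero]; simp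
  · rw [norm_mul, Complex.norm_natCast_cpow_of_pos h, ← mul_assoc]
    apply mul_le_mul (aL_norm n) (le_of_eq _) (by positivity) (mul_nonneg (Nat.cast_nonneg _) ArithmeticFunction.vonMangoldt_nonneg)
    simp

lemma DL_norm (y : ℝ) : ‖DL y‖ ≤ L.m * DB := by
  unfold DL DB
  rw [← tsum_mul_left]
  exact tsum_of_norm_bounded (lam_sum.mul_left _).hasSum fun n => norm_np n y

lemma DL_cont : Continuous (DL (L := L)) := by
  unfold DL
  apply continuous_tsum _ (lam_sum.mul_left (L.m : ℝ)) (fun n v => norm_np n v)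
  intro n
  rcases Nat.eq_zero_or_pos n with h | h
  · subst h
    simp only [aL_zero, zero_mul]
    exact continuous_const
  · have : (fun v : ℝ => aL n * (n : ℂ) ^ (-(⟨2, v⟩ : ℂ))) =
        fun v : ℝ => aL n * cexp (-((Real.log n : ℝ) : ℂ) * ((2 : ℝ) + v * I)) := by
      funext v
      rw [show (n : ℂ) ^ (-(⟨2, v⟩ : ℂ)) = cexp (-((Real.log n : ℝ) : ℂ) * (⟨2, v⟩ : ℂ)) by
        rw [Complex.cpow_def_of_ne_zero (by exact_mod_cast h.ne'), ← Complex.natCast_log]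
        congr 1; ring, H370.mk_eq]
    rw [this]
    fun_prop

/-- the part of the logarithmic derivative without the pole and the primes -/
noncomputable def ph1 (w : ℂ) : ℂ := GA (1 / 2 + w) + L.r * (1 / (1 / 2 + w))

lemma XL_eq (y : ℝ) : XL ⟨5 / 2, y⟩ = ph1 ⟨2, y⟩ + L.r * (1 / (⟨2, y⟩ - 1 / 2)) - DL y := by
  set s : ℂ := ⟨5 / 2, y⟩ with hs
  have hsre : s.re = 5 / 2 := rfl
  have e0 : (1 / 2 : ℂ) + ⟨2, y⟩ = s := by rw [hs]; apply Complex.ext <;> simp; norm_num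
  have e1 : (⟨2, y⟩ : ℂ) - 1 / 2 = s - 1 := by rw [hs]; apply Complex.ext <;> simp; norm_num
  have hs0 : s ≠ 0 := fun h => by rw [h] at hsre; norm_num at hsre
  have hs1 : s - 1 ≠ 0 := fun h => by
    rw [sub_eq_zero] at h
    rw [h] at hsre; norm_num at hsre
  have hco := L.raw.coef (s := s) (by rw [hsre]; norm_num)
  have hXL : XL s = logDeriv L.X s := by rw [logDeriv_apply]; rfl
  rw [hXL, ul.logD (by rw [hsre]; norm_num)]
  have h1 : logDeriv (fun s : ℂ => (s * (s - 1)) ^ L.r * LSeries L.b s) s =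
      L.r * (1 / s + 1 / (s - 1)) + logDeriv (LSeries L.b) s := by
    rw [logDeriv_mul (f := fun s : ℂ => (s * (s - 1)) ^ L.r) (g := LSeries L.b) s
      (pow_ne_zero _ (mul_ne_zero hs0 hs1)) hco.2.1 (by fun_prop) (L.raw.lser_an (by rw [hsre]; norm_num))]
    congr 1
    have e2 : logDeriv (fun s : ℂ => (s * (s - 1)) ^ L.r) s =
        L.r * logDeriv (fun s : ℂ => s * (s - 1)) s :=
      logDeriv_fun_pow (f := fun s : ℂ => s * (s - 1)) (by fun_prop) L.r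
    rw [e2, logDeriv_mul (f := fun s : ℂ => s) (g := fun s : ℂ => s - 1) s hs0 hs1
      (by fun_prop) (by fun_prop)]
    congr 1
    rw [logDeriv_apply, logDeriv_apply]
    simp
  rw [h1, hco.2.2]
  have e3 : s - ((1 / 2 : ℝ) : ℂ) = ⟨2, y⟩ := by rw [hs]; apply Complex.ext <;> simp; norm_num
  have e4 : LSeries (fun n => ((ArithmeticFunction.vonMangoldt n : ℝ) : ℂ) * (L.c n * pw (-(1 / 2)) n)) (s - ((1 / 2 : ℝ) : ℂ)) = DL y := by
    rw [e3]
    unfold LSeries DL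
    refine tsum_congr fun n => ?_
    exact H370.DL.term_eq_mul_cpow aL aL_zero _ n
  rw [e4]
  unfold ph1 GA
  rw [e0, e1]
  ring

lemma ph1_diff (w : ℂ) (h : 0 ≤ w.re) : DifferentiableAt ℂ ph1 w := by
  unfold ph1
  have hne : (1 / 2 + w : ℂ) ≠ 0 := fun h0 => by
    have := congrArg Complex.re h0
    simp at this
    linarith
  refine DifferentiableAt.add ?_ (DifferentiableAt.const_mul (DifferentiableAt.div (by fun_prop) (by fun_prop) hne) _)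
  exact DifferentiableAt.comp (f := fun w : ℂ => 1 / 2 + w) w (GA_diff (by simpa using h)) (by fun_prop)

lemma ph1_bd : ∃ C : ℝ, 0 < C ∧ ∀ w : ℂ, 0 ≤ w.re → w.re ≤ 2 → ‖ph1 w‖ ≤ C * (1 + |w.im|) := by
  obtain ⟨C, hC, h⟩ := GA_bd (L := L)
  have hr : (0 : ℝ) ≤ L.r := Nat.cast_nonneg _
  refine ⟨3 * C + 2 * L.r, by positivity, fun w h1 h2 => ?_⟩
  have hre : (1 / 2 + w : ℂ).re = 1 / 2 + w.re := by simp
  have him : (1 / 2 + w : ℂ).im = w.im := by simp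
  have b1 := (h (1 / 2 + w) (by rw [hre]; linarith) (by rw [hre]; linarith)).1
  rw [him] at b1
  have b2 : ‖(L.r : ℂ) * (1 / (1 / 2 + w))‖ ≤ 2 * L.r := by
    rw [norm_mul, Complex.norm_natCast, norm_div, norm_one]
    have h3 : 1 / 2 ≤ ‖(1 / 2 + w : ℂ)‖ := by
      have := Complex.re_le_norm (1 / 2 + w)
      rw [hre] at this
      linarith
    have h4 : 1 / ‖(1 / 2 + w : ℂ)‖ ≤ 2 := by
      rw [div_le_iff₀ (by linarith)]
      linarith
    nlinarith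
  unfold ph1
  have h5 := Lg_lin w.im
  have h6 : C * Lg w.im ≤ C * (3 * (1 + |w.im|)) := mul_le_mul_of_nonneg_left h5 hC.le
  have := abs_nonneg w.im
  refine (norm_add_le _ _).trans ((add_le_add b1 b2).trans ?_)
  nlinarith

/-- one term of the sum over the prime powers -/
noncomputable def JJ (H : ℂ → ℂ) (l : ℝ) : ℂ := ∫ y : ℝ, cexp (-((y * I) * l)) * H ⟨0, y⟩

lemma norm_cexp_l (l : ℝ) (w : ℂ) : ‖cexp (-(w * l))‖ = Real.exp (-(w.re * l)) := by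
  rw [Complex.norm_exp]
  congr 1
  rw [Complex.neg_re, Complex.re_mul_ofReal]

lemma mkI (y : ℝ) : (⟨0, y⟩ : ℂ) = y * I := by apply Complex.ext <;> simp

lemma JJ_eq {H : ℂ → ℂ} {M δ : ℝ} (hδ : 0 < δ) (hM : 0 ≤ M) (hh : Dec H M δ) {l : ℝ} (hl : 0 ≤ l) :
    ∫ y : ℝ, cexp (-(⟨2, y⟩ * l)) * H ⟨2, y⟩ = JJ H l := by
  unfold JJ
  simp only [← mkI]
  refine dec_shift (g := fun w => cexp (-(w * l)) * H w) (M := Real.exp (2 * l) * M) hδ (by positivity) ⟨?_, ?_⟩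
  · exact Differentiable.mul (by fun_prop) hh.1
  · intro w hw
    rw [norm_mul, norm_cexp_l, mul_assoc]
    refine mul_le_mul (Real.exp_le_exp.2 ?_) (hh.2 w hw) (norm_nonneg _) (Real.exp_pos _).le
    have := (abs_le.1 hw).1
    nlinarith

lemma JJ_norm {H : ℂ → ℂ} {M δ : ℝ} (hδ : 0 < δ) (hM : 0 ≤ M) (hh : Dec H M δ) {l : ℝ} (hl : 0 ≤ l) :
    ‖JJ H l‖ ≤ Real.exp (-(2 * l)) * ∫ y : ℝ, ‖H ⟨2, y⟩‖ := by
  rw [← JJ_eq hδ hM hh hl, ← integral_const_mul]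
  refine (norm_integral_le_integral_norm _).trans (le_of_eq ?_)
  refine integral_congr_ae (Eventually.of_forall fun y => ?_)
  show ‖cexp (-(⟨2, y⟩ * l)) * H ⟨2, y⟩‖ = Real.exp (-(2 * l)) * ‖H ⟨2, y⟩‖
  rw [norm_mul, norm_cexp_l]

lemma exp_log_pow {n : ℕ} (hn : 0 < n) : Real.exp (-(2 * Real.log n)) = (n : ℝ) ^ (-(2 : ℝ)) := by
  rw [Real.rpow_def_of_pos (by exact_mod_cast hn)]
  congr 1; ring

lemma term_norm {H : ℂ → ℂ} {M δ : ℝ} (hδ : 0 < δ) (hM : 0 ≤ M) (hh : Dec H M δ) (n : ℕ) :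
    ‖aL n * JJ H (Real.log n)‖ ≤ (L.m * (ArithmeticFunction.vonMangoldt n * (n : ℝ) ^ (-(2 : ℝ)))) * ∫ y : ℝ, ‖H ⟨2, y⟩‖ := by
  rcases Nat.eq_zero_or_pos n with h | h
  · subst h
    rw [aL_zero, zero_mul, norm_zero]
    simp
  · rw [norm_mul, ← mul_assoc, mul_assoc]
    refine mul_le_mul (aL_norm n) ?_ (norm_nonneg _) (mul_nonneg (Nat.cast_nonneg _) ArithmeticFunction.vonMangoldt_nonneg)
    rw [← exp_log_pow h]
    exact JJ_norm hδ hM hh (Real.log_natCast_nonneg n)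

lemma prime_line {H : ℂ → ℂ} {M δ : ℝ} (hδ : 0 < δ) (hM : 0 ≤ M) (hh : Dec H M δ) :
    HasSum (fun n : ℕ => aL n * JJ H (Real.log n)) (∫ y : ℝ, DL y * H ⟨2, y⟩) := by
  set f : ℕ → ℝ → ℂ := fun n v => aL n * (n : ℂ) ^ (-(⟨2, v⟩ : ℂ)) * H ⟨2, v⟩ with hf
  have hcl := dec_cont hh 2
  have hnb : ∀ n v, ‖f n v‖ ≤ (L.m * (ArithmeticFunction.vonMangoldt n * (n : ℝ) ^ (-(2 : ℝ)))) * ‖H ⟨2, v⟩‖ := by
    intro n v
    simp only [hf]
    rw [norm_mul]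
    exact mul_le_mul_of_nonneg_right (norm_np n v) (norm_nonneg _)
  have hterm : ∀ n : ℕ, 0 < n → ∀ v : ℝ, (n : ℂ) ^ (-(⟨2, v⟩ : ℂ)) = cexp (-(⟨2, v⟩ * (Real.log n : ℝ))) := by
    intro n h v
    rw [Complex.cpow_def_of_ne_zero (by exact_mod_cast h.ne'), ← Complex.natCast_log]
    congr 1; ring
  have hcont : ∀ n, Continuous (f n) := by
    intro n
    rcases Nat.eq_zero_or_pos n with h | h
    · subst h
      simp only [hf, aL_zero, zero_mul]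
      exact continuous_const
    · simp only [hf, hterm n h]
      refine Continuous.mul (Continuous.mul continuous_const ?_) hcl
      exact Complex.continuous_exp.comp ((line_ct 2).mul continuous_const).neg
  have hG : Integrable (fun v : ℝ => ‖H ⟨2, v⟩‖) := (dec_int hδ hh (σ := 2) (by norm_num)).norm
  have hint : ∀ n, Integrable (f n) := fun n =>
    (hG.const_mul (L.m * (ArithmeticFunction.vonMangoldt n * (n : ℝ) ^ (-(2 : ℝ))))).mono'
      (hcont n).aestronglyMeasurable (Eventually.of_forall (hnb n))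
  have hsum : Summable fun n => ∫ v, ‖f n v‖ := by
    refine Summable.of_nonneg_of_le (fun n => integral_nonneg fun v => norm_nonneg _) (fun n => ?_)
      ((lam_sum.mul_left (L.m : ℝ)).mul_right (∫ v : ℝ, ‖H ⟨2, v⟩‖))
    rw [← integral_const_mul]
    exact integral_mono (hint n).norm (hG.const_mul _) (fun v => hnb n v)
  have key := hasSum_integral_of_summable_integral_norm hint hsum
  have e1 : (fun v : ℝ => DL v * H ⟨2, v⟩) = fun v => ∑' n, f n v := by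
    funext v
    simp only [hf, DL]
    rw [tsum_mul_right]
  rw [e1]
  have e2 : (fun n : ℕ => aL n * JJ H (Real.log n)) = fun n => ∫ v, f n v := by
    funext n
    rcases Nat.eq_zero_or_pos n with h | h
    · subst h
      simp [hf, aL_zero]
    · rw [← JJ_eq hδ hM hh (Real.log_natCast_nonneg n), ← integral_const_mul]
      refine integral_congr_ae (Eventually.of_forall fun v => ?_)
      simp only [hf]
      rw [hterm n h]
      ring
  rw [e2]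
  exact key

lemma inv_int {h : ℂ → ℂ} {M δ : ℝ} (hδ : 0 < δ) (hh : Dec h M δ) {x : ℝ} (hx : 1 / 2 ≤ |x - 1 / 2|) (hx2 : |x| ≤ 2) :
    Integrable (fun y : ℝ => 1 / (⟨x, y⟩ - 1 / 2) * h ⟨x, y⟩) := by
  have h1 : ∀ y : ℝ, 1 / 2 ≤ ‖(⟨x, y⟩ : ℂ) - 1 / 2‖ := by
    intro y
    refine hx.trans ?_
    have := Complex.abs_re_le_norm ((⟨x, y⟩ : ℂ) - 1 / 2)
    rw [sub_half] at this ⊢
    exact this
  refine dec_mul_int (φ := fun y : ℝ => 1 / ((⟨x, y⟩ : ℂ) - 1 / 2)) (C := 2) ?_ (fun y => ?_) hδ hh hx2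
  · refine continuous_const.div ((line_ct x).sub continuous_const) fun y h0 => ?_
    have h2 := h1 y
    have h3 : (⟨x, y⟩ : ℂ) - 1 / 2 = 0 := h0
    rw [h3, norm_zero] at h2
    norm_num at h2
  · rw [norm_div, norm_one]
    have h4 : 1 / ‖(⟨x, y⟩ : ℂ) - 1 / 2‖ ≤ 2 := by
      rw [div_le_iff₀ (by linarith [h1 y])]
      linarith [h1 y]
    have := abs_nonneg y
    linarith

/-- the integral over the line to the right -/
lemma J_eq {h : ℂ → ℂ} {M δ : ℝ} (hδ : 0 < δ) (hM : 0 ≤ M) (hh : Dec h M δ) :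
    ∫ y : ℝ, XL ⟨5 / 2, y⟩ * h ⟨2, y⟩ = (∫ y : ℝ, ph1 ⟨0, y⟩ * h ⟨0, y⟩) +
      L.r * (2 * Real.pi * h (1 / 2) + ∫ y : ℝ, 1 / (⟨0, y⟩ - 1 / 2) * h ⟨0, y⟩) - ∑' n : ℕ, aL n * JJ h (Real.log n) := by
  obtain ⟨C, hC, hb⟩ := ph1_bd (L := L)
  have hc1 : Continuous (fun y : ℝ => ph1 (⟨2, y⟩ : ℂ)) := by
    rw [continuous_iff_continuousAt]
    intro y
    exact ContinuousAt.comp (f := fun y : ℝ => (⟨2, y⟩ : ℂ)) (x := y) (ph1_diff ⟨2, y⟩ zero_le_two).continuousAt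
      (line_ct 2).continuousAt
  have i1 : Integrable (fun y : ℝ => ph1 ⟨2, y⟩ * h ⟨2, y⟩) :=
    dec_mul_int hc1 (fun y => hb ⟨2, y⟩ zero_le_two le_rfl) hδ hh (by norm_num)
  have i3 : Integrable (fun y : ℝ => DL y * h ⟨2, y⟩) := by
    refine dec_mul_int DL_cont (C := L.m * DB) (fun y => (DL_norm y).trans ?_) hδ hh (by norm_num)
    have := DB_nonneg
    have := abs_nonneg y
    have h0 : 0 ≤ (L.m : ℝ) * DB := by positivity
    nlinarith
  have i2 : Integrable (fun y : ℝ => 1 / (⟨2, y⟩ - 1 / 2) * h ⟨2, y⟩) :=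
    inv_int hδ hh (by norm_num) (by norm_num)
  have i12 : Integrable (fun y : ℝ => ph1 ⟨2, y⟩ * h ⟨2, y⟩ + L.r * (1 / (⟨2, y⟩ - 1 / 2) * h ⟨2, y⟩)) :=
    i1.add (i2.const_mul _)
  have e1 : (∫ y : ℝ, XL ⟨5 / 2, y⟩ * h ⟨2, y⟩) = (∫ y : ℝ, ph1 ⟨2, y⟩ * h ⟨2, y⟩) +
      L.r * (∫ y : ℝ, 1 / (⟨2, y⟩ - 1 / 2) * h ⟨2, y⟩) - ∫ y : ℝ, DL y * h ⟨2, y⟩ := by
    rw [← integral_const_mul, ← integral_add i1 (i2.const_mul _), ← integral_sub i12 i3]
    refine integral_congr_ae (Eventually.of_forall fun y => ?_)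
    show XL ⟨5 / 2, y⟩ * h ⟨2, y⟩ = ph1 ⟨2, y⟩ * h ⟨2, y⟩ + L.r * (1 / (⟨2, y⟩ - 1 / 2) * h ⟨2, y⟩) - DL y * h ⟨2, y⟩
    rw [XL_eq]
    ring
  rw [e1, pole_shift hδ hM hh, (prime_line hδ hM hh).tsum_eq, shift_mul hδ hM hC.le hh (fun w h1 _ => ph1_diff w h1) hb]

/-- the archimedean density -/
noncomputable def GD (y : ℝ) : ℝ := 2 * (GA (⟨1 / 2, y⟩ : ℂ)).re

lemma GA_line : Continuous (fun y : ℝ => GA (⟨1 / 2, y⟩ : ℂ)) := by
  rw [continuous_iff_continuousAt]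
  intro y
  exact ContinuousAt.comp (f := fun y : ℝ => (⟨1 / 2, y⟩ : ℂ)) (x := y) (GA_diff (s := ⟨1 / 2, y⟩) le_rfl).continuousAt
    (line_ct (1 / 2)).continuousAt

lemma GD_cont : Continuous (GD (L := L)) := (Complex.continuous_re.comp GA_line).const_mul 2 |>.congr fun _ => rfl

lemma GD_bd : ∃ C : ℝ, 0 < C ∧ ∀ y : ℝ, |GD y| ≤ C * Lg y ∧ Lg y - C ≤ GD y := by
  obtain ⟨C, hC, h⟩ := GA_bd (L := L)
  refine ⟨2 * C, by positivity, fun y => ?_⟩
  obtain ⟨h1, h2⟩ := h ⟨1 / 2, y⟩ le_rfl (by norm_num)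
  have e : (⟨1 / 2, y⟩ : ℂ).im = y := rfl
  rw [e] at h1 h2
  unfold GD
  constructor
  · rw [abs_mul, abs_two]
    have := (Complex.abs_re_le_norm _).trans h1
    linarith
  · linarith

/-- the explicit formula for the regularised form -/
theorem expl {a δ : ℝ} (ha : 0 < a) (hδ : 0 < δ) (hδ1 : δ ≤ 1) {f : ℝ → ℂ} (hf : Fa a f) :
    2 * Real.pi * Sd f δ = (∫ y : ℝ, GD y * (‖TT f (y * I)‖ ^ 2 * Real.exp (-δ * y ^ 2))) +
      4 * Real.pi * L.r * (hdl f δ (1 / 2)).re - 2 * (∑' n : ℕ, aL n * JJ (hdl f δ) (Real.log n)).re := by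
  have hN := N2_nonneg f
  have hdec := hdl_dec ha hδ hδ1 hf
  have hM : 0 ≤ 120 * a * Real.exp (4 * a) * N2 f := by positivity
  have hst1 : hst (hdl f δ) = hdl f δ := by
    funext w
    unfold hst hdl GG
    rw [map_mul, map_mul, Complex.conj_conj, ← Complex.exp_conj]
    have e1 : -conj (-conj w) = w := by simp
    have e2 : conj ((δ : ℂ) * (-conj w) ^ 2) = δ * w ^ 2 := by
      rw [map_mul, map_pow, map_neg, Complex.conj_conj, Complex.conj_ofReal, neg_sq]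
    rw [e1, e2]
    ring
  have hz := zeros_line hδ hM hdec
  rw [hst1, Complex.add_conj, J_eq hδ hM hdec] at hz
  have hre := congrArg Complex.re hz
  have e3 : (2 * Real.pi * (∑' ρ : Zt, (mu ρ : ℂ) * hdl f δ ((ρ : ℂ) - 1 / 2))).re = 2 * Real.pi * Sd f δ := by
    have h8 : (2 * Real.pi : ℂ) = ((2 * Real.pi : ℝ) : ℂ) := by push_cast; ring
    rw [h8, Complex.re_ofReal_mul, Complex.re_tsum (dec_summable hδ hM hdec).of_norm]
    congr 1
    unfold Sd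
    refine tsum_congr fun ρ => ?_
    have h9 : ((mu ρ : ℕ) : ℂ) = ((mu ρ : ℝ) : ℂ) := by push_cast; rfl
    rw [h9, Complex.re_ofReal_mul]
  rw [e3, Complex.ofReal_re, Complex.sub_re, Complex.add_re] at hre
  rw [hre]
  -- the archimedean part
  obtain ⟨C, hC, hb⟩ := ph1_bd (L := L)
  have hc1 : Continuous (fun y : ℝ => ph1 (⟨0, y⟩ : ℂ)) := by
    rw [continuous_iff_continuousAt]
    intro y
    exact ContinuousAt.comp (f := fun y : ℝ => (⟨0, y⟩ : ℂ)) (x := y) (ph1_diff ⟨0, y⟩ le_rfl).continuousAt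
      (line_ct 0).continuousAt
  have i1 : Integrable (fun y : ℝ => ph1 ⟨0, y⟩ * hdl f δ ⟨0, y⟩) :=
    dec_mul_int hc1 (fun y => hb ⟨0, y⟩ le_rfl zero_le_two) hδ hdec (by norm_num)
  have i2 : Integrable (fun y : ℝ => 1 / (⟨0, y⟩ - 1 / 2) * hdl f δ ⟨0, y⟩) :=
    inv_int hδ hdec (by norm_num) (by norm_num)
  have i3 := i1.add (i2.const_mul (L.r : ℂ))
  have hr : (L.r : ℂ) = ((L.r : ℝ) : ℂ) := by push_cast; rfl
  have e4 : 2 * ((∫ y : ℝ, ph1 ⟨0, y⟩ * hdl f δ ⟨0, y⟩).re + (L.r * ∫ y : ℝ, 1 / (⟨0, y⟩ - 1 / 2) * hdl f δ ⟨0, y⟩).re) =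
      ∫ y : ℝ, GD y * (‖TT f (y * I)‖ ^ 2 * Real.exp (-δ * y ^ 2)) := by
    rw [← Complex.add_re, ← integral_const_mul, ← integral_add i1 (i2.const_mul _)]
    have h5 := integral_re i3
    have h6 : (∫ y : ℝ, (ph1 ⟨0, y⟩ * hdl f δ ⟨0, y⟩ + L.r * (1 / (⟨0, y⟩ - 1 / 2) * hdl f δ ⟨0, y⟩))).re =
        ∫ y : ℝ, (ph1 ⟨0, y⟩ * hdl f δ ⟨0, y⟩ + L.r * (1 / (⟨0, y⟩ - 1 / 2) * hdl f δ ⟨0, y⟩)).re := h5.symm
    rw [h6, ← integral_const_mul]
    refine integral_congr_ae (Eventually.of_forall fun y => ?_)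
    show 2 * (ph1 ⟨0, y⟩ * hdl f δ ⟨0, y⟩ + L.r * (1 / (⟨0, y⟩ - 1 / 2) * hdl f δ ⟨0, y⟩)).re = _
    rw [hdl_line]
    set q : ℝ := ‖TT f (y * I)‖ ^ 2 * Real.exp (-δ * y ^ 2)
    have e5 : (1 / 2 : ℂ) + ⟨0, y⟩ = ⟨1 / 2, y⟩ := by apply Complex.ext <;> simp
    have e6 : ph1 ⟨0, y⟩ * (q : ℂ) + L.r * (1 / (⟨0, y⟩ - 1 / 2) * (q : ℂ)) =
        (q : ℂ) * (GA ⟨1 / 2, y⟩) + (q : ℂ) * (((L.r : ℝ) : ℂ) * (1 / ⟨1 / 2, y⟩ + 1 / (⟨0, y⟩ - 1 / 2))) := by
      unfold ph1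
      rw [e5, hr]
      ring
    rw [e6, Complex.add_re, Complex.re_ofReal_mul, Complex.re_ofReal_mul, Complex.re_ofReal_mul]
    have e7 : (1 / (⟨1 / 2, y⟩ : ℂ) + 1 / (⟨0, y⟩ - 1 / 2)).re = 0 := by
      have e8 : (⟨0, y⟩ : ℂ) - 1 / 2 = -conj (⟨1 / 2, y⟩ : ℂ) := by apply Complex.ext <;> simp
      have e10 : ∀ z : ℂ, (1 / z + 1 / (-conj z)).re = 0 := by
        intro z
        have : 1 / (-conj z) = -conj (1 / z) := by rw [map_div₀, map_one, div_neg]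
        rw [this, Complex.add_re, Complex.neg_re, Complex.conj_re, add_neg_cancel]
      rw [e8]
      exact e10 _
    rw [e7]
    unfold GD
    ring
  have e9 : (L.r * (2 * Real.pi * hdl f δ (1 / 2) + ∫ y : ℝ, 1 / (⟨0, y⟩ - 1 / 2) * hdl f δ ⟨0, y⟩)).re =
      2 * Real.pi * L.r * (hdl f δ (1 / 2)).re + (L.r * ∫ y : ℝ, 1 / (⟨0, y⟩ - 1 / 2) * hdl f δ ⟨0, y⟩).re := by
    rw [mul_add, Complex.add_re]
    congr 1
    have : (L.r : ℂ) * (2 * Real.pi * hdl f δ (1 / 2)) = ((2 * Real.pi * L.r : ℝ) : ℂ) * hdl f δ (1 / 2) := by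
      push_cast; ring
    rw [this, Complex.re_ofReal_mul]
  rw [e9, ← e4]
  ring

end Pool.Agent.Y23.G
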