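import Pool.Agent.Y23.G.An5

/-! # Coercivity and Weil's explicit formula -/

set_option autoImplicit false
set_option linter.unusedSectionVars false
set_option maxHeartbeats 2000000

open Complex Filter Topology Set MeasureTheory Metric
open scoped ComplexConjugate

namespace Pool.Agent.Y23.G

open Pool.Agent.W169.HF H353.E Pool.Agent.W355.UN Pool.Agent.TH839.NA

/-- the square of the transform on the central line -/
noncomputable def gsq (f : ℝ → ℂ) (y : ℝ) : ℝ := ‖TT f (y * I)‖ ^ 2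

lemma gsq_nonneg (f : ℝ → ℂ) (y : ℝ) : 0 ≤ gsq f y := sq_nonneg _

lemma gsq_cont {a : ℝ} {f : ℝ → ℂ} (hf : Fa a f) : Continuous (gsq f) := by
  unfold gsq
  exact ((differentiable_TT hf).continuous.comp (by fun_prop)).norm.pow 2

lemma gsq_int {a : ℝ} {f : ℝ → ℂ} (hf : Fa a f) : Integrable (gsq f) := int_TT_sq hf

/-- the regularising sequence -/
noncomputable def dn (n : ℕ) : ℝ := 1 / ((n : ℝ) + 1)

lemma dn_pos (n : ℕ) : 0 < dn n := by unfold dn; positivity

lemma dn_le (n : ℕ) : dn n ≤ 1 := by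
  unfold dn
  rw [div_le_one (by positivity)]
  have : (0 : ℝ) ≤ n := Nat.cast_nonneg n
  linarith

lemma dn_tendsto : Tendsto dn atTop (𝓝 0) := tendsto_one_div_add_atTop_nhds_zero_nat

lemma gauss_le (n : ℕ) (y : ℝ) : Real.exp (-(dn n) * y ^ 2) ≤ 1 := by
  rw [Real.exp_le_one_iff]
  have := sq_nonneg y
  have := dn_pos n
  nlinarith

lemma gauss_tendsto (c : ℝ) : Tendsto (fun n => Real.exp (-(dn n) * c)) atTop (𝓝 1) := by
  have h1 : Continuous (fun δ : ℝ => Real.exp (-δ * c)) := by fun_prop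
  have h2 := (h1.tendsto 0).comp dn_tendsto
  simpa [Function.comp_def] using h2

variable [L : LFun]

lemma hdl_half_bd {a δ : ℝ} (ha : 0 < a) (hδ : 0 < δ) (hδ1 : δ ≤ 1) {f : ℝ → ℂ} (hf : Fa a f) :
    |(hdl f δ (1 / 2)).re| ≤ 120 * a * Real.exp (4 * a) * N2 f := by
  have h1 := (hdl_dec ha hδ hδ1 hf).2 (1 / 2) (by norm_num)
  have h2 : Real.exp (-δ * (1 / 2 : ℂ).im ^ 2) ≤ 1 := by norm_num
  have hN := N2_nonneg f
  have h3 : 120 * a * Real.exp (4 * a) * N2 f * Real.exp (-δ * (1 / 2 : ℂ).im ^ 2) ≤ 120 * a * Real.exp (4 * a) * N2 f * 1 :=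
    mul_le_mul_of_nonneg_left h2 (by positivity)
  rw [mul_one] at h3
  exact (Complex.abs_re_le_norm _).trans (h1.trans h3)

lemma prime_bd {a δ : ℝ} (ha : 0 < a) (hδ : 0 < δ) (hδ1 : δ ≤ 1) {f : ℝ → ℂ} (hf : Fa a f) :
    |(∑' n : ℕ, aL n * JJ (hdl f δ) (Real.log n)).re| ≤ L.m * DB * (120 * Real.pi * Real.exp (4 * a) * N2 f) := by
  have hN := N2_nonneg f
  have hdec := hdl_dec ha hδ hδ1 hf
  have hM : 0 ≤ 120 * a * Real.exp (4 * a) * N2 f := by positivity
  refine (Complex.abs_re_le_norm _).trans ?_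
  have h1 : ‖∑' n : ℕ, aL n * JJ (hdl f δ) (Real.log n)‖ ≤
      ∑' n : ℕ, (L.m * (ArithmeticFunction.vonMangoldt n * (n : ℝ) ^ (-(2 : ℝ)))) * (120 * Real.pi * Real.exp (4 * a) * N2 f) := by
    refine tsum_of_norm_bounded ((lam_sum.mul_left _).mul_right _).hasSum fun n => ?_
    refine (term_norm hδ hM hdec n).trans ?_
    exact mul_le_mul_of_nonneg_left (line_one hf ha (by norm_num) hδ hδ1)
      (mul_nonneg (Nat.cast_nonneg _) (mul_nonneg ArithmeticFunction.vonMangoldt_nonneg (by positivity)))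
  refine h1.trans (le_of_eq ?_)
  rw [tsum_mul_right, tsum_mul_left]
  rfl

/-- the coercivity -/
theorem coer_aux {a : ℝ} (ha : 0 < a) : ∃ C : ℝ, 0 < C ∧ ∀ f : ℝ → ℂ, Fa a f → Dom f →
    Integrable (fun v : ℝ => Lg v * ‖TT f (v * I)‖ ^ 2) ∧
      ∫ v : ℝ, Lg v * ‖TT f (v * I)‖ ^ 2 ≤ 2 * Real.pi * QQ f + C * N2 f := by
  obtain ⟨C1, hC1, hGD⟩ := GD_bd (L := L)
  have hDB := DB_nonneg
  set C : ℝ := C1 * (2 * Real.pi) + 4 * Real.pi * L.r * (120 * a * Real.exp (4 * a)) +
    2 * (L.m * DB * (120 * Real.pi * Real.exp (4 * a))) with hC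
  have hC0 : 0 < C := by positivity
  refine ⟨C, hC0, fun f hf hD => ?_⟩
  have hN := N2_nonneg f
  set g : ℝ → ℝ := gsq f with hg
  have hg0 : ∀ v, 0 ≤ g v := gsq_nonneg f
  have hgc : Continuous g := gsq_cont hf
  have hgi : Integrable g := gsq_int hf
  have hgI : ∫ v, g v = 2 * Real.pi * N2 f := plancherel hf
  have hGDc := GD_cont (L := L)
  -- integrability of the regularised integrals
  have hint : ∀ (φ : ℝ → ℝ), Continuous φ → ∀ K : ℝ, (∀ y, |φ y| ≤ K * (1 + |y|)) → ∀ n,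
      Integrable (fun v => φ v * (g v * Real.exp (-(dn n) * v ^ 2))) := by
    intro φ hφ K hK n
    have hdec := hdl_dec ha (dn_pos n) (dn_le n) hf
    have h1 := dec_mul_int (φ := fun y => (φ y : ℂ)) (C := K) (Complex.continuous_ofReal.comp hφ)
      (fun y => by rw [Complex.norm_real]; exact hK y) (dn_pos n) hdec (σ := 0) (by norm_num)
    refine h1.re.congr (Eventually.of_forall fun v => ?_)
    show ((φ v : ℂ) * hdl f (dn n) ⟨0, v⟩).re = φ v * (g v * Real.exp (-(dn n) * v ^ 2))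
    rw [hdl_line, ← Complex.ofReal_mul, Complex.ofReal_re]
    rfl
  have hLc : Continuous Lg := Lg_cont
  have iL := hint Lg hLc 3 (fun y => by rw [abs_of_pos (Lg_pos y)]; exact Lg_lin y)
  have iG := hint GD hGDc (3 * C1) (fun y => (hGD y).1.trans (by
    have := mul_le_mul_of_nonneg_left (Lg_lin y) hC1.le
    linarith))
  have i1 := hint (fun _ => 1) continuous_const 1 (fun y => by
    rw [abs_one]
    have := abs_nonneg y
    linarith)
  -- the bound for the regularised integrals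
  have step1 : ∀ n, ∫ v, Lg v * (g v * Real.exp (-(dn n) * v ^ 2)) ≤ 2 * Real.pi * Sd f (dn n) + C * N2 f := by
    intro n
    have h1 := expl ha (dn_pos n) (dn_le n) hf
    have h2 := hdl_half_bd ha (dn_pos n) (dn_le n) hf
    have h3 := prime_bd ha (dn_pos n) (dn_le n) hf
    have h4 : ∫ v, Lg v * (g v * Real.exp (-(dn n) * v ^ 2)) ≤
        (∫ v, GD v * (g v * Real.exp (-(dn n) * v ^ 2))) + C1 * ∫ v, 1 * (g v * Real.exp (-(dn n) * v ^ 2)) := by
      rw [← integral_const_mul, ← integral_add (iG n) ((i1 n).const_mul _)]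
      refine integral_mono (iL n) ((iG n).add ((i1 n).const_mul _)) fun v => ?_
      show Lg v * (g v * Real.exp (-(dn n) * v ^ 2)) ≤ GD v * (g v * Real.exp (-(dn n) * v ^ 2)) +
        C1 * (1 * (g v * Real.exp (-(dn n) * v ^ 2)))
      have h5 := (hGD v).2
      have h6 : 0 ≤ g v * Real.exp (-(dn n) * v ^ 2) := mul_nonneg (hg0 v) (Real.exp_pos _).le
      nlinarith
    have h5 : ∫ v, 1 * (g v * Real.exp (-(dn n) * v ^ 2)) ≤ 2 * Real.pi * N2 f := by
      rw [← hgI]
      refine integral_mono (i1 n) hgi fun v => ?_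
      show 1 * (g v * Real.exp (-(dn n) * v ^ 2)) ≤ g v
      have := gauss_le n v
      have := hg0 v
      nlinarith
    have h6 : (∫ v, GD v * (g v * Real.exp (-(dn n) * v ^ 2))) = ∫ y : ℝ, GD y * (‖TT f (y * I)‖ ^ 2 * Real.exp (-(dn n) * y ^ 2)) := rfl
    rw [← h6] at h1
    rw [abs_le] at h2 h3
    have hr : (0 : ℝ) ≤ L.r := Nat.cast_nonneg _
    have h7 : 4 * Real.pi * L.r * -(120 * a * Real.exp (4 * a) * N2 f) ≤ 4 * Real.pi * L.r * (hdl f (dn n) (1 / 2)).re :=
      mul_le_mul_of_nonneg_left h2.1 (by positivity)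
    have h8 := mul_le_mul_of_nonneg_left h5 hC1.le
    have h9 : C * N2 f = C1 * (2 * Real.pi * N2 f) + 4 * Real.pi * L.r * (120 * a * Real.exp (4 * a) * N2 f) +
        2 * (L.m * DB * (120 * Real.pi * Real.exp (4 * a) * N2 f)) := by rw [hC]; ring
    rw [h9]
    linarith [h3.2]
  have step2 : ∀ V : ℝ, 0 ≤ V → ∫ v in (-V)..V, Lg v * g v ≤ 2 * Real.pi * QQ f + C * N2 f := by
    intro V hV
    have h1 : ∀ n, Real.exp (-(dn n) * V ^ 2) * (∫ v in (-V)..V, Lg v * g v) ≤ 2 * Real.pi * Sd f (dn n) + C * N2 f := by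
      intro n
      refine le_trans ?_ (step1 n)
      rw [← intervalIntegral.integral_const_mul, intervalIntegral.integral_of_le (by linarith)]
      have h0 : ∀ v, 0 ≤ Lg v * (g v * Real.exp (-(dn n) * v ^ 2)) := fun v =>
        mul_nonneg (Lg_pos v).le (mul_nonneg (hg0 v) (Real.exp_pos _).le)
      refine le_trans ?_ (setIntegral_le_integral (s := Ioc (-V) V) (iL n) (Eventually.of_forall h0))
      refine setIntegral_mono_on ?_ (iL n).integrableOn measurableSet_Ioc fun v hv => ?_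
      · exact (continuous_const.mul (hLc.mul hgc)).integrableOn_Ioc
      · have hv2 : v ^ 2 ≤ V ^ 2 := by
          rw [← sq_abs v]
          exact pow_le_pow_left₀ (abs_nonneg v) (abs_le.2 ⟨hv.1.le, hv.2⟩) 2
        have he : Real.exp (-(dn n) * V ^ 2) ≤ Real.exp (-(dn n) * v ^ 2) := by
          apply Real.exp_le_exp.2
          have := dn_pos n
          nlinarith
        have hs : 0 ≤ Lg v * g v := mul_nonneg (Lg_pos v).le (hg0 v)
        calc Real.exp (-(dn n) * V ^ 2) * (Lg v * g v) ≤ Real.exp (-(dn n) * v ^ 2) * (Lg v * g v) :=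
              mul_le_mul_of_nonneg_right he hs
          _ = _ := by ring
    have h2 := (gauss_tendsto (V ^ 2)).mul_const (∫ v in (-V)..V, Lg v * g v)
    rw [one_mul] at h2
    have h3 := ((Sd_tendsto hD dn_pos dn_le dn_tendsto).const_mul (2 * Real.pi)).add_const (C * N2 f)
    exact le_of_tendsto_of_tendsto' h2 h3 h1
  have hF0 : ∀ v, 0 ≤ Lg v * g v := fun v => mul_nonneg (Lg_pos v).le (hg0 v)
  have hFc : Continuous (fun v => Lg v * g v) := hLc.mul hgc
  have hnorm : (fun v => ‖Lg v * g v‖) = fun v => Lg v * g v := by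
    funext v; rw [Real.norm_eq_abs, abs_of_nonneg (hF0 v)]
  have ha' : Tendsto (fun n : ℕ => -(n : ℝ)) atTop atBot := tendsto_neg_atTop_atBot.comp tendsto_natCast_atTop_atTop
  have hb' : Tendsto (fun n : ℕ => (n : ℝ)) atTop atTop := tendsto_natCast_atTop_atTop
  have hint2 : Integrable (fun v => Lg v * g v) :=
    integrable_of_intervalIntegral_norm_bounded _ (fun n => hFc.integrableOn_Ioc) ha' hb'
      (Eventually.of_forall fun n : ℕ => by rw [hnorm]; exact step2 _ (Nat.cast_nonneg n))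
  refine ⟨hint2, ?_⟩
  exact le_of_tendsto' (intervalIntegral_tendsto_integral hint2 ha' hb') fun n => step2 _ (Nat.cast_nonneg n)

instance zc : ZC where
  co := by
    intro a ha
    obtain ⟨C, hC, h⟩ := coer_aux (L := L) ha
    refine ⟨2 * C, by positivity, fun f hf hD => ⟨(h f hf hD).1, ?_⟩⟩
    have h1 := (h f hf hD).2
    have h2 : 0 ≤ ∫ v : ℝ, Lg v * ‖TT f (v * I)‖ ^ 2 := LL_nonneg f
    linarith

/-- the autocorrelation -/
noncomputable def CC (f : ℝ → ℂ) (l : ℝ) : ℂ := ∫ x : ℝ, f (x + l) * conj (f x)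

lemma Fa_shift {b η a : ℝ} (h : b + |η| ≤ a) {f : ℝ → ℂ} (hf : Fa b f) : Fa a (fun x => f (x + η)) := by
  refine ⟨?_, fun x hx => hf.2 _ ?_⟩
  · exact hf.1.comp_measurePreserving (measurePreserving_add_right volume η)
  · have h1 : |x| ≤ |x + η| + |η| := by
      have := abs_sub (x + η) η
      simpa using this
    linarith

lemma TT_shift (f : ℝ → ℂ) (η : ℝ) (w : ℂ) : TT (fun x => f (x + η)) w = cexp (-(w * η)) * TT f w := by
  unfold TT
  rw [← integral_add_right_eq_self (fun x : ℝ => f x * cexp (w * x)) η, ← integral_const_mul]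
  refine integral_congr_ae (Eventually.of_forall fun x => ?_)
  simp only
  rw [mul_left_comm, ← Complex.exp_add]
  congr 2
  push_cast
  ring

lemma four_one {a : ℝ} {f : ℝ → ℂ} (hf : Fa a f) (l : ℝ) :
    ∫ y : ℝ, cexp (-((y * I) * l)) * (gsq f y : ℂ) = 2 * Real.pi * CC f l := by
  have h1 : Fa (a + |l|) (fun x => f (x + l)) := Fa_shift le_rfl hf
  have h2 := parseval h1 hf
  have e : (fun y : ℝ => cexp (-((y * I) * l)) * (gsq f y : ℂ)) =
      fun t : ℝ => TT (fun x => f (x + l)) (t * I) * conj (TT f (t * I)) := by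
    funext t
    rw [TT_shift, mul_assoc (cexp _), Complex.mul_conj, Complex.normSq_eq_norm_sq]
    rfl
  rw [e, h2]
  rfl

lemma JJ_tendsto {a : ℝ} {f : ℝ → ℂ} (hf : Fa a f) (l : ℝ) :
    Tendsto (fun n => JJ (hdl f (dn n)) l) atTop (𝓝 (2 * Real.pi * CC f l)) := by
  rw [← four_one hf l]
  unfold JJ
  have hi : Integrable (gsq f) := gsq_int hf
  have hb : ∀ y : ℝ, ‖cexp (-((y * I) * l))‖ = 1 := by
    intro y
    have : -((y * I) * l) = ((-(y * l) : ℝ) : ℂ) * I := by push_cast; ring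
    rw [this, Complex.norm_exp_ofReal_mul_I]
  refine tendsto_integral_of_dominated_convergence _ (fun n => ?_) hi (fun n => ?_) ?_
  · refine Continuous.aestronglyMeasurable (Continuous.mul (by fun_prop) ?_)
    simp only [hdl_line]
    exact Complex.continuous_ofReal.comp (Continuous.mul (gsq_cont hf) (by fun_prop))
  · refine Eventually.of_forall fun y => ?_
    rw [norm_mul, hb, one_mul, hdl_line, Complex.norm_real, Real.norm_eq_abs, abs_of_nonneg (by positivity)]
    have := gauss_le n y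
    have := gsq_nonneg f y
    show gsq f y * Real.exp (-(dn n) * y ^ 2) ≤ gsq f y
    nlinarith
  · refine Eventually.of_forall fun y => ?_
    refine Tendsto.const_mul _ ?_
    simp only [hdl_line]
    have h1 := ((gauss_tendsto (y ^ 2)).const_mul (gsq f y))
    rw [mul_one] at h1
    exact (Complex.continuous_ofReal.tendsto _).comp h1

lemma CC_zero {a : ℝ} {f : ℝ → ℂ} (hf : Fa a f) {l : ℝ} (hl : 2 * a < l) : CC f l = 0 := by
  unfold CC
  have : (fun x : ℝ => f (x + l) * conj (f x)) = fun _ => 0 := by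
    funext x
    by_cases hx : a < |x|
    · rw [hf.2 x hx, map_zero, mul_zero]
    · rw [not_lt, abs_le] at hx
      rw [hf.2 (x + l) (by
        refine lt_of_lt_of_le ?_ (le_abs_self _)
        linarith [hx.1]), zero_mul]
  rw [this, integral_zero]

/-- Weil's formula -/
theorem weil {a : ℝ} (ha : 0 < a) {f : ℝ → ℂ} (hf : Hd a f) :
    QQ f = 2 * L.r * (TT f (1 / 2) * conj (TT f (-(1 / 2)))).re +
      1 / (2 * Real.pi) * (∫ v : ℝ, GD v * ‖TT f (v * I)‖ ^ 2) -
      2 * (∑ n ∈ Finset.Icc 1 ⌊Real.exp (2 * a)⌋₊, aL n * ∫ x : ℝ, f (x + Real.log n) * conj (f x)).re := by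
  have hD : Dom f := ((Hd_iff ha f).1 hf).2
  have hN := N2_nonneg f
  have hexp := fun n => expl (L := L) ha (dn_pos n) (dn_le n) hf.1
  have t1 := (Sd_tendsto hD dn_pos dn_le dn_tendsto).const_mul (2 * Real.pi)
  -- poles
  have t2 : Tendsto (fun n => 4 * Real.pi * L.r * (hdl f (dn n) (1 / 2)).re) atTop
      (𝓝 (4 * Real.pi * L.r * (GG f f (1 / 2)).re)) := by
    refine Tendsto.const_mul _ ?_
    have h1 : Tendsto (fun n => hdl f (dn n) (1 / 2)) atTop (𝓝 (GG f f (1 / 2))) := by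
      unfold hdl
      have h2 : Continuous (fun δ : ℝ => cexp (δ * (1 / 2 : ℂ) ^ 2)) := by fun_prop
      have h3 := ((h2.tendsto 0).comp dn_tendsto).const_mul (GG f f (1 / 2))
      simpa [Function.comp_def] using h3
    exact (Complex.continuous_re.tendsto _).comp h1
  -- the archimedean integral
  obtain ⟨C, hC, hGD⟩ := GD_bd (L := L)
  have t3 : Tendsto (fun n => ∫ y : ℝ, GD y * (‖TT f (y * I)‖ ^ 2 * Real.exp (-(dn n) * y ^ 2))) atTop
      (𝓝 (∫ y : ℝ, GD y * ‖TT f (y * I)‖ ^ 2)) := by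
    refine tendsto_integral_of_dominated_convergence (fun y => C * (Lg y * ‖TT f (y * I)‖ ^ 2)) (fun n => ?_)
      (hf.2.const_mul C) (fun n => ?_) ?_
    · exact Continuous.aestronglyMeasurable (GD_cont.mul ((gsq_cont hf.1).mul (by fun_prop)))
    · refine Eventually.of_forall fun y => ?_
      rw [Real.norm_eq_abs, abs_mul, abs_of_nonneg (by positivity : 0 ≤ ‖TT f (y * I)‖ ^ 2 * Real.exp (-(dn n) * y ^ 2))]
      have h2 : ‖TT f (y * I)‖ ^ 2 * Real.exp (-(dn n) * y ^ 2) ≤ ‖TT f (y * I)‖ ^ 2 * 1 :=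
        mul_le_mul_of_nonneg_left (gauss_le n y) (sq_nonneg _)
      rw [mul_one] at h2
      calc |GD y| * (‖TT f (y * I)‖ ^ 2 * Real.exp (-(dn n) * y ^ 2)) ≤ (C * Lg y) * ‖TT f (y * I)‖ ^ 2 :=
            mul_le_mul (hGD y).1 h2 (by positivity) ((abs_nonneg _).trans (hGD y).1)
        _ = _ := by ring
    · refine Eventually.of_forall fun y => ?_
      have h1 := ((gauss_tendsto (y ^ 2)).const_mul (‖TT f (y * I)‖ ^ 2)).const_mul (GD y)
      rw [mul_one] at h1
      exact h1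
  -- the prime sum
  have t4 : Tendsto (fun n => ∑' k : ℕ, aL k * JJ (hdl f (dn n)) (Real.log k)) atTop
      (𝓝 (∑' k : ℕ, aL k * (2 * Real.pi * CC f (Real.log k)))) := by
    refine tendsto_tsum_of_dominated_convergence ((lam_sum.mul_left (L.m : ℝ)).mul_right (120 * Real.pi * Real.exp (4 * a) * N2 f)) ?_ ?_
    · intro k
      exact (JJ_tendsto hf.1 _).const_mul _
    · refine Eventually.of_forall fun n k => ?_
      refine (term_norm (dn_pos n) (by positivity) (hdl_dec ha (dn_pos n) (dn_le n) hf.1) k).trans ?_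
      exact mul_le_mul_of_nonneg_left (line_one hf.1 ha (by norm_num) (dn_pos n) (dn_le n))
        (mul_nonneg (Nat.cast_nonneg _) (mul_nonneg ArithmeticFunction.vonMangoldt_nonneg (by positivity)))
  have t5 := ((Complex.continuous_re.tendsto _).comp t4).const_mul 2
  have hlim := tendsto_nhds_unique (t1.congr hexp) ((t3.add t2).sub t5)
  have hfin : (∑' k : ℕ, aL k * (2 * Real.pi * CC f (Real.log k))) =
      ((2 * Real.pi : ℝ) : ℂ) * ∑ n ∈ Finset.Icc 1 ⌊Real.exp (2 * a)⌋₊, aL n * CC f (Real.log n) := by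
    rw [tsum_eq_sum (s := Finset.Icc 1 ⌊Real.exp (2 * a)⌋₊)]
    · rw [Finset.mul_sum]
      refine Finset.sum_congr rfl fun n _ => ?_
      push_cast
      ring
    · intro k hk
      rw [Finset.mem_Icc, not_and_or, not_le, not_le] at hk
      rcases hk with hk | hk
      · have : k = 0 := by omega
        rw [this, aL_zero, zero_mul]
      · have h1 : Real.exp (2 * a) < k := Nat.lt_of_floor_lt hk
        have h2 : 2 * a < Real.log k := by
          rw [Real.lt_log_iff_exp_lt ((Real.exp_pos _).trans h1)]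
          exact h1
        rw [CC_zero hf.1 h2]
        simp
  rw [hfin, Complex.re_ofReal_mul] at hlim
  have eG : (GG f f (1 / 2)).re = (TT f (1 / 2) * conj (TT f (-(1 / 2)))).re := by
    have c1 : -conj (1 / 2 : ℂ) = -(1 / 2) := by rw [map_div₀, map_one, map_ofNat]
    unfold GG
    rw [c1]
  rw [eG] at hlim
  have e5 : (∑ n ∈ Finset.Icc 1 ⌊Real.exp (2 * a)⌋₊, aL n * ∫ x : ℝ, f (x + Real.log n) * conj (f x)) =
    ∑ n ∈ Finset.Icc 1 ⌊Real.exp (2 * a)⌋₊, aL n * CC f (Real.log n) := rfl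
  rw [e5]
  set Sm := (∑ n ∈ Finset.Icc 1 ⌊Real.exp (2 * a)⌋₊, aL n * CC f (Real.log n)).re
  set X := (TT f (1 / 2) * conj (TT f (-(1 / 2)))).re
  set Y := ∫ v : ℝ, GD v * ‖TT f (v * I)‖ ^ 2
  have hpi := Real.pi_pos
  have h10 : 2 * Real.pi * QQ f = Y + 4 * Real.pi * L.r * X - 2 * (2 * Real.pi * Sm) := hlim
  field_simp
  linarith

end Pool.Agent.Y23.G
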