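import Pool.Agent.Y23.G.Zd

/-! # The Weil form -/

set_option autoImplicit false
set_option maxHeartbeats 2000000

open Complex Filter Topology Set MeasureTheory
open scoped ComplexConjugate

namespace Pool.Agent.Y23.G

lemma exp_neg_le_inv {δ x : ℝ} (hδ : 0 < δ) : Real.exp (-δ * x ^ 2) ≤ (1 + 1 / δ) * (1 / (1 + x ^ 2)) := by
  have h1 : 1 + δ * x ^ 2 ≤ Real.exp (δ * x ^ 2) := by
    have := Real.add_one_le_exp (δ * x ^ 2)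
    linarith
  have h2 : Real.exp (-δ * x ^ 2) = (Real.exp (δ * x ^ 2))⁻¹ := by
    rw [neg_mul, Real.exp_neg]
  rw [h2]
  have h3 : (Real.exp (δ * x ^ 2))⁻¹ ≤ (1 + δ * x ^ 2)⁻¹ := by
    apply inv_anti₀ (by positivity) h1
  refine h3.trans ?_
  rw [mul_one_div, inv_eq_one_div, div_le_div_iff₀ (by positivity) (by positivity)]
  have : 0 ≤ x ^ 2 := sq_nonneg _
  have h4 : (1 + 1 / δ) * (1 + δ * x ^ 2) = 1 + x ^ 2 + (1 / δ + δ * x ^ 2) := by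
    field_simp
    ring
  rw [h4, one_mul]
  have : 0 ≤ 1 / δ + δ * x ^ 2 := by positivity
  linarith

/-- the decay hypothesis used in this file -/
def Dec (h : ℂ → ℂ) (M δ : ℝ) : Prop :=
  Differentiable ℂ h ∧ ∀ w : ℂ, |w.re| ≤ 2 → ‖h w‖ ≤ M * Real.exp (-δ * w.im ^ 2)

lemma dec_cont {h : ℂ → ℂ} {M δ : ℝ} (hh : Dec h M δ) (σ : ℝ) :
    Continuous (fun v : ℝ => h (⟨σ, v⟩ : ℂ)) := by
  have : (fun v : ℝ => h (⟨σ, v⟩ : ℂ)) = fun v : ℝ => h ((σ : ℂ) + v * I) := by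
    funext v; congr 1; apply Complex.ext <;> simp
  rw [this]
  exact hh.1.continuous.comp (by fun_prop)

lemma dec_line {h : ℂ → ℂ} {M δ : ℝ} (hh : Dec h M δ) {σ : ℝ} (hσ : |σ| ≤ 2) (v : ℝ) :
    ‖h (⟨σ, v⟩ : ℂ)‖ ≤ M * Real.exp (-δ * v ^ 2) := hh.2 ⟨σ, v⟩ hσ

lemma dec_int {h : ℂ → ℂ} {M δ : ℝ} (hδ : 0 < δ) (hh : Dec h M δ) {σ : ℝ} (hσ : |σ| ≤ 2) :
    Integrable (fun v : ℝ => h (⟨σ, v⟩ : ℂ)) :=
  ((integrable_exp_neg_mul_sq hδ).const_mul M).mono' (dec_cont hh σ).aestronglyMeasurable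
    (Eventually.of_forall fun v => dec_line hh hσ v)

lemma int_part_le {g : ℝ → ℂ} (hg : Integrable g) {φ : ℝ → ℂ} {K U1 U2 : ℝ} (hU : U1 ≤ U2) (hK : 0 ≤ K)
    (hb : ∀ v ∈ Ioc U1 U2, ‖φ v‖ ≤ K * ‖g v‖) :
    ‖∫ v in U1..U2, φ v‖ ≤ K * ∫ v, ‖g v‖ := by
  calc ‖∫ v in U1..U2, φ v‖ ≤ ∫ v in U1..U2, K * ‖g v‖ := by
        apply intervalIntegral.norm_integral_le_of_norm_le hU
        · exact Eventually.of_forall fun v hv => hb v hv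
        · exact (hg.norm.const_mul K).intervalIntegrable
    _ = ∫ v in Ioc U1 U2, K * ‖g v‖ := by rw [intervalIntegral.integral_of_le hU]
    _ ≤ ∫ v : ℝ, K * ‖g v‖ := by
        apply setIntegral_le_integral (hg.norm.const_mul K)
        exact Eventually.of_forall fun v => by positivity
    _ = _ := by rw [integral_const_mul]

lemma sub_half (x y : ℝ) : (⟨x, y⟩ : ℂ) - 1 / 2 = ⟨x - 1 / 2, y⟩ := by
  apply Complex.ext <;> simp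

/-- the product `F F^*` -/
noncomputable def GG (f g : ℝ → ℂ) (w : ℂ) : ℂ := TT f w * conj (TT g (-conj w))

lemma GG_diff {a b : ℝ} {f g : ℝ → ℂ} (hf : Fa a f) (hg : Fa b g) : Differentiable ℂ (GG f g) := by
  intro w
  refine (differentiable_TT hf w).mul ?_
  have h1 : DifferentiableAt ℂ (fun z : ℂ => TT g (-z)) (conj w) := by
    have := differentiable_TT hg (-(conj w))
    exact this.comp (conj w) differentiable_neg.differentiableAt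
  have h2 := h1.hasDerivAt.conj_conj
  rw [Complex.conj_conj] at h2
  exact h2.differentiableAt

lemma norm_GG_le {a : ℝ} (ha : 0 < a) {f : ℝ → ℂ} (hf : Fa a f) {w : ℂ} (hw : |w.re| ≤ 2) :
    ‖GG f f w‖ ≤ 2 * a * Real.exp (4 * a) * N2 f := by
  have hN := N2_nonneg f
  have h1 := norm_TT_le ha hf w
  have h2 := norm_TT_le ha hf (-conj w)
  have e : (-conj w).re = -w.re := by simp
  rw [e, abs_neg] at h2
  have h3 : 2 * a * Real.exp (2 * a * |w.re|) * N2 f ≤ 2 * a * Real.exp (4 * a) * N2 f := by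
    have : Real.exp (2 * a * |w.re|) ≤ Real.exp (4 * a) := by
      apply Real.exp_le_exp.2
      nlinarith
    gcongr
  unfold GG
  rw [norm_mul, RCLike.norm_conj]
  nlinarith [sq_nonneg (‖TT f w‖ - ‖TT f (-conj w)‖), norm_nonneg (TT f w), norm_nonneg (TT f (-conj w))]

/-- regularised product -/
noncomputable def hdl (f : ℝ → ℂ) (δ : ℝ) (w : ℂ) : ℂ := GG f f w * cexp (δ * w ^ 2)

lemma norm_gauss {δ : ℝ} (hδ1 : δ ≤ 1) {w : ℂ} (hw : |w.re| ≤ 2) :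
    ‖cexp (δ * w ^ 2)‖ ≤ 60 * Real.exp (-δ * w.im ^ 2) := by
  rw [Complex.norm_exp]
  have e : ((δ : ℂ) * w ^ 2).re = δ * w.re ^ 2 + -δ * w.im ^ 2 := by
    rw [Complex.re_ofReal_mul, sq, Complex.mul_re]
    ring
  rw [e, Real.exp_add]
  refine mul_le_mul_of_nonneg_right ?_ (Real.exp_pos _).le
  have h1 : w.re ^ 2 ≤ 4 := by
    rw [← sq_abs]
    have := abs_nonneg w.re
    nlinarith
  have h2 : δ * w.re ^ 2 ≤ 4 := by nlinarith [sq_nonneg w.re]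
  have h3 := Real.exp_le_exp.2 h2
  have h4 : Real.exp 4 ≤ 60 := by
    have h5 := Real.exp_one_lt_d9
    have h6 : Real.exp 4 = Real.exp 1 ^ 4 := by rw [← Real.exp_nat_mul]; norm_num
    rw [h6]
    have h7 : Real.exp 1 ^ 4 ≤ 2.7182818286 ^ 4 := pow_le_pow_left₀ (Real.exp_pos 1).le h5.le 4
    refine h7.trans ?_
    norm_num
  linarith

lemma hdl_dec {a δ : ℝ} (ha : 0 < a) (_ : 0 < δ) (hδ1 : δ ≤ 1) {f : ℝ → ℂ} (hf : Fa a f) :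
    Dec (hdl f δ) (120 * a * Real.exp (4 * a) * N2 f) δ := by
  refine ⟨?_, fun w hw => ?_⟩
  · unfold hdl
    exact (GG_diff hf hf).mul (by fun_prop)
  · unfold hdl
    rw [norm_mul]
    have h1 := norm_GG_le ha hf hw
    have h2 := norm_gauss hδ1 hw
    have hN := N2_nonneg f
    calc ‖GG f f w‖ * ‖cexp (δ * w ^ 2)‖ ≤ (2 * a * Real.exp (4 * a) * N2 f) * (60 * Real.exp (-δ * w.im ^ 2)) :=
          mul_le_mul h1 h2 (norm_nonneg _) (by positivity)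
      _ = _ := by ring

lemma mk_tI (x y : ℝ) : (⟨x, y⟩ : ℂ) = (x : ℂ) + y * I := by
  apply Complex.ext <;> simp

lemma line_one {a : ℝ} {f : ℝ → ℂ} (hf : Fa a f) (ha : 0 < a) {σ : ℝ} (hσ : |σ| ≤ 2) {δ : ℝ} (hδ : 0 < δ) (hδ1 : δ ≤ 1) :
    ∫ v : ℝ, ‖hdl f δ (⟨σ, v⟩ : ℂ)‖ ≤ 120 * Real.pi * Real.exp (4 * a) * N2 f := by
  have hN := N2_nonneg f
  have hb : ∀ v : ℝ, ‖hdl f δ (⟨σ, v⟩ : ℂ)‖ ≤ 30 * (‖TT f (σ + v * I)‖ ^ 2 + ‖TT f ((-σ : ℝ) + v * I)‖ ^ 2) := by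
    intro v
    unfold hdl
    rw [norm_mul]
    have h2 := norm_gauss (w := (⟨σ, v⟩ : ℂ)) hδ1 (by show |σ| ≤ 2; exact hσ)
    have h3 : Real.exp (-δ * (⟨σ, v⟩ : ℂ).im ^ 2) ≤ 1 := by
      rw [Real.exp_le_one_iff]
      have := sq_nonneg (⟨σ, v⟩ : ℂ).im
      nlinarith
    have h4 : ‖cexp (δ * (⟨σ, v⟩ : ℂ) ^ 2)‖ ≤ 60 := by linarith
    have h5 : -conj (⟨σ, v⟩ : ℂ) = ((-σ : ℝ) : ℂ) + v * I := by
      apply Complex.ext <;> simp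
    unfold GG
    rw [norm_mul, RCLike.norm_conj, h5, mk_tI]
    rw [mk_tI] at h4
    nlinarith [sq_nonneg (‖TT f (σ + v * I)‖ - ‖TT f ((-σ : ℝ) + v * I)‖), norm_nonneg (TT f (σ + v * I)),
      norm_nonneg (TT f ((-σ : ℝ) + v * I)), mul_nonneg (norm_nonneg (TT f (σ + v * I))) (norm_nonneg (TT f ((-σ : ℝ) + v * I)))]
  have i1 := int_line_sq hf σ
  have i2 := int_line_sq hf (-σ)
  have l1 := line_sq_le hf σ
  have l2 := line_sq_le hf (-σ)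
  rw [abs_neg] at l2
  have hexp : Real.exp (2 * a * |σ|) ≤ Real.exp (4 * a) := Real.exp_le_exp.2 (by nlinarith)
  have hpe : Real.pi * (Real.exp (2 * a * |σ|) * N2 f) ≤ Real.pi * (Real.exp (4 * a) * N2 f) :=
    mul_le_mul_of_nonneg_left (mul_le_mul_of_nonneg_right hexp hN) Real.pi_pos.le
  have hdec := hdl_dec ha hδ hδ1 hf
  calc ∫ v : ℝ, ‖hdl f δ (⟨σ, v⟩ : ℂ)‖ ≤ ∫ v : ℝ, 30 * (‖TT f (σ + v * I)‖ ^ 2 + ‖TT f ((-σ : ℝ) + v * I)‖ ^ 2) :=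
        integral_mono (dec_int hδ hdec hσ).norm ((i1.add i2).const_mul _) hb
    _ = 30 * ((∫ v : ℝ, ‖TT f (σ + v * I)‖ ^ 2) + ∫ v : ℝ, ‖TT f ((-σ : ℝ) + v * I)‖ ^ 2) := by
        rw [integral_const_mul, integral_add i1 i2]
    _ ≤ _ := by linarith


lemma GG_line (f : ℝ → ℂ) (v : ℝ) : GG f f (⟨0, v⟩ : ℂ) = ((‖TT f (v * I)‖ ^ 2 : ℝ) : ℂ) := by
  have h5 : -conj (⟨0, v⟩ : ℂ) = (v : ℂ) * I := by
    apply Complex.ext <;> simp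
  have h6 : (⟨0, v⟩ : ℂ) = (v : ℂ) * I := by
    apply Complex.ext <;> simp
  unfold GG
  rw [h5, h6, Complex.mul_conj, Complex.normSq_eq_norm_sq]

lemma hdl_line (f : ℝ → ℂ) (δ v : ℝ) :
    hdl f δ (⟨0, v⟩ : ℂ) = ((‖TT f (v * I)‖ ^ 2 * Real.exp (-δ * v ^ 2) : ℝ) : ℂ) := by
  unfold hdl
  rw [GG_line]
  have : cexp (δ * (⟨0, v⟩ : ℂ) ^ 2) = ((Real.exp (-δ * v ^ 2) : ℝ) : ℂ) := by
    rw [Complex.ofReal_exp]
    congr 1
    have h6 : (⟨0, v⟩ : ℂ) = (v : ℂ) * I := by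
      apply Complex.ext <;> simp
    rw [h6, mul_pow, I_sq]
    push_cast
    ring
  rw [this]
  push_cast
  ring

variable [D : ZD]

lemma half_re (ρ : Zt) : |((ρ : ℂ) - 1 / 2).re| ≤ 1 := by
  have e : ((ρ : ℂ) - 1 / 2).re = (ρ : ℂ).re - 1 / 2 := by simp
  rw [e]
  exact ZD.strip _ ρ.2

lemma dec_summable {h : ℂ → ℂ} {M δ : ℝ} (hδ : 0 < δ) (hM : 0 ≤ M) (hh : Dec h M δ) :
    Summable (fun ρ : Zt => ‖(mu ρ : ℂ) * h ((ρ : ℂ) - 1 / 2)‖) := by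
  refine Summable.of_nonneg_of_le (fun _ => norm_nonneg _) (fun ρ => ?_)
    ((zsummable 0).mul_left (M * (1 + 1 / δ)))
  have h1 := hh.2 ((ρ : ℂ) - 1 / 2) ((half_re ρ).trans (by norm_num))
  have e2 : ((ρ : ℂ) - 1 / 2).im = (ρ : ℂ).im := by simp
  rw [e2] at h1
  have h2 := exp_neg_le_inv (x := (ρ : ℂ).im) hδ
  rw [norm_mul, Complex.norm_natCast, sub_zero]
  have h3 : ‖h ((ρ : ℂ) - 1 / 2)‖ ≤ M * ((1 + 1 / δ) * (1 / (1 + (ρ : ℂ).im ^ 2))) :=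
    h1.trans (mul_le_mul_of_nonneg_left h2 hM)
  calc (mu ρ : ℝ) * ‖h ((ρ : ℂ) - 1 / 2)‖ ≤ (mu ρ : ℝ) * (M * ((1 + 1 / δ) * (1 / (1 + (ρ : ℂ).im ^ 2)))) :=
        mul_le_mul_of_nonneg_left h3 (Nat.cast_nonneg _)
    _ = _ := by ring

/-- the form domain -/
def Dom (f : ℝ → ℂ) : Prop := Summable (fun ρ : Zt => (mu ρ : ℝ) * ‖TT f ((ρ : ℂ) - 1 / 2)‖ ^ 2)

/-- the Weil form -/
noncomputable def QQ (f : ℝ → ℂ) : ℝ := ∑' ρ : Zt, (mu ρ : ℝ) * (GG f f ((ρ : ℂ) - 1 / 2)).re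

/-- the reflection on the set of zeros -/
noncomputable def rfZ : Zt ≃ Zt where
  toFun ρ := ⟨1 - conj (ρ : ℂ), D.refl _ ρ.2⟩
  invFun ρ := ⟨1 - conj (ρ : ℂ), D.refl _ ρ.2⟩
  left_inv ρ := by ext1; simp
  right_inv ρ := by ext1; simp

lemma rfZ_val (ρ : Zt) : ((rfZ ρ : Zt) : ℂ) = 1 - conj (ρ : ℂ) := rfl

lemma rfZ_rfZ (ρ : Zt) : rfZ (rfZ ρ) = ρ := rfZ.left_inv ρ

lemma rfZ_sub (ρ : Zt) : ((rfZ ρ : Zt) : ℂ) - 1 / 2 = -conj ((ρ : ℂ) - 1 / 2) := by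
  rw [rfZ_val, map_sub, map_div₀, map_one, map_ofNat]
  ring

lemma mu_rfZ (ρ : Zt) : mu (rfZ ρ : Zt) = mu ρ := by
  rw [rfZ_val]; exact ZD.mrefl _ ρ.2


lemma Dom.refl {f : ℝ → ℂ} (h : Dom f) :
    Summable (fun ρ : Zt => (mu ρ : ℝ) * ‖TT f (-conj ((ρ : ℂ) - 1 / 2))‖ ^ 2) := by
  have h1 := (rfZ.summable_iff (f := fun ρ : Zt => (mu ρ : ℝ) * ‖TT f ((ρ : ℂ) - 1 / 2)‖ ^ 2)).2 h
  refine h1.congr fun ρ => ?_
  simp only [Function.comp]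
  rw [mu_rfZ, rfZ_sub]

/-- the sum over the zeros of the regularised product -/
noncomputable def Sd (f : ℝ → ℂ) (δ : ℝ) : ℝ := ∑' ρ : Zt, (mu ρ : ℝ) * (hdl f δ ((ρ : ℂ) - 1 / 2)).re

lemma Sd_tendsto {f : ℝ → ℂ} (hD : Dom f) {d : ℕ → ℝ} (hd0 : ∀ n, 0 < d n) (hd1 : ∀ n, d n ≤ 1)
    (hd : Tendsto d atTop (𝓝 0)) : Tendsto (fun n => Sd f (d n)) atTop (𝓝 (QQ f)) := by
  unfold Sd QQ
  have hs : Summable (fun ρ : Zt => 30 * ((mu ρ : ℝ) * ‖TT f ((ρ : ℂ) - 1 / 2)‖ ^ 2 +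
      (mu ρ : ℝ) * ‖TT f (-conj ((ρ : ℂ) - 1 / 2))‖ ^ 2)) := (hD.add hD.refl).mul_left _
  refine tendsto_tsum_of_dominated_convergence hs ?_ ?_
  · intro ρ
    refine Tendsto.const_mul _ ?_
    have h1 : Tendsto (fun n => hdl f (d n) ((ρ : ℂ) - 1 / 2)) atTop (𝓝 (GG f f ((ρ : ℂ) - 1 / 2) * 1)) := by
      unfold hdl
      refine Tendsto.const_mul _ ?_
      have h2 : Continuous (fun δ : ℝ => cexp (δ * ((ρ : ℂ) - 1 / 2) ^ 2)) := by fun_prop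
      have h3 := (h2.tendsto 0).comp hd
      simpa [Function.comp_def] using h3
    rw [mul_one] at h1
    exact (Complex.continuous_re.tendsto _).comp h1
  · refine Eventually.of_forall fun n ρ => ?_
    rw [Real.norm_eq_abs, abs_mul, abs_of_nonneg (Nat.cast_nonneg _ : (0 : ℝ) ≤ (mu ρ : ℝ))]
    have h1 := Complex.abs_re_le_norm (hdl f (d n) ((ρ : ℂ) - 1 / 2))
    have h2 := norm_gauss (w := (ρ : ℂ) - 1 / 2) (hd1 n) ((half_re ρ).trans (by norm_num))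
    have h3 : Real.exp (-(d n) * ((ρ : ℂ) - 1 / 2).im ^ 2) ≤ 1 := by
      rw [Real.exp_le_one_iff]
      have := sq_nonneg ((ρ : ℂ) - 1 / 2).im
      have := hd0 n
      nlinarith
    have h4 : ‖hdl f (d n) ((ρ : ℂ) - 1 / 2)‖ ≤ 30 * (‖TT f ((ρ : ℂ) - 1 / 2)‖ ^ 2 +
        ‖TT f (-conj ((ρ : ℂ) - 1 / 2))‖ ^ 2) := by
      unfold hdl GG
      rw [norm_mul, norm_mul, RCLike.norm_conj]
      set A := ‖TT f ((ρ : ℂ) - 1 / 2)‖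
      set B := ‖TT f (-conj ((ρ : ℂ) - 1 / 2))‖
      have hA : 0 ≤ A := norm_nonneg _
      have hB : 0 ≤ B := norm_nonneg _
      have h5 : ‖cexp ((d n : ℝ) * ((ρ : ℂ) - 1 / 2) ^ 2)‖ ≤ 60 := by linarith
      have h6 : A * B * ‖cexp ((d n : ℝ) * ((ρ : ℂ) - 1 / 2) ^ 2)‖ ≤ A * B * 60 :=
        mul_le_mul_of_nonneg_left h5 (mul_nonneg hA hB)
      nlinarith [sq_nonneg (A - B)]
    calc (mu ρ : ℝ) * |(hdl f (d n) ((ρ : ℂ) - 1 / 2)).re| ≤ (mu ρ : ℝ) * (30 * (‖TT f ((ρ : ℂ) - 1 / 2)‖ ^ 2 +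
        ‖TT f (-conj ((ρ : ℂ) - 1 / 2))‖ ^ 2)) := mul_le_mul_of_nonneg_left (h1.trans h4) (Nat.cast_nonneg _)
      _ = _ := by ring


end Pool.Agent.Y23.G
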