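import Pool.Agent.Y23.G.Al

/-! # Normalisation of the generator -/

set_option autoImplicit false
set_option linter.unusedSectionVars false
set_option maxHeartbeats 2000000

open Complex Filter Topology Set MeasureTheory
open scoped ComplexConjugate

namespace Pool.Agent.Y23.G

variable [DZ : ZD] [EC : ZC]

/-- the reflection `x ↦ conj f(-x)` -/
noncomputable def sh' (f : ℝ → ℂ) (x : ℝ) : ℂ := conj (f (-x))

lemma TT_sh (f : ℝ → ℂ) (w : ℂ) : TT (sh' f) w = conj (TT f (-conj w)) := by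
  have h1 : TT (fun x => conj (f x)) (-w) = conj (TT f (-conj w)) := by
    rw [TT_conj, map_neg, Complex.conj_conj]
  rw [← h1]
  unfold TT sh'
  have h := integral_neg_eq_self (fun x : ℝ => conj (f (-x)) * cexp (w * x)) volume
  rw [← h]
  refine integral_congr_ae (Eventually.of_forall fun x => ?_)
  simp only [neg_neg]
  congr 2
  push_cast
  ring

lemma Fa_sh {a : ℝ} {f : ℝ → ℂ} (hf : Fa a f) : Fa a (sh' f) :=
  ⟨(hf.1.comp_measurePreserving (Measure.measurePreserving_neg volume)).star, fun x hx => by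
    show conj (f (-x)) = 0
    rw [hf.2 (-x) (by rwa [abs_neg]), map_zero]⟩

lemma line_neg_conj (v : ℝ) : -conj ((v : ℂ) * I) = v * I := by
  rw [map_mul, Complex.conj_I, Complex.conj_ofReal]; ring

lemma Hd_sh {a : ℝ} {f : ℝ → ℂ} (hf : Hd a f) : Hd a (sh' f) := by
  refine ⟨Fa_sh hf.1, ?_⟩
  refine hf.2.congr (Eventually.of_forall fun v => ?_)
  simp only
  rw [TT_sh, RCLike.norm_conj, line_neg_conj]

lemma N2_sh (f : ℝ → ℂ) : N2 (sh' f) = N2 f := by
  unfold N2 sh'
  simp only [RCLike.norm_conj]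
  exact integral_neg_eq_self (fun x => ‖f x‖ ^ 2) volume

lemma QQ_sh (f : ℝ → ℂ) : QQ (sh' f) = QQ f := by
  unfold QQ
  refine tsum_congr fun ρ => ?_
  congr 2
  unfold GG
  rw [TT_sh, TT_sh, Complex.conj_conj]
  have : -conj (-conj ((ρ : ℂ) - 1 / 2)) = (ρ : ℂ) - 1 / 2 := by
    rw [map_neg, Complex.conj_conj, neg_neg]
  rw [this, mul_comm]

lemma KK.sh {a : ℝ} {f : ℝ → ℂ} (hf : KK a f) : KK a (sh' f) := by
  refine ⟨Hd_sh hf.1, ?_⟩
  have := hf.2
  unfold bq at this ⊢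
  rw [QQ_sh, N2_sh, this]

/-- a polynomial with a polynomial inverse is constant -/
lemma poly_const {p q : Polynomial ℂ} (h : q * p = 1) : ∃ c : ℂ, p = Polynomial.C c ∧ c ≠ 0 := by
  have hu : IsUnit p := IsUnit.of_mul_eq_one q (by rw [mul_comm]; exact h)
  obtain ⟨c, hc, hcp⟩ := Polynomial.isUnit_iff.1 hu
  exact ⟨c, hcp.symm, hc.ne_zero⟩

lemma poly_one {r : Polynomial ℂ} {E : ℂ → ℂ} (hE : Differentiable ℂ E) {w1 : ℂ} (hE1 : E w1 ≠ 0)
    (h : ∀ w, r.eval w * E w = E w) : r = 1 := by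
  have h1 : ∀ w, (fun w => r.eval w - 1) w * E w = 0 := fun w => by
    simp only
    linear_combination h w
  have h2 := entire_mul_zero (r := fun w => r.eval w - 1) ((poly_diff r).sub_const 1) hE hE1 h1
  refine Polynomial.funext fun w => ?_
  rw [Polynomial.eval_one]
  exact sub_eq_zero.1 (h2 w)

/-- the reflection of the generator is a multiple of the generator -/
lemma GData.conj_mul {a : ℝ} (ha : 0 < a) {e : ℝ → ℂ} {N : ℕ} {w1 : ℂ} (h : GData a e N w1) :
    ∃ c : ℂ, c ≠ 0 ∧ ∀ w, conj (TT e (-conj w)) = c * TT e w := by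
  obtain ⟨p, _, hp⟩ := h.all ha h.mem.sh
  have h1 : ∀ w, conj (TT e (-conj w)) = p.eval w * TT e w := fun w => by rw [← TT_sh, hp]
  have h2 : ∀ w, TT e w = ((p.map (starRingEnd ℂ)).comp (-Polynomial.X)).eval w * conj (TT e (-conj w)) := by
    intro w
    have h3 := congrArg (starRingEnd ℂ) (h1 (-conj w))
    have e0 : -conj (-conj w) = w := by rw [map_neg, Complex.conj_conj, neg_neg]
    rw [e0, Complex.conj_conj, map_mul] at h3
    rw [h3]
    congr 1
    have h4 := Polynomial.eval_map_apply (f := starRingEnd ℂ) (p := p) (-conj w)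
    rw [← h4, Polynomial.eval_comp, Polynomial.eval_neg, Polynomial.eval_X, map_neg, Complex.conj_conj]
  have h3 := poly_one (r := (p.map (starRingEnd ℂ)).comp (-Polynomial.X) * p) (differentiable_TT h.mem.1.1) h.nz (fun w => by
    rw [Polynomial.eval_mul, mul_assoc, ← h1, ← h2])
  obtain ⟨c, hc, hc0⟩ := poly_const h3
  refine ⟨c, hc0, fun w => ?_⟩
  rw [h1, hc, Polynomial.eval_C]

lemma GData.smul {a : ℝ} {e : ℝ → ℂ} {N : ℕ} {w1 : ℂ} (h : GData a e N w1) {c : ℂ} (hc : c ≠ 0) :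
    GData a (fun x => c * e x) N w1 := by
  refine ⟨h.mem.smul c, h.off, ?_, fun j hj => ?_, h.max⟩
  · rw [TT_smul]; exact mul_ne_zero hc h.nz
  · obtain ⟨g, hg, h1⟩ := h.pow j hj
    refine ⟨fun x => c * g x, hg.smul c, fun w => ?_⟩
    rw [TT_smul, TT_smul, h1]; ring

/-- a real generator -/
lemma exists_real_data {a : ℝ} (ha : 0 < a) : ∃ (e : ℝ → ℂ) (N : ℕ) (w1 : ℂ), GData a e N w1 ∧
    ∀ w, TT e (-conj w) = conj (TT e w) := by
  obtain ⟨e, N, w1, h⟩ := exists_data ha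
  obtain ⟨c, hc0, hc⟩ := h.conj_mul ha
  by_cases h1 : c = -1
  · refine ⟨fun x => I * e x, N, w1, h.smul I_ne_zero, fun w => ?_⟩
    have h2 := hc w
    rw [h1] at h2
    have h3 : TT e (-conj w) = -conj (TT e w) := by
      have := congrArg (starRingEnd ℂ) h2
      rw [Complex.conj_conj, map_mul, map_neg, map_one] at this
      rw [this]; ring
    rw [TT_smul, TT_smul, map_mul, Complex.conj_I, h3]
    ring
  · have h2 : 1 + c ≠ 0 := by
      intro h3
      exact h1 (by linear_combination h3)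
    refine ⟨fun x => (1 + c) * e x, N, w1, h.smul h2, fun w => ?_⟩
    have h3 : ∀ w, TT (fun x => (1 + c) * e x) w = TT e w + conj (TT e (-conj w)) := by
      intro w
      rw [TT_smul, hc]; ring
    have e0 : -conj (-conj w) = w := by rw [map_neg, Complex.conj_conj, neg_neg]
    rw [h3, h3, map_add, e0, Complex.conj_conj, add_comm]

/-- the structure theorem -/
theorem structure_thm {a : ℝ} (ha : 0 < a) : ∃ (e : ℝ → ℂ) (N : ℕ), KK a e ∧ N2 e ≠ 0 ∧
    (∀ w, TT e (-conj w) = conj (TT e w)) ∧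
    (∀ w, TT e w = 0 → w.re = 0 ∧ deriv (TT e) w ≠ 0) ∧
    (∀ f, Hd a f → (KK a f ↔ ∃ p : Polynomial ℂ, p.natDegree ≤ N ∧ ∀ w, TT f w = p.eval w * TT e w)) := by
  obtain ⟨e, N, w1, h, hreal⟩ := exists_real_data ha
  refine ⟨e, N, h.mem, fun h0 => h.nz (TT_zero_of_N2 ha h.mem.1.1 h0 w1), hreal,
    fun w hw => ⟨h.line ha hw, h.simple ha hw⟩, fun f hf => ⟨fun hK => h.all ha hK, ?_⟩⟩
  rintro ⟨p, hp, h1⟩
  obtain ⟨g, hg, h2⟩ := h.poly ha p hp
  exact hg.congr hf fun w => by rw [h1, h2]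

end Pool.Agent.Y23.G
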