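import Pool.Agent.Y23.G.Gs

/-! # The order of vanishing of ground states is bounded -/

set_option autoImplicit false
set_option linter.unusedSectionVars false
set_option maxHeartbeats 2000000

open Complex Filter Topology Set MeasureTheory
open scoped ComplexConjugate

namespace Pool.Agent.Y23.G

variable [DZ : ZD] [EC : ZC]

lemma Fa_pow {a : ℝ} {f : ℝ → ℂ} (hf : Fa a f) (k : ℕ) : Fa a (fun x => f x * (x : ℂ) ^ k) :=
  hf.mul_bdd (by fun_prop)

lemma iteratedDeriv_TT {a : ℝ} {f : ℝ → ℂ} (hf : Fa a f) (k : ℕ) :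
    iteratedDeriv k (TT f) = TT (fun x => f x * (x : ℂ) ^ k) := by
  induction k with
  | zero => simp
  | succ k ih =>
    rw [iteratedDeriv_succ, ih]
    funext w
    rw [(hasDerivAt_TT (Fa_pow hf k) w).deriv]
    congr 1
    funext x
    rw [pow_succ, mul_assoc]

lemma N2_pow {a : ℝ} {f : ℝ → ℂ} (hf : Fa a f) (k : ℕ) :
    N2 (fun x => f x * (x : ℂ) ^ k) ≤ (a ^ 2) ^ k * N2 f := by
  induction k with
  | zero => simp
  | succ k ih =>
    have h1 := N2_mul_x (Fa_pow hf k)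
    have e : (fun x : ℝ => f x * (x : ℂ) ^ (k + 1)) = fun x : ℝ => f x * (x : ℂ) ^ k * (x : ℂ) := by
      funext x; rw [pow_succ, mul_assoc]
    rw [e]
    calc _ ≤ a ^ 2 * N2 (fun x => f x * (x : ℂ) ^ k) := h1
      _ ≤ a ^ 2 * ((a ^ 2) ^ k * N2 f) := mul_le_mul_of_nonneg_left ih (sq_nonneg _)
      _ = _ := by ring

lemma norm_iteratedDeriv_TT {a : ℝ} (ha : 0 < a) {f : ℝ → ℂ} (hf : Fa a f) (k : ℕ) (w : ℂ) :
    ‖iteratedDeriv k (TT f) w‖ ^ 2 ≤ 2 * a * Real.exp (2 * a * |w.re|) * ((a ^ 2) ^ k * N2 f) := by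
  rw [iteratedDeriv_TT hf]
  refine (norm_TT_le ha (Fa_pow hf k) w).trans ?_
  have := N2_pow hf k
  gcongr

lemma TT_an {a : ℝ} {f : ℝ → ℂ} (hf : Fa a f) (w : ℂ) : AnalyticAt ℂ (TT f) w :=
  (differentiable_TT hf).analyticAt w

/-- the identity theorem -/
lemma entire_zero {F : ℂ → ℂ} (hF : Differentiable ℂ F) {w : ℂ} (h : analyticOrderAt F w = ⊤) (z : ℂ) : F z = 0 := by
  rw [analyticOrderAt_eq_top] at h
  have h1 : AnalyticOnNhd ℂ F univ := fun z _ => hF.analyticAt z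
  exact h1.eqOn_zero_of_preconnected_of_eventuallyEq_zero isPreconnected_univ (mem_univ w) h (mem_univ z)

theorem order_bound {a : ℝ} (ha : 0 < a) (w1 : ℂ) : ∃ N : ℕ, ∀ f : ℝ → ℂ, KK a f → N2 f ≠ 0 →
    analyticOrderAt (TT f) w1 < (N : ℕ∞) := by
  by_contra hcon
  push Not at hcon
  choose f hf hN hord using hcon
  -- normalisation
  have hNp : ∀ n, 0 < N2 (f n) := fun n => lt_of_le_of_ne (N2_nonneg _) (Ne.symm (hN n))
  set c : ℕ → ℂ := fun n => ((1 / Real.sqrt (N2 (f n)) : ℝ) : ℂ) with hc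
  have hc2 : ∀ n, ‖c n‖ ^ 2 = 1 / N2 (f n) := fun n => by
    simp only [hc]
    rw [Complex.norm_real, Real.norm_eq_abs, sq_abs, div_pow, Real.sq_sqrt (hNp n).le, one_pow]
  set g : ℕ → ℝ → ℂ := fun n x => c n * f n x with hg
  have hgK : ∀ n, KK a (g n) := fun n => (hf n).smul (c n)
  have hgN : ∀ n, N2 (g n) = 1 := fun n => by
    simp only [hg]
    rw [N2_smul, hc2]
    exact one_div_mul_cancel (hNp n).ne'
  have hder : ∀ n k : ℕ, k < n → iteratedDeriv k (TT (g n)) w1 = 0 := by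
    intro n k hk
    have h1 := (natCast_le_analyticOrderAt_iff_iteratedDeriv_eq_zero (TT_an (hf n).1.1 w1)).1 (hord n) k hk
    rw [iteratedDeriv_TT (hf n).1.1] at h1
    rw [iteratedDeriv_TT (hgK n).1.1]
    have e : (fun x : ℝ => g n x * (x : ℂ) ^ k) = fun x : ℝ => c n * (f n x * (x : ℂ) ^ k) := by
      funext x; simp only [hg]; ring
    rw [e, TT_smul, h1, mul_zero]
  obtain ⟨φ, G, hφ, hG, hG2, hlim⟩ := key_seq ha (fun n => (hgK n).1) hgN (by
    have : (fun n => bq (GM a) (g n)) = fun _ => 0 := by funext n; exact (hgK n).2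
    rw [this]; exact tendsto_const_nhds)
  have hGder : ∀ k : ℕ, iteratedDeriv k (TT G) w1 = 0 := by
    intro k
    have h1 : ∀ ε : ℝ, 0 < ε → ‖iteratedDeriv k (TT G) w1‖ ^ 2 ≤ ε := by
      intro ε hε
      set K := 2 * a * Real.exp (2 * a * |w1.re|) * (a ^ 2) ^ k with hK
      have hK0 : 0 < K := by positivity
      obtain ⟨N, hN'⟩ := hlim (ε / K) (by positivity)
      set n := max N (k + 1) with hn
      have h2 := hN' n (le_max_left _ _)
      have hd := (hgK (φ n)).1.sub hG.1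
      have h3 := norm_iteratedDeriv_TT ha hd.1 k w1
      have h4 : iteratedDeriv k (TT (fun x => g (φ n) x - G x)) w1 = -iteratedDeriv k (TT G) w1 := by
        have h5 := hder (φ n) k (lt_of_lt_of_le (Nat.lt_of_succ_le (le_max_right N (k + 1))) (hφ.id_le n))
        rw [iteratedDeriv_TT (hgK (φ n)).1.1] at h5
        rw [iteratedDeriv_TT hd.1, iteratedDeriv_TT hG.1.1]
        have e : (fun x : ℝ => (g (φ n) x - G x) * (x : ℂ) ^ k) =
            fun x : ℝ => (g (φ n) x * (x : ℂ) ^ k) - (G x * (x : ℂ) ^ k) := by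
          funext x; ring
        rw [e, TT_sub (Fa_pow (hgK (φ n)).1.1 k) (Fa_pow hG.1.1 k), h5, zero_sub]
      rw [h4, norm_neg] at h3
      have h5 := N2_le_LL hd
      have h6 := N2_nonneg (fun x => g (φ n) x - G x)
      have h7 : N2 (fun x => g (φ n) x - G x) ≤ ε / K := by nlinarith [Real.pi_gt_three]
      calc ‖iteratedDeriv k (TT G) w1‖ ^ 2 ≤ K * N2 (fun x => g (φ n) x - G x) := by
            rw [hK]; linarith
        _ ≤ K * (ε / K) := mul_le_mul_of_nonneg_left h7 hK0.le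
        _ = ε := mul_div_cancel₀ _ hK0.ne'
    have h2 : ‖iteratedDeriv k (TT G) w1‖ ^ 2 = 0 :=
      le_antisymm (le_of_forall_pos_le_add fun ε hε => by rw [zero_add]; exact h1 ε hε) (sq_nonneg _)
    exact norm_eq_zero.1 (pow_eq_zero_iff two_ne_zero |>.1 h2)
  have htop : analyticOrderAt (TT G) w1 = ⊤ := by
    rw [ENat.eq_top_iff_forall_ge]
    intro n
    exact (natCast_le_analyticOrderAt_iff_iteratedDeriv_eq_zero (TT_an hG.1.1 w1)).2 fun i _ => hGder i
  have h0 := N2_zero_of_TT hG.1.1 (entire_zero (differentiable_TT hG.1.1) htop)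
  rw [h0] at hG2
  norm_num at hG2

end Pool.Agent.Y23.G
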