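import Pool.Agent.Y23.G.No

/-! # A spectral gap inequality -/

set_option autoImplicit false
set_option linter.unusedSectionVars false
set_option maxHeartbeats 2000000

open Complex Filter Topology Set MeasureTheory
open scoped ComplexConjugate

namespace Pool.Agent.Y23.G

variable [DZ : ZD] [EC : ZC]

/-- log-convex sequences with geometric growth -/
lemma logconv {b : ℕ → ℝ} {D q : ℝ} (hb : ∀ n, 0 ≤ b n) (hq : 0 < q) (hc : ∀ n, b (n + 1) ^ 2 ≤ b n * b (n + 2))
    (hD : ∀ n, b n ≤ D * q ^ n) : b 1 ≤ q * b 0 := by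
  by_contra hcon
  rw [not_le] at hcon
  have hb0 : 0 < b 0 := by
    refine lt_of_le_of_ne (hb 0) fun h => ?_
    have h1 := hc 0
    rw [← h, zero_mul] at h1
    rw [← h, mul_zero] at hcon
    have : 0 < b (0 + 1) ^ 2 := pow_pos hcon 2
    linarith
  set ρ := b 1 / b 0 with hρ
  have hρq : q < ρ := by rw [hρ, lt_div_iff₀ hb0]; exact hcon
  have hρ0 : 0 < ρ := hq.trans hρq
  have key : ∀ n, 0 < b n ∧ ρ * b n ≤ b (n + 1) := by
    intro n
    induction n with
    | zero => exact ⟨hb0, by rw [hρ, div_mul_cancel₀ _ hb0.ne']⟩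
    | succ n ih =>
      obtain ⟨h1, h2⟩ := ih
      have h3 : 0 < b (n + 1) := lt_of_lt_of_le (by positivity) h2
      refine ⟨h3, ?_⟩
      have h4 := hc n
      have h5 : ρ * b (n + 1) * b n ≤ b (n + 2) * b n := by nlinarith
      exact le_of_mul_le_mul_right h5 h1
  have h1 : ∀ n, ρ ^ n * b 0 ≤ b n := by
    intro n
    induction n with
    | zero => simp
    | succ n ih =>
      have := (key n).2
      rw [pow_succ]
      nlinarith
  have h2 : ∀ n, (ρ / q) ^ n ≤ D / b 0 := by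
    intro n
    rw [le_div_iff₀ hb0, div_pow, div_mul_eq_mul_div, div_le_iff₀ (by positivity)]
    exact (h1 n).trans (hD n)
  have h3 : 1 < ρ / q := by rw [lt_div_iff₀ hq]; linarith
  obtain ⟨n, hn⟩ := pow_unbounded_of_one_lt (D / b 0) h3
  exact absurd (h2 n) (not_le.2 hn)

/-- the sequence obtained by repeated division -/
structure Chain (a : ℝ) (e : ℝ → ℂ) (w0 : ℂ) (V : ℕ → ℝ → ℂ) : Prop where
  mem : ∀ n, Hd a (V n)
  step : ∀ n w, (w - w0) * TT (V (n + 1)) w = TT (V n) w - TT (V n) w0 / TT e w0 * TT e w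

lemma exists_chain {a : ℝ} (ha : 0 < a) {e : ℝ → ℂ} (he : Hd a e) {w0 : ℂ} (h0 : TT e w0 ≠ 0) {U : ℝ → ℂ}
    (hU : Hd a U) : ∃ V : ℕ → ℝ → ℂ, Chain a e w0 V ∧ V 0 = U := by
  classical
  have hstep : ∀ f : ℝ → ℂ, Hd a f → ∃ g : ℝ → ℂ, Hd a g ∧
      ∀ w, (w - w0) * TT g w = TT f w - TT f w0 / TT e w0 * TT e w := by
    intro f hf
    have h1 : Hd a (fun x => f x - TT f w0 / TT e w0 * e x) := hf.sub (he.smul _)
    have h2 : ∀ w, TT (fun x => f x - TT f w0 / TT e w0 * e x) w = TT f w - TT f w0 / TT e w0 * TT e w := fun w => by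
      rw [TT_sub hf.1 (he.smul _).1, TT_smul]
    obtain ⟨g, hg, h3, _⟩ := h1.div ha w0 (by rw [h2, div_mul_cancel₀ _ h0, sub_self])
    exact ⟨g, hg, fun w => by rw [h3, h2]⟩
  choose! S hS1 hS2 using hstep
  set V : ℕ → ℝ → ℂ := fun n => S^[n] U with hV
  have hmem : ∀ n, Hd a (V n) := by
    intro n
    induction n with
    | zero => exact hU
    | succ n ih =>
      simp only [hV, Function.iterate_succ_apply']
      exact hS1 _ ih
  refine ⟨V, ⟨hmem, fun n w => ?_⟩, rfl⟩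
  have : V (n + 1) = S (V n) := by simp only [hV, Function.iterate_succ_apply']
  rw [this]
  exact hS2 _ (hmem n) w

lemma Chain.skew {a : ℝ} (ha : 0 < a) {e : ℝ → ℂ} (he : KK a e) {w0 : ℂ} (hw0 : w0.re = 0) {V : ℕ → ℝ → ℂ}
    (h : Chain a e w0 V) (m n : ℕ) : BB (GM a) (V n) (V (m + 1)) = -BB (GM a) (V (n + 1)) (V m) := by
  have hpos : ∀ f, Hd a f → 0 ≤ bq (GM a) f := fun f hf => bq_nonneg ha hf
  have h1 : ∀ n, Hd a (fun x => V n x + (-(TT (V n) w0 / TT e w0)) * e x) := fun n => (h.mem n).add (he.1.smul _)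
  have h2 : ∀ n w, TT (fun x => V n x + (-(TT (V n) w0 / TT e w0)) * e x) w = (w - w0) * TT (V (n + 1)) w := by
    intro n w
    rw [TT_add (h.mem n).1 (he.1.smul _).1, TT_smul, h.step]
    ring
  have h3 := BB_skew (GM a) hw0 (h.mem (n + 1)).1 (h.mem (m + 1)).1 (h1 n).1 (h1 m).1 (h2 n) (h2 m)
  rw [BB_add_left ha _ (h.mem n) (he.1.smul _) (h.mem (m + 1)), BB_smul_left,
    BB_ker ha hpos he.1 (h.mem (m + 1)) he.2, mul_zero, add_zero,
    BB_add_right ha _ (h.mem m) (he.1.smul _) (h.mem (n + 1)), BB_smul_right, BB_conj _ e,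
    BB_ker ha hpos he.1 (h.mem (n + 1)) he.2, map_zero, mul_zero, add_zero] at h3
  exact h3

lemma Chain.conv {a : ℝ} (ha : 0 < a) {e : ℝ → ℂ} (he : KK a e) {w0 : ℂ} (hw0 : w0.re = 0) {V : ℕ → ℝ → ℂ}
    (h : Chain a e w0 V) (n : ℕ) : bq (GM a) (V (n + 1)) ^ 2 ≤ bq (GM a) (V n) * bq (GM a) (V (n + 2)) := by
  have hpos : ∀ f, Hd a f → 0 ≤ bq (GM a) f := fun f hf => bq_nonneg ha hf
  have h1 := h.skew ha he hw0 (n + 1) n
  have h2 := BB_cs ha hpos (h.mem n) (h.mem (n + 1 + 1))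
  rw [h1, norm_neg, BB_self ha _ (h.mem (n + 1)), Complex.norm_real, Real.norm_eq_abs, sq_abs] at h2
  exact h2

/-- growth of the chain -/
lemma Chain.growth {a : ℝ} {e : ℝ → ℂ} (he : Hd a e) {w0 : ℂ} {V : ℕ → ℝ → ℂ}
    (h : Chain a e w0 V) {r M : ℝ} (hr : 0 < r) (hM : 0 ≤ M) (hE : ∀ w, ‖w - w0‖ ≤ r → TT e w ≠ 0)
    (hM0 : ∀ w, ‖w - w0‖ ≤ r → ‖TT (V 0) w‖ ≤ M * ‖TT e w‖) (n : ℕ) :
    (∀ w, ‖w - w0‖ ≤ r → ‖TT (V n) w‖ ≤ (2 / r) ^ n * M * ‖TT e w‖) ∧
      ∀ w, ‖TT (V n) w‖ ≤ (2 / r) ^ n * (‖TT (V 0) w‖ + M * ‖TT e w‖) := by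
  induction n with
  | zero =>
    refine ⟨fun w hw => by simpa using hM0 w hw, fun w => ?_⟩
    rw [pow_zero, one_mul]
    have : 0 ≤ M * ‖TT e w‖ := by positivity
    linarith
  | succ n ih =>
    obtain ⟨ih1, ih2⟩ := ih
    have hE0 : TT e w0 ≠ 0 := hE w0 (by simp [hr.le])
    have hE0' : 0 < ‖TT e w0‖ := norm_pos_iff.2 hE0
    have hc : ‖TT (V n) w0 / TT e w0‖ ≤ (2 / r) ^ n * M := by
      rw [norm_div, div_le_iff₀ hE0']
      exact ih1 w0 (by simp [hr.le])
    have hp : 0 < (2 / r) ^ n := by positivity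
    -- on the circle
    have hcirc : ∀ w, ‖w - w0‖ = r → ‖TT (V (n + 1)) w‖ ≤ (2 / r) ^ (n + 1) * M * ‖TT e w‖ := by
      intro w hw
      have h1 := congrArg norm (h.step n w)
      rw [norm_mul, hw] at h1
      have h2 : ‖TT (V n) w - TT (V n) w0 / TT e w0 * TT e w‖ ≤ (2 / r) ^ n * M * ‖TT e w‖ + (2 / r) ^ n * M * ‖TT e w‖ := by
        refine (norm_sub_le _ _).trans (add_le_add (ih1 w hw.le) ?_)
        rw [norm_mul]
        exact mul_le_mul_of_nonneg_right hc (norm_nonneg _)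
      rw [← h1] at h2
      have h3 : (2 / r) ^ (n + 1) * M * ‖TT e w‖ = ((2 / r) ^ n * M * ‖TT e w‖ + (2 / r) ^ n * M * ‖TT e w‖) / r := by
        rw [pow_succ]; ring
      rw [h3, le_div_iff₀ hr]
      linarith
    have hball : ∀ w, ‖w - w0‖ ≤ r → ‖TT (V (n + 1)) w‖ ≤ (2 / r) ^ (n + 1) * M * ‖TT e w‖ := by
      intro w hw
      have hcl : closure (Metric.ball w0 r) = Metric.closedBall w0 r := closure_ball w0 hr.ne'
      have hdiff : DiffContOnCl ℂ (fun w => TT (V (n + 1)) w / TT e w) (Metric.ball w0 r) := by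
        refine DifferentiableOn.diffContOnCl ?_
        rw [hcl]
        intro z hz
        rw [mem_closedBall_iff_norm] at hz
        exact ((differentiable_TT (h.mem (n + 1)).1 z).div (differentiable_TT he.1 z) (hE z hz)).differentiableWithinAt
      have h1 := Complex.norm_le_of_forall_mem_frontier_norm_le Metric.isBounded_ball hdiff (C := (2 / r) ^ (n + 1) * M) (by
        intro z hz
        rw [frontier_ball w0 hr.ne', mem_sphere_iff_norm] at hz
        have h2 := hE z hz.le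
        rw [norm_div, div_le_iff₀ (norm_pos_iff.2 h2)]
        exact hcirc z hz) (z := w) (by rw [hcl, mem_closedBall_iff_norm]; exact hw)
      have h2 := hE w hw
      rwa [norm_div, div_le_iff₀ (norm_pos_iff.2 h2)] at h1
    refine ⟨hball, fun w => ?_⟩
    rcases le_or_gt ‖w - w0‖ r with hw | hw
    · refine (hball w hw).trans ?_
      rw [mul_assoc]
      refine mul_le_mul_of_nonneg_left ?_ (by positivity)
      have := norm_nonneg (TT (V 0) w)
      linarith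
    · have h1 := congrArg norm (h.step n w)
      rw [norm_mul] at h1
      have h2 : ‖TT (V n) w - TT (V n) w0 / TT e w0 * TT e w‖ ≤
          (2 / r) ^ n * (‖TT (V 0) w‖ + M * ‖TT e w‖) + (2 / r) ^ n * M * ‖TT e w‖ := by
        refine (norm_sub_le _ _).trans (add_le_add (ih2 w) ?_)
        rw [norm_mul]
        exact mul_le_mul_of_nonneg_right hc (norm_nonneg _)
      rw [← h1] at h2
      have h4 : r * ‖TT (V (n + 1)) w‖ ≤ ‖w - w0‖ * ‖TT (V (n + 1)) w‖ :=
        mul_le_mul_of_nonneg_right hw.le (norm_nonneg _)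
      have h3 : (2 / r) ^ (n + 1) * (‖TT (V 0) w‖ + M * ‖TT e w‖) =
          (2 * ((2 / r) ^ n * (‖TT (V 0) w‖ + M * ‖TT e w‖))) / r := by
        rw [pow_succ]; ring
      rw [h3, le_div_iff₀ hr]
      have h5 : 0 ≤ (2 / r) ^ n * ‖TT (V 0) w‖ := by positivity
      nlinarith

/-- the spectral gap inequality -/
theorem gap {a : ℝ} (ha : 0 < a) {e : ℝ → ℂ} (he : KK a e) {w0 : ℂ} (hw0 : w0.re = 0) {δ : ℝ} (hδ : 0 < δ)
    (hE : ∀ w, ‖w - w0‖ < δ → TT e w ≠ 0) {W U : ℝ → ℂ} (hW : Hd a W) (hU : Hd a U)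
    (hUW : ∀ w, TT U w = (w - w0) * TT W w) : δ ^ 2 * bq (GM a) W ≤ 16 * bq (GM a) U := by
  have hE0 : TT e w0 ≠ 0 := hE w0 (by simpa using hδ)
  obtain ⟨V, hV, hV0⟩ := exists_chain ha he.1 hE0 hU
  set r := δ / 2 with hr
  have hr0 : 0 < r := by positivity
  have hEr : ∀ w, ‖w - w0‖ ≤ r → TT e w ≠ 0 := fun w hw => hE w (by linarith)
  obtain ⟨M0, hM0⟩ := (isCompact_closedBall w0 r).exists_bound_of_continuousOn
    (f := fun w => TT U w / TT e w) (by
      intro z hz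
      rw [mem_closedBall_iff_norm] at hz
      exact ((differentiable_TT hU.1 z).div (differentiable_TT he.1.1 z) (hEr z hz)).continuousAt.continuousWithinAt)
  have hM00 : 0 ≤ M0 := (norm_nonneg _).trans (hM0 w0 (Metric.mem_closedBall_self hr0.le))
  have hM1 : ∀ w, ‖w - w0‖ ≤ r → ‖TT (V 0) w‖ ≤ M0 * ‖TT e w‖ := by
    intro w hw
    rw [hV0]
    have h1 := hM0 w (by rw [mem_closedBall_iff_norm]; exact hw)
    rwa [norm_div, div_le_iff₀ (norm_pos_iff.2 (hEr w hw))] at h1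
  obtain ⟨C, hC, hbq⟩ := bq_le ha
  have hLV : ∀ n, LL (V n) ≤ (4 / r ^ 2) ^ n * (2 * LL U + 2 * M0 ^ 2 * LL e) := by
    intro n
    have hg := (hV.growth he.1 hr0 hM00 hEr hM1 n).2
    have hi : Integrable (fun v : ℝ => (4 / r ^ 2) ^ n * (2 * (Lg v * ‖TT U (v * I)‖ ^ 2) + 2 * M0 ^ 2 * (Lg v * ‖TT e (v * I)‖ ^ 2))) :=
      ((hU.2.const_mul 2).add (he.1.2.const_mul (2 * M0 ^ 2))).const_mul _
    have h1 : LL (V n) ≤ ∫ v : ℝ, (4 / r ^ 2) ^ n * (2 * (Lg v * ‖TT U (v * I)‖ ^ 2) + 2 * M0 ^ 2 * (Lg v * ‖TT e (v * I)‖ ^ 2)) := by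
      refine integral_mono (hV.mem n).2 hi fun v => ?_
      simp only
      have h2 := hg (v * I)
      rw [hV0] at h2
      have h3 := pow_le_pow_left₀ (norm_nonneg _) h2 2
      have h4 : (2 / r) ^ n * (2 / r) ^ n = (4 / r ^ 2) ^ n := by
        rw [← mul_pow]; congr 1; ring
      have h5 : ((2 / r) ^ n * (‖TT U (v * I)‖ + M0 * ‖TT e (v * I)‖)) ^ 2 ≤
          (4 / r ^ 2) ^ n * (2 * ‖TT U (v * I)‖ ^ 2 + 2 * M0 ^ 2 * ‖TT e (v * I)‖ ^ 2) := by
        rw [mul_pow, sq ((2 / r) ^ n), h4]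
        refine mul_le_mul_of_nonneg_left ?_ (by positivity)
        nlinarith [sq_nonneg (‖TT U (v * I)‖ - M0 * ‖TT e (v * I)‖)]
      have h6 := mul_le_mul_of_nonneg_left (h3.trans h5) (Lg_pos v).le
      calc _ ≤ _ := h6
        _ = _ := by ring
    refine h1.trans (le_of_eq ?_)
    rw [integral_const_mul, integral_add (hU.2.const_mul 2) (he.1.2.const_mul _), integral_const_mul, integral_const_mul]
    rfl
  have hmain := logconv (b := fun n => bq (GM a) (V n)) (D := C * (2 * LL U + 2 * M0 ^ 2 * LL e)) (q := 4 / r ^ 2)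
    (fun n => bq_nonneg ha (hV.mem n)) (by positivity) (fun n => hV.conv ha he hw0 n) (fun n => by
      refine (hbq _ (hV.mem n)).trans ?_
      have := mul_le_mul_of_nonneg_left (hLV n) hC.le
      calc _ ≤ _ := this
        _ = _ := by ring)
  simp only [hV0] at hmain
  -- the first term is W
  have hT : ∀ w, TT (V 1) w = TT W w := by
    have hU0 : TT U w0 = 0 := by rw [hUW, sub_self, zero_mul]
    have h1 : ∀ w, (fun w => TT (V 1) w - TT W w) w * (w - w0) = 0 := by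
      intro w
      have h2 := hV.step 0 w
      rw [hV0, hU0, zero_div, zero_mul, sub_zero, hUW] at h2
      simp only
      rw [zero_add] at h2
      linear_combination h2
    intro w
    have h2 := entire_mul_zero (r := fun w => TT (V 1) w - TT W w) (E := fun w => w - w0)
      ((differentiable_TT (hV.mem 1).1).sub (differentiable_TT hW.1)) (by fun_prop) (w1 := w0 + 1) (by simp) h1 w
    exact sub_eq_zero.1 h2
  have hbW : bq (GM a) (V 1) = bq (GM a) W := by
    refine bq_congr _ (hV.mem 1).1 hW.1 fun w => ?_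
    unfold GG
    rw [hT, hT]
  rw [hbW, div_mul_eq_mul_div, le_div_iff₀ (by positivity)] at hmain
  have : r ^ 2 = δ ^ 2 / 4 := by rw [hr]; ring
  rw [this] at hmain
  linarith

end Pool.Agent.Y23.G
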