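import Pool.Agent.Y23.G.An6
import Pool.Agent.W820.TW.FE

/-! # Bounds for the completed L-function -/

set_option autoImplicit false
set_option linter.unusedSectionVars false
set_option maxHeartbeats 2000000

open Complex Filter Topology Set MeasureTheory Metric
open scoped ComplexConjugate

namespace Pool.Agent.Y23.G

open Pool.Agent.W169.HF H353.E Pool.Agent.W355.UN Pool.Agent.TH839.NA

/-- an upper bound for the Gamma function -/
lemma Gamma_up {x : ℝ} (hx : 1 < x) : Real.Gamma x ≤ Real.exp (1 + x * Real.log x - x) := by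
  have hx0 : 0 < x := by linarith
  rw [Real.Gamma_eq_integral hx0]
  have hb : ∀ t ∈ Ioi (0 : ℝ), Real.exp (-t) * t ^ (x - 1) ≤ Real.exp ((x - 1) * (Real.log x - 1)) * Real.exp (-(1 / x) * t) := by
    intro t ht
    have ht0 : 0 < t := ht
    rw [Real.rpow_def_of_pos ht0, ← Real.exp_add, ← Real.exp_add]
    apply Real.exp_le_exp.2
    have h1 := Real.log_le_sub_one_of_pos (show 0 < t / x by positivity)
    rw [Real.log_div ht0.ne' hx0.ne'] at h1
    have h2 : (x - 1) * (Real.log t - Real.log x) ≤ (x - 1) * (t / x - 1) := mul_le_mul_of_nonneg_left h1 (by linarith)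
    have h3 : (x - 1) * (t / x - 1) = t - (1 / x) * t - (x - 1) := by
      field_simp
    nlinarith
  have hi : IntegrableOn (fun t : ℝ => Real.exp (-(1 / x) * t)) (Ioi 0) := by
    have := integrableOn_exp_mul_Ioi (a := -(1 / x)) (by
      have : 0 < 1 / x := by positivity
      linarith) 0
    exact this
  have hint : ∫ t in Ioi (0 : ℝ), Real.exp (-(1 / x) * t) = x := by
    have := integral_exp_mul_Ioi (a := -(1 / x)) (by
      have : 0 < 1 / x := by positivity
      linarith) 0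
    rw [this]
    rw [mul_zero, Real.exp_zero]
    field_simp
  calc ∫ t in Ioi (0 : ℝ), Real.exp (-t) * t ^ (x - 1) ≤
      ∫ t in Ioi (0 : ℝ), Real.exp ((x - 1) * (Real.log x - 1)) * Real.exp (-(1 / x) * t) :=
        setIntegral_mono_on (Real.GammaIntegral_convergent hx0) (hi.const_mul _) measurableSet_Ioi hb
    _ = Real.exp ((x - 1) * (Real.log x - 1)) * x := by rw [integral_const_mul, hint]
    _ = Real.exp ((x - 1) * (Real.log x - 1)) * Real.exp (Real.log x) := by rw [Real.exp_log hx0]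
    _ = _ := by rw [← Real.exp_add]; congr 1; ring

lemma xlogx_mono {x y : ℝ} (hx : 1 ≤ x) (hxy : x ≤ y) : x * Real.log x - x ≤ y * Real.log y - y := by
  have hx0 : 0 < x := by linarith
  have hy0 : 0 < y := by linarith
  have h1 := Real.log_le_sub_one_of_pos (show 0 < x / y by positivity)
  rw [Real.log_div hx0.ne' hy0.ne'] at h1
  have h2 : y * (Real.log x - Real.log y) ≤ y * (x / y - 1) := mul_le_mul_of_nonneg_left h1 hy0.le
  have h3 : y * (x / y - 1) = x - y := by field_simp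
  have h4 : 0 ≤ Real.log x := Real.log_nonneg hx
  nlinarith

/-- decay of the Gamma function -/
lemma Gamma_dec {z : ℂ} (hz : 1 ≤ z.re) : ‖Gamma z‖ ≤
    16 * Real.exp (1 + (z.re + 4) * Real.log (z.re + 4) - (z.re + 4)) / (1 + |z.im|) ^ 4 := by
  have hge : ∀ k : ℕ, (1 + |z.im|) / 2 ≤ ‖z + k‖ := by
    intro k
    have h1 := Complex.re_le_norm (z + k)
    have h2 := Complex.abs_im_le_norm (z + k)
    simp only [Complex.add_re, Complex.natCast_re, Complex.add_im, Complex.natCast_im, add_zero] at h1 h2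
    have : (0 : ℝ) ≤ k := Nat.cast_nonneg k
    linarith
  have hne : ∀ k : ℕ, z + k ≠ 0 := fun k h => by
    have h1 := hge k
    rw [h, norm_zero] at h1
    have := abs_nonneg z.im
    linarith
  have e : Gamma (z + 4) = (z + (3 : ℕ)) * (z + (2 : ℕ)) * (z + (1 : ℕ)) * (z + (0 : ℕ)) * Gamma z := by
    have e0 : Gamma (z + 1) = z * Gamma z := Gamma_add_one z (by simpa using hne 0)
    have e1 : Gamma (z + 1 + 1) = (z + 1) * Gamma (z + 1) := Gamma_add_one _ (by simpa using hne 1)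
    have e2 : Gamma (z + 2 + 1) = (z + 2) * Gamma (z + 2) := Gamma_add_one _ (by simpa using hne 2)
    have e3 : Gamma (z + 3 + 1) = (z + 3) * Gamma (z + 3) := Gamma_add_one _ (by simpa using hne 3)
    rw [show z + 4 = z + 3 + 1 by ring, e3, show z + 3 = z + 2 + 1 by ring, e2, show z + 2 = z + 1 + 1 by ring, e1, e0]
    push_cast
    ring
  have h1 : ‖Gamma (z + 4)‖ ≤ Real.exp (1 + (z.re + 4) * Real.log (z.re + 4) - (z.re + 4)) := by
    have h2 : (z + 4).re = z.re + 4 := by simp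
    have h3 := Pool.Agent.W820.TW.norm_Gamma_le (z := z + 4) (by rw [h2]; linarith)
    rw [h2] at h3
    exact h3.trans (Gamma_up (by linarith))
  have h2 : ((1 + |z.im|) / 2) ^ 4 * ‖Gamma z‖ ≤ ‖Gamma (z + 4)‖ := by
    rw [e, norm_mul, norm_mul, norm_mul, norm_mul]
    have hp : 0 ≤ (1 + |z.im|) / 2 := by positivity
    have := norm_nonneg (Gamma z)
    calc ((1 + |z.im|) / 2) ^ 4 * ‖Gamma z‖ = (1 + |z.im|) / 2 * ((1 + |z.im|) / 2) * ((1 + |z.im|) / 2) * ((1 + |z.im|) / 2) * ‖Gamma z‖ := by ring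
      _ ≤ ‖z + (3 : ℕ)‖ * ‖z + (2 : ℕ)‖ * ‖z + (1 : ℕ)‖ * ‖z + (0 : ℕ)‖ * ‖Gamma z‖ := by
          have a3 := hge 3
          have a2 := hge 2
          have a1 := hge 1
          have a0 := hge 0
          gcongr
  rw [le_div_iff₀ (by positivity)]
  have h3 := h2.trans h1
  have h4 : ((1 + |z.im|) / 2) ^ 4 = (1 + |z.im|) ^ 4 / 16 := by ring
  rw [h4] at h3
  linarith

variable [L : LFun]

/-- the constant in the exponent -/
noncomputable def kp : ℝ := 1 + Real.log (2 * Real.pi) - Real.log L.N / L.m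

/-- the exponent -/
noncomputable def Ex (A σ : ℝ) : ℝ := A + A * Real.log (2 + σ) + L.m / 2 * (σ * (Real.log σ - kp))

/-- one gamma factor -/
lemma gam_fac (j : Fin L.m) {α : ℝ} (hα : ‖L.a j‖ ≤ α) {s : ℂ} (hs : 5 / 2 ≤ s.re) :
    ‖Gammaℝ (s + L.a j)‖ ≤ Real.exp ((s.re - 1 / 2) / 2 * (Real.log ((s.re - 1 / 2) / 2) - 1 - Real.log Real.pi) +
      (5 + α) * Real.log ((s.re - 1 / 2) / 2) + ((5 + α) + (5 + α) ^ 2 + 1 + 16 + 4 * (2 + α))) / (1 + |s.im|) ^ 4 := by
  set σ := s.re - 1 / 2 with hσ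
  have hσ2 : 2 ≤ σ := by rw [hσ]; linarith
  have hα0 : 0 ≤ α := (norm_nonneg _).trans hα
  have hstr := L.str j
  have hre : (s + L.a j).re = σ + 1 / 2 + (L.a j).re := by rw [add_re, hσ]; ring
  have hzre : ((s + L.a j) / 2).re = (σ + 1 / 2 + (L.a j).re) / 2 := by
    rw [show (2 : ℂ) = ((2 : ℝ) : ℂ) by norm_num, Complex.div_ofReal_re, hre]
  have hzim : ((s + L.a j) / 2).im = (s.im + (L.a j).im) / 2 := by
    rw [show (2 : ℂ) = ((2 : ℝ) : ℂ) by norm_num, Complex.div_ofReal_im, add_im]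
  have h1 := Gamma_dec (z := (s + L.a j) / 2) (by rw [hzre]; linarith)
  have hare : |(L.a j).re| ≤ α := (Complex.abs_re_le_norm _).trans hα
  have haim : |(L.a j).im| ≤ α := (Complex.abs_im_le_norm _).trans hα
  have hlσ : 0 ≤ Real.log (σ / 2) := Real.log_nonneg (by linarith)
  -- the exponent
  have h2 : (((s + L.a j) / 2).re + 4) * Real.log (((s + L.a j) / 2).re + 4) - (((s + L.a j) / 2).re + 4) ≤
      σ / 2 * (Real.log (σ / 2) - 1) + (5 + α) * Real.log (σ / 2) + (5 + α) + (5 + α) ^ 2 := by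
    have h3 : ((s + L.a j) / 2).re + 4 ≤ σ / 2 + (5 + α) := by
      rw [hzre]
      have := (abs_le.1 hare).2
      linarith
    have h4 := xlogx_mono (by rw [hzre]; linarith) h3
    refine h4.trans ?_
    have h5 : Real.log (σ / 2 + (5 + α)) ≤ Real.log (σ / 2) + 2 * (5 + α) / σ := by
      have h6 : σ / 2 + (5 + α) = σ / 2 * (1 + 2 * (5 + α) / σ) := by field_simp
      rw [h6, Real.log_mul (by positivity) (by positivity)]
      have h7 := Real.log_le_sub_one_of_pos (show 0 < 1 + 2 * (5 + α) / σ by positivity)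
      linarith
    have h6 : (σ / 2 + (5 + α)) * Real.log (σ / 2 + (5 + α)) ≤ (σ / 2 + (5 + α)) * (Real.log (σ / 2) + 2 * (5 + α) / σ) :=
      mul_le_mul_of_nonneg_left h5 (by positivity)
    have h7 : (σ / 2 + (5 + α)) * (Real.log (σ / 2) + 2 * (5 + α) / σ) =
        σ / 2 * Real.log (σ / 2) + (5 + α) * Real.log (σ / 2) + (5 + α) + 2 * (5 + α) ^ 2 / σ := by
      field_simp
      ring
    have h8 : 2 * (5 + α) ^ 2 / σ ≤ (5 + α) ^ 2 := by
      rw [div_le_iff₀ (by linarith)]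
      nlinarith [sq_nonneg (5 + α)]
    linarith
  -- the imaginary part
  have h3 : 1 + |s.im| ≤ (2 + α) * (1 + |((s + L.a j) / 2).im|) := by
    rw [hzim, abs_div, abs_two]
    have h4 : |s.im| ≤ |s.im + (L.a j).im| + α := by
      have h6 := abs_add_le (s.im + (L.a j).im) (-(L.a j).im)
      rw [add_neg_cancel_right, abs_neg] at h6
      linarith
    have := abs_nonneg (s.im + (L.a j).im)
    nlinarith
  have h4 : (1 + |s.im|) ^ 4 ≤ (2 + α) ^ 4 * (1 + |((s + L.a j) / 2).im|) ^ 4 := by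
    rw [← mul_pow]
    exact pow_le_pow_left₀ (by positivity) h3 4
  have h5 : (2 + α) ^ 4 ≤ Real.exp (4 * (2 + α)) := by
    have h6 : 2 + α ≤ Real.exp (2 + α) := by linarith [Real.add_one_le_exp (2 + α)]
    have h7 : Real.exp (4 * (2 + α)) = Real.exp (2 + α) ^ 4 := by rw [← Real.exp_nat_mul]; norm_num
    rw [h7]
    exact pow_le_pow_left₀ (by positivity) h6 4
  have h6 : (16 : ℝ) ≤ Real.exp 16 := by linarith [Real.add_one_le_exp (16 : ℝ)]
  have hpi : ‖(Real.pi : ℂ) ^ (-(s + L.a j) / 2)‖ ≤ Real.exp (-(σ / 2 * Real.log Real.pi)) := by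
    rw [Complex.norm_cpow_eq_rpow_re_of_pos Real.pi_pos, Real.rpow_def_of_pos Real.pi_pos]
    apply Real.exp_le_exp.2
    have e : (-(s + L.a j) / 2).re = -(σ + 1 / 2 + (L.a j).re) / 2 := by
      rw [show (2 : ℂ) = ((2 : ℝ) : ℂ) by norm_num, Complex.div_ofReal_re, neg_re, hre]
    rw [e]
    have h7 : 0 ≤ Real.log Real.pi := Real.log_nonneg (by linarith [Real.pi_gt_three])
    nlinarith
  rw [Gammaℝ_def, norm_mul]
  have hE := Real.exp_pos (1 + (((s + L.a j) / 2).re + 4) * Real.log (((s + L.a j) / 2).re + 4) - (((s + L.a j) / 2).re + 4))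
  have h7 : ‖Gamma ((s + L.a j) / 2)‖ ≤ Real.exp (16 + 4 * (2 + α) + (1 + (((s + L.a j) / 2).re + 4) *
      Real.log (((s + L.a j) / 2).re + 4) - (((s + L.a j) / 2).re + 4))) / (1 + |s.im|) ^ 4 := by
    refine h1.trans ?_
    rw [div_le_div_iff₀ (by positivity) (by positivity), Real.exp_add, Real.exp_add]
    set EE := Real.exp (1 + (((s + L.a j) / 2).re + 4) * Real.log (((s + L.a j) / 2).re + 4) - (((s + L.a j) / 2).re + 4))
    calc 16 * EE * (1 + |s.im|) ^ 4 ≤ Real.exp 16 * EE * ((2 + α) ^ 4 * (1 + |((s + L.a j) / 2).im|) ^ 4) := by gcongr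
      _ ≤ Real.exp 16 * EE * (Real.exp (4 * (2 + α)) * (1 + |((s + L.a j) / 2).im|) ^ 4) := by gcongr
      _ = _ := by ring
  calc _ ≤ Real.exp (-(σ / 2 * Real.log Real.pi)) * (Real.exp (16 + 4 * (2 + α) + (1 + (((s + L.a j) / 2).re + 4) *
      Real.log (((s + L.a j) / 2).re + 4) - (((s + L.a j) / 2).re + 4))) / (1 + |s.im|) ^ 4) :=
        mul_le_mul hpi h7 (norm_nonneg _) (Real.exp_pos _).le
    _ = Real.exp (-(σ / 2 * Real.log Real.pi) + (16 + 4 * (2 + α) + (1 + (((s + L.a j) / 2).re + 4) *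
      Real.log (((s + L.a j) / 2).re + 4) - (((s + L.a j) / 2).re + 4)))) / (1 + |s.im|) ^ 4 := by
        rw [Real.exp_add (-(σ / 2 * Real.log Real.pi))]; ring
    _ ≤ _ := by
        refine div_le_div_of_nonneg_right (Real.exp_le_exp.2 ?_) (by positivity)
        linarith

lemma alg_aux (a c d e t : ℝ) (ht : 0 < t) : Real.exp a * (Real.exp c / (t * t)) * ((Real.exp d * t) * Real.exp e) =
    Real.exp (a + c + d + e) * (1 / t) := by
  rw [Real.exp_add, Real.exp_add, Real.exp_add]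
  field_simp

/-- bounds to the right -/
lemma X_right : ∃ A : ℝ, 0 ≤ A ∧ ∀ w : ℂ, 2 ≤ w.re → ‖L.X (1 / 2 + w)‖ ≤ Real.exp (Ex A w.re) / (1 + w.im ^ 2) := by
  obtain ⟨α, hα0, hα⟩ : ∃ α : ℝ, 0 ≤ α ∧ ∀ j, ‖L.a j‖ ≤ α :=
    ⟨∑ j, ‖L.a j‖, Finset.sum_nonneg fun j _ => norm_nonneg _, fun j =>
      Finset.single_le_sum (f := fun j => ‖L.a j‖) (fun i _ => norm_nonneg _) (Finset.mem_univ j)⟩
  have hm : (1 : ℝ) ≤ L.m := by exact_mod_cast L.raw.hm
  have hm0 : (0 : ℝ) < L.m := by linarith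
  have hN1 := L.raw.hN
  have hN0 : 0 < L.N := by linarith
  have hN := Real.log_nonneg hN1
  have hsum : LSeriesSummable L.b (5 / 2) := (L.raw.coef (s := (5 / 2 : ℂ)) (by
    have : (5 / 2 : ℂ).re = 5 / 2 := by norm_num
    rw [this]; norm_num)).1
  set B0 : ℝ := ∑' n, ‖LSeries.term L.b (5 / 2) n‖ with hB0
  have hB00 : 0 ≤ B0 := tsum_nonneg fun _ => norm_nonneg _
  set K1 : ℝ := (5 + α) + (5 + α) ^ 2 + 1 + 16 + 4 * (2 + α) with hK1
  have hK10 : 0 ≤ K1 := by positivity
  set A : ℝ := L.m * (5 + α) + 2 * L.m + L.m * K1 + Real.log L.N + B0 with hA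
  have hA0 : 0 ≤ A := by positivity
  refine ⟨A, hA0, fun w hw => ?_⟩
  set s : ℂ := 1 / 2 + w with hs
  set σ := w.re with hσ
  have hsre : s.re = 1 / 2 + σ := by rw [hs, hσ]; simp
  have hsim : s.im = w.im := by rw [hs]; simp
  have hs12 : s.re - 1 / 2 = σ := by rw [hsre]; ring
  have hL1 : ‖LSeries L.b s‖ ≤ B0 := by
    have h3 : ∀ n, ‖LSeries.term L.b s n‖ ≤ ‖LSeries.term L.b (5 / 2) n‖ := fun n =>
      LSeries.norm_term_le_of_re_le_re L.b (by
        have : (5 / 2 : ℂ).re = 5 / 2 := by norm_num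
        rw [this, hsre]; linarith) n
    have h4 : Summable fun n => ‖LSeries.term L.b (5 / 2) n‖ := hsum.norm
    have h5 : Summable fun n => ‖LSeries.term L.b s n‖ :=
      Summable.of_nonneg_of_le (fun _ => norm_nonneg _) h3 h4
    unfold LSeries
    exact (norm_tsum_le_tsum_norm h5).trans (h5.tsum_le_tsum h3 h4)
  have hgam : ‖∏ j, Gammaℝ (s + L.a j)‖ ≤ (Real.exp (σ / 2 * (Real.log (σ / 2) - 1 - Real.log Real.pi) +
      (5 + α) * Real.log (σ / 2) + K1) / (1 + |w.im|) ^ 4) ^ L.m := by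
    rw [norm_prod]
    have h1 : ∀ j ∈ (Finset.univ : Finset (Fin L.m)), ‖Gammaℝ (s + L.a j)‖ ≤ Real.exp (σ / 2 * (Real.log (σ / 2) - 1 - Real.log Real.pi) +
      (5 + α) * Real.log (σ / 2) + K1) / (1 + |w.im|) ^ 4 := by
      intro j _
      have h2 := gam_fac j (hα j) (s := s) (by rw [hsre]; linarith)
      rw [hs12, hsim] at h2
      exact h2
    refine (Finset.prod_le_prod (fun j _ => norm_nonneg _) h1).trans (le_of_eq ?_)
    rw [Finset.prod_const, Finset.card_univ, Fintype.card_fin]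
  have hNn : ‖(L.N : ℂ) ^ (s / 2)‖ ≤ Real.exp (σ / 2 * Real.log L.N + Real.log L.N) := by
    rw [Complex.norm_cpow_eq_rpow_re_of_pos hN0, Real.rpow_def_of_pos hN0]
    apply Real.exp_le_exp.2
    have e : (s / 2).re = (1 / 2 + σ) / 2 := by
      rw [show (2 : ℂ) = ((2 : ℝ) : ℂ) by norm_num, Complex.div_ofReal_re, hsre]
    rw [e]
    nlinarith
  have hσ0 : 0 < σ := by linarith
  have hy := abs_nonneg w.im
  have hnw : ‖w‖ ≤ σ + |w.im| := by
    have := Complex.norm_le_abs_re_add_abs_im w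
    rwa [abs_of_pos hσ0] at this
  have hss : ‖(s * (s - 1)) ^ L.r‖ ≤ ((1 + σ) * (1 + |w.im|)) ^ (2 * L.m) := by
    have h1 : ‖s‖ ≤ (1 + σ) * (1 + |w.im|) := by
      have h2 : ‖s‖ ≤ 1 / 2 + ‖w‖ := by
        rw [hs]
        refine (norm_add_le _ _).trans ?_
        norm_num
      nlinarith
    have h2 : ‖s - 1‖ ≤ (1 + σ) * (1 + |w.im|) := by
      have h2 : ‖s - 1‖ ≤ 1 / 2 + ‖w‖ := by
        have : s - 1 = -(1 / 2) + w := by rw [hs]; ring
        rw [this]
        refine (norm_add_le _ _).trans ?_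
        norm_num
      nlinarith
    have h3 : 1 ≤ (1 + σ) * (1 + |w.im|) := by nlinarith
    rw [norm_pow, norm_mul]
    calc (‖s‖ * ‖s - 1‖) ^ L.r ≤ (((1 + σ) * (1 + |w.im|)) * ((1 + σ) * (1 + |w.im|))) ^ L.r := by gcongr
      _ = ((1 + σ) * (1 + |w.im|)) ^ (2 * L.r) := by rw [pow_mul, sq]
      _ ≤ _ := pow_le_pow_right₀ h3 (by have := L.raw.hr; omega)
  rw [show L.X s = gaf L.N (fun j => -L.a j) s * ((s * (s - 1)) ^ L.r * LSeries L.b s) from
    L.raw.eq' (by rw [hsre]; linarith)]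
  unfold gaf
  have hprod : (∏ j, Gammaℝ (s - -L.a j)) = ∏ j, Gammaℝ (s + L.a j) := by
    refine Finset.prod_congr rfl fun j _ => ?_
    rw [sub_neg_eq_add]
  rw [hprod, norm_mul, norm_mul, norm_mul]
  have e1 : (Real.exp (σ / 2 * (Real.log (σ / 2) - 1 - Real.log Real.pi) + (5 + α) * Real.log (σ / 2) + K1) / (1 + |w.im|) ^ 4) ^ L.m =
      Real.exp (L.m * (σ / 2 * (Real.log (σ / 2) - 1 - Real.log Real.pi) + (5 + α) * Real.log (σ / 2) + K1)) / (1 + |w.im|) ^ (4 * L.m) := by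
    rw [div_pow, ← Real.exp_nat_mul, ← pow_mul]
  rw [e1] at hgam
  have hB0e : B0 ≤ Real.exp B0 := by linarith [Real.add_one_le_exp B0]
  have e2 : ((1 + σ) * (1 + |w.im|)) ^ (2 * L.m) = Real.exp (2 * L.m * Real.log (1 + σ)) * (1 + |w.im|) ^ (2 * L.m) := by
    rw [mul_pow]
    congr 1
    have h8 : Real.exp (2 * L.m * Real.log (1 + σ)) = Real.exp (Real.log (1 + σ)) ^ (2 * L.m) := by
      rw [← Real.exp_nat_mul]; push_cast; rfl
    rw [h8, Real.exp_log (by linarith)]
  rw [e2] at hss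
  have hpos : 0 < 1 + |w.im| := by linarith
  calc ‖(L.N : ℂ) ^ (s / 2)‖ * ‖∏ j, Gammaℝ (s + L.a j)‖ * (‖(s * (s - 1)) ^ L.r‖ * ‖LSeries L.b s‖)
      ≤ Real.exp (σ / 2 * Real.log L.N + Real.log L.N) *
        (Real.exp (L.m * (σ / 2 * (Real.log (σ / 2) - 1 - Real.log Real.pi) + (5 + α) * Real.log (σ / 2) + K1)) / (1 + |w.im|) ^ (4 * L.m)) *
        ((Real.exp (2 * L.m * Real.log (1 + σ)) * (1 + |w.im|) ^ (2 * L.m)) * Real.exp B0) := by
          have hL2 : ‖LSeries L.b s‖ ≤ Real.exp B0 := hL1.trans hB0e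
          gcongr
    _ = Real.exp (σ / 2 * Real.log L.N + Real.log L.N + L.m * (σ / 2 * (Real.log (σ / 2) - 1 - Real.log Real.pi) + (5 + α) * Real.log (σ / 2) + K1) +
        2 * L.m * Real.log (1 + σ) + B0) * (1 / (1 + |w.im|) ^ (2 * L.m)) := by
          have : (1 + |w.im|) ^ (4 * L.m) = (1 + |w.im|) ^ (2 * L.m) * (1 + |w.im|) ^ (2 * L.m) := by
            rw [← pow_add]; congr 1; ring
          rw [this]
          exact alg_aux _ _ _ _ _ (by positivity)
    _ ≤ Real.exp (Ex A σ) * (1 / (1 + w.im ^ 2)) := by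
        refine mul_le_mul (Real.exp_le_exp.2 ?_) ?_ (by positivity) (Real.exp_pos _).le
        · unfold Ex kp
          have hlog2 : Real.log (σ / 2) = Real.log σ - Real.log 2 := Real.log_div hσ0.ne' two_ne_zero
          have hlogp : Real.log (2 * Real.pi) = Real.log 2 + Real.log Real.pi := Real.log_mul two_ne_zero Real.pi_pos.ne'
          have h1 : Real.log (σ / 2) ≤ Real.log (2 + σ) := Real.log_le_log (by positivity) (by linarith)
          have h2 : Real.log (1 + σ) ≤ Real.log (2 + σ) := Real.log_le_log (by positivity) (by linarith)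
          have h3 : 0 ≤ Real.log (2 + σ) := Real.log_nonneg (by linarith)
          have e3 : (L.m : ℝ) / 2 * (σ * (Real.log σ - (1 + Real.log (2 * Real.pi) - Real.log L.N / L.m))) =
              L.m * (σ / 2 * (Real.log (σ / 2) - 1 - Real.log Real.pi)) + σ / 2 * Real.log L.N := by
            rw [hlog2, hlogp]
            field_simp
            ring
          rw [e3]
          have h4 : (L.m : ℝ) * (5 + α) * Real.log (σ / 2) ≤ L.m * (5 + α) * Real.log (2 + σ) :=
            mul_le_mul_of_nonneg_left h1 (by positivity)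
          have h5 : 2 * (L.m : ℝ) * Real.log (1 + σ) ≤ 2 * L.m * Real.log (2 + σ) :=
            mul_le_mul_of_nonneg_left h2 (by positivity)
          have h6 : (L.m * (5 + α) + 2 * L.m) * Real.log (2 + σ) ≤ A * Real.log (2 + σ) := by
            refine mul_le_mul_of_nonneg_right ?_ h3
            rw [hA]
            have : 0 ≤ (L.m : ℝ) * K1 := by positivity
            linarith
          have h7 : L.m * K1 + Real.log L.N + B0 ≤ A := by
            rw [hA]
            have : 0 ≤ (L.m : ℝ) * (5 + α) := by positivity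
            linarith
          nlinarith
        · apply one_div_le_one_div_of_le (by positivity)
          have h1 : (1 + |w.im|) ^ 2 ≤ (1 + |w.im|) ^ (2 * L.m) :=
            pow_le_pow_right₀ (by linarith) (by have := L.raw.hm; omega)
          refine le_trans ?_ h1
          nlinarith [sq_abs w.im]
    _ = _ := by ring

end Pool.Agent.Y23.G
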