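import Pool.Agent.Y23.G.Ts1

/-! # Bounds for the completed L-function in all of the plane -/

set_option autoImplicit false
set_option linter.unusedSectionVars false
set_option maxHeartbeats 2000000

open Complex Filter Topology Set MeasureTheory Metric
open scoped ComplexConjugate

namespace Pool.Agent.Y23.G

open Pool.Agent.W169.HF H353.E Pool.Agent.W355.UN Pool.Agent.TH839.NA

variable [L : LFun]

lemma m_one : (1 : ℝ) ≤ L.m := by exact_mod_cast L.raw.hm

lemma Ex_mono {A B σ : ℝ} (h : A ≤ B) (hσ : 0 ≤ σ) : Ex A σ ≤ Ex B σ := by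
  unfold Ex
  have h1 : 0 ≤ Real.log (2 + σ) := Real.log_nonneg (by linarith)
  nlinarith [mul_le_mul_of_nonneg_right h h1]

lemma Ex_low {A σ R : ℝ} (hA : 0 ≤ A) (hσ : 0 ≤ σ) (hR : σ ≤ R) :
    A - L.m / 2 * (1 + R * |kp|) ≤ Ex A σ := by
  unfold Ex
  have hm := m_one (L := L)
  have h1 : 0 ≤ Real.log (2 + σ) := Real.log_nonneg (by linarith)
  have h2 : -1 ≤ σ * Real.log σ := by
    rcases hσ.eq_or_lt with h | h
    · rw [← h]; simp
    · have h3 := Real.one_sub_inv_le_log_of_pos h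
      have h4 : σ * (1 - σ⁻¹) ≤ σ * Real.log σ := mul_le_mul_of_nonneg_left h3 hσ
      have h5 : σ * (1 - σ⁻¹) = σ - 1 := by field_simp
      linarith
  have h3 : σ * kp ≤ R * |kp| := by
    have h4 : kp ≤ |kp (L := L)| := le_abs_self _
    have h5 := abs_nonneg (kp (L := L))
    nlinarith
  have h6 : -(1 + R * |kp|) ≤ σ * (Real.log σ - kp) := by nlinarith
  have h7 : (L.m : ℝ) / 2 * -(1 + R * |kp|) ≤ L.m / 2 * (σ * (Real.log σ - kp)) :=
    mul_le_mul_of_nonneg_left h6 (by positivity)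
  have h8 : 0 ≤ A * Real.log (2 + σ) := mul_nonneg hA h1
  linarith

lemma X_reflect (w : ℂ) : ‖L.X (1 / 2 + w)‖ = ‖L.X (1 / 2 + -conj w)‖ := by
  rw [← X_norm (1 / 2 + w)]
  congr 2
  rw [map_add, map_div₀, map_one, map_ofNat]
  ring

/-- bounds everywhere -/
lemma X_all : ∃ A : ℝ, 0 ≤ A ∧ ∀ w : ℂ, ‖L.X (1 / 2 + w)‖ ≤ Real.exp (Ex A |w.re|) / (1 + w.im ^ 2) := by
  obtain ⟨A, hA, hb⟩ := X_right (L := L)
  have hb' : ∀ w : ℂ, 2 ≤ |w.re| → ‖L.X (1 / 2 + w)‖ ≤ Real.exp (Ex A |w.re|) / (1 + w.im ^ 2) := by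
    intro w hw
    rcases le_total 0 w.re with h | h
    · rw [abs_of_nonneg h] at hw ⊢
      exact hb w hw
    · rw [abs_of_nonpos h] at hw ⊢
      rw [X_reflect]
      have h1 := hb (-conj w) (by simpa using hw)
      simpa using h1
  set M : ℝ := Real.exp (Ex A 2) with hM
  have hM0 : 0 < M := Real.exp_pos _
  -- the strip
  have hstrip : ∀ w : ℂ, |w.re| ≤ 2 → ‖L.X (1 / 2 + w)‖ ≤ 144 * M / (1 + w.im ^ 2) := by
    intro w hw
    set f : ℂ → ℂ := fun z => L.X (1 / 2 + z) * (z - 10) ^ 2 with hf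
    have hfd : Differentiable ℂ f := by
      have : Differentiable ℂ (fun z : ℂ => L.X (1 / 2 + z)) := Xd.comp (by fun_prop)
      exact this.mul (by fun_prop)
    have hn10 : ∀ z : ℂ, ‖(z - 10 : ℂ) ^ 2‖ = (z.re - 10) ^ 2 + z.im ^ 2 := by
      intro z
      rw [norm_pow, Complex.sq_norm, Complex.normSq_apply]
      simp
      ring
    have hedge : ∀ z : ℂ, |z.re| = 2 → ‖f z‖ ≤ 144 * M := by
      intro z hz
      have h1 := hb' z hz.ge
      rw [hz] at h1
      simp only [hf]
      rw [norm_mul, hn10]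
      have h2 : (z.re - 10) ^ 2 + z.im ^ 2 ≤ 144 * (1 + z.im ^ 2) := by
        have h3 := abs_le.1 hz.le
        nlinarith [sq_nonneg z.im]
      calc ‖L.X (1 / 2 + z)‖ * ((z.re - 10) ^ 2 + z.im ^ 2) ≤ (M / (1 + z.im ^ 2)) * (144 * (1 + z.im ^ 2)) := by gcongr
        _ = _ := by field_simp
    have hs : Slow (fun u => L.X (1 / 2 + (1 : ℝ) * u)) := slow_affine L.raw.slow (1 / 2) one_pos
    obtain ⟨K, hK, hKb⟩ := hs.2 1 one_pos
    have hPL := PhragmenLindelof.vertical_strip (a := -2) (b := 2) (f := f) (C := 144 * M) (z := w)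
      hfd.diffContOnCl ?_ (fun z hz => hedge z (by rw [hz]; norm_num)) (fun z hz => hedge z (by rw [hz]; norm_num))
      (abs_le.1 hw).1 (abs_le.1 hw).2
    · simp only [hf] at hPL
      rw [norm_mul, hn10] at hPL
      rw [le_div_iff₀ (by positivity)]
      refine le_trans (mul_le_mul_of_nonneg_left ?_ (norm_nonneg _)) hPL
      have h3 := (abs_le.1 hw).2
      nlinarith [sq_nonneg w.im]
    · refine ⟨1 / 2, by
        have := Real.pi_gt_three
        linarith, 14, ?_⟩
      refine Asymptotics.IsBigO.of_bound (300 * K) ?_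
      refine (Filter.Eventually.filter_mono inf_le_right ?_)
      rw [Filter.eventually_principal]
      intro z hz
      have hz1 : -2 < z.re ∧ z.re < 2 := hz
      simp only [hf]
      rw [norm_mul, hn10]
      have h1 : ‖L.X (1 / 2 + z)‖ ≤ K * Real.exp (‖z‖ ^ 2) := by
        have h0 := hKb z
        rw [one_mul] at h0
        have e : (1 / 2 + z : ℂ) = 1 / 2 + ((1 : ℝ) : ℂ) * z := by push_cast; ring
        rw [e]
        exact h0
      set E := Real.exp (1 / 2 * |z.im|) with hE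
      have hE1 : 1 ≤ E := Real.one_le_exp (by positivity)
      have h2 : z.im ^ 2 ≤ 8 * E := by
        have h3 := Real.quadratic_le_exp_of_nonneg (x := 1 / 2 * |z.im|) (by positivity)
        rw [← sq_abs]
        have := abs_nonneg z.im
        nlinarith
      have h3 : ‖z‖ ^ 2 ≤ 12 * E := by
        rw [Complex.sq_norm, Complex.normSq_apply]
        nlinarith
      have h4 : (z.re - 10) ^ 2 + z.im ^ 2 ≤ 300 * Real.exp E := by
        have := Real.add_one_le_exp E
        nlinarith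
      rw [Real.norm_eq_abs, abs_of_pos (Real.exp_pos _)]
      calc ‖L.X (1 / 2 + z)‖ * ((z.re - 10) ^ 2 + z.im ^ 2) ≤ (K * Real.exp (12 * E)) * (300 * Real.exp E) := by
            refine mul_le_mul (h1.trans ?_) h4 (by positivity) (by positivity)
            gcongr
        _ = 300 * K * Real.exp (13 * E) := by
            rw [show 13 * E = 12 * E + E by ring, Real.exp_add]; ring
        _ ≤ 300 * K * Real.exp (14 * E) := by gcongr <;> linarith
  have hm := m_one (L := L)
  refine ⟨max A (Real.log (144 * M) + L.m / 2 * (1 + 2 * |kp|)) , hA.trans (le_max_left _ _), fun w => ?_⟩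
  rcases le_total 2 |w.re| with h | h
  · refine (hb' w h).trans ?_
    gcongr
    exact Ex_mono (le_max_left _ _) (by linarith)
  · refine (hstrip w h).trans ?_
    refine div_le_div_of_nonneg_right ?_ (by positivity)
    rw [← Real.log_le_iff_le_exp (by positivity)]
    have h1 := Ex_low (L := L) (A := max A (Real.log (144 * M) + L.m / 2 * (1 + 2 * |kp|))) (hA.trans (le_max_left _ _))
      (abs_nonneg w.re) h
    have h2 : Real.log (144 * M) + L.m / 2 * (1 + 2 * |kp|) ≤ max A (Real.log (144 * M) + L.m / 2 * (1 + 2 * |kp|)) :=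
      le_max_right _ _
    linarith

/-- factoring out the zero -/
lemma factor_zero {w0 : ℂ} : ∃ G : ℂ → ℂ, Differentiable ℂ G ∧ G w0 ≠ 0 ∧
    ∀ w, L.X (1 / 2 + w) = (w - w0) ^ (H370.mult L.X (1 / 2 + w0)) * G w := by
  set k := H370.mult L.X (1 / 2 + w0) with hk
  have hY : Differentiable ℂ (fun w : ℂ => L.X (1 / 2 + w)) := Xd.comp (by fun_prop)
  have hne : analyticOrderAt L.X (1 / 2 + w0) ≠ ⊤ :=
    H370.Loc.order_ne_top (f := L.X) (K := univ) isPreconnected_univ (fun z _ => Xan z) (mem_univ (ctr 0)) (ctr_ne 0) (mem_univ _)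
  have hord : analyticOrderAt L.X (1 / 2 + w0) = (k : ℕ∞) := (Nat.cast_analyticOrderNatAt hne).symm
  obtain ⟨g, hg, hg0, hfg⟩ := ((Xan (1 / 2 + w0)).analyticOrderAt_eq_natCast).1 hord
  -- transport to w0
  have ht : Tendsto (fun w : ℂ => 1 / 2 + w) (𝓝 w0) (𝓝 (1 / 2 + w0)) := by
    have : Continuous (fun w : ℂ => 1 / 2 + w) := by fun_prop
    exact this.tendsto w0
  have hev : ∀ᶠ w in 𝓝 w0, L.X (1 / 2 + w) = (w - w0) ^ k * g (1 / 2 + w) := by
    filter_upwards [ht.eventually hfg] with w hw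
    rw [hw, smul_eq_mul]
    congr 2
    ring
  set G : ℂ → ℂ := fun w => if w = w0 then g (1 / 2 + w0) else L.X (1 / 2 + w) / (w - w0) ^ k with hG
  have hG0 : G w0 = g (1 / 2 + w0) := by simp only [hG, if_pos]
  have hG1 : ∀ w, w ≠ w0 → G w = L.X (1 / 2 + w) / (w - w0) ^ k := fun w hw => by simp only [hG, if_neg hw]
  have hGev : G =ᶠ[𝓝 w0] fun w => g (1 / 2 + w) := by
    filter_upwards [hev] with w hw
    by_cases h : w = w0
    · rw [h, hG0]
    · rw [hG1 w h, hw, mul_div_cancel_left₀]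
      exact pow_ne_zero _ (sub_ne_zero.2 h)
  refine ⟨G, fun w => ?_, by rw [hG0]; exact hg0, fun w => ?_⟩
  · by_cases h : w = w0
    · rw [h]
      have h1 : DifferentiableAt ℂ (fun w : ℂ => g (1 / 2 + w)) w0 :=
        DifferentiableAt.comp (f := fun w : ℂ => 1 / 2 + w) w0 hg.differentiableAt (by fun_prop)
      exact h1.congr_of_eventuallyEq hGev
    · have h1 : G =ᶠ[𝓝 w] fun w => L.X (1 / 2 + w) / (w - w0) ^ k := by
        filter_upwards [isOpen_ne.mem_nhds h] with z hz
        exact hG1 z hz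
      refine DifferentiableAt.congr_of_eventuallyEq ?_ h1
      exact (hY w).div (by fun_prop) (pow_ne_zero _ (sub_ne_zero.2 h))
  · by_cases h : w = w0
    · rw [h, hG0]
      exact hev.self_of_nhds
    · rw [hG1 w h, mul_div_cancel₀]
      exact pow_ne_zero _ (sub_ne_zero.2 h)

/-- the function with a simple zero -/
lemma simple_fun {A : ℝ} (hA : 0 ≤ A) (hb : ∀ w : ℂ, ‖L.X (1 / 2 + w)‖ ≤ Real.exp (Ex A |w.re|) / (1 + w.im ^ 2))
    {w0 : ℂ} (h0 : L.X (1 / 2 + w0) = 0) : ∃ (H : ℂ → ℂ) (K : ℝ), Differentiable ℂ H ∧ 0 < K ∧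
    (∀ w, ‖H w‖ ≤ K * Real.exp (Ex A |w.re|) / (1 + w.im ^ 2)) ∧ (∀ w, L.X (1 / 2 + w) = 0 → H w = 0) ∧
    deriv H w0 ≠ 0 := by
  obtain ⟨G, hG, hG0, hfac⟩ := factor_zero (L := L) (w0 := w0)
  set k := H370.mult L.X (1 / 2 + w0) with hk
  have hk1 : 1 ≤ k := X_mpos h0
  set H : ℂ → ℂ := fun w => (w - w0) * G w with hH
  have hHd : Differentiable ℂ H := by
    have : Differentiable ℂ (fun w : ℂ => w - w0) := by fun_prop
    exact this.mul hG
  have hrel : ∀ w, L.X (1 / 2 + w) = (w - w0) ^ (k - 1) * H w := by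
    intro w
    rw [hfac w]
    simp only [hH]
    rw [← mul_assoc, ← pow_succ, Nat.sub_add_cancel hk1]
  obtain ⟨M0, hM0⟩ := (isCompact_closedBall w0 1).exists_bound_of_continuousOn hHd.continuous.continuousOn
  set R : ℝ := ‖w0‖ + 1 with hR
  have hR0 : 0 < R := by positivity
  set q : ℝ := Real.exp (A - L.m / 2 * (1 + R * |kp|)) / (1 + R ^ 2) with hq
  have hq0 : 0 < q := by positivity
  refine ⟨H, max 1 (|M0| / q), hHd, by positivity, fun w => ?_, fun w hw => ?_, ?_⟩
  · rcases le_total 1 ‖w - w0‖ with h | h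
    · have h1 : ‖H w‖ ≤ ‖L.X (1 / 2 + w)‖ := by
        have h5 : ‖L.X (1 / 2 + w)‖ = ‖w - w0‖ ^ (k - 1) * ‖H w‖ := by rw [hrel w, norm_mul, norm_pow]
        rw [h5]
        have := one_le_pow₀ h (n := k - 1)
        have := norm_nonneg (H w)
        nlinarith
      refine (h1.trans (hb w)).trans ?_
      refine div_le_div_of_nonneg_right ?_ (by positivity)
      have := le_max_left 1 (|M0| / q)
      have := Real.exp_pos (Ex A |w.re|)
      nlinarith
    · have h1 := hM0 w (by rw [mem_closedBall, dist_eq_norm]; exact h)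
      have hwn : ‖w‖ ≤ R := by
        have : w = (w - w0) + w0 := by ring
        rw [this]
        exact (norm_add_le _ _).trans (by linarith)
      have hre : |w.re| ≤ R := (Complex.abs_re_le_norm w).trans hwn
      have him : w.im ^ 2 ≤ R ^ 2 := by
        rw [← sq_abs]
        exact pow_le_pow_left₀ (abs_nonneg _) ((Complex.abs_im_le_norm w).trans hwn) 2
      have h2 := Ex_low (L := L) hA (abs_nonneg w.re) hre
      have h3 : q ≤ Real.exp (Ex A |w.re|) / (1 + w.im ^ 2) := by
        rw [hq]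
        gcongr
      calc ‖H w‖ ≤ |M0| := h1.trans (le_abs_self _)
        _ = |M0| / q * q := by field_simp
        _ ≤ max 1 (|M0| / q) * (Real.exp (Ex A |w.re|) / (1 + w.im ^ 2)) := by
            gcongr
            exact le_max_right _ _
        _ = _ := by ring
  · by_cases h : w = w0
    · simp only [hH]; rw [h, sub_self, zero_mul]
    · have h1 := hrel w
      rw [hw] at h1
      rcases mul_eq_zero.1 h1.symm with h2 | h2
      · exact absurd h2 (pow_ne_zero _ (sub_ne_zero.2 h))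
      · exact h2
  · have h1 : HasDerivAt H (1 * G w0 + (w0 - w0) * deriv G w0) w0 :=
      ((hasDerivAt_id w0).sub_const w0).mul (hG w0).hasDerivAt
    rw [h1.deriv, sub_self, zero_mul, add_zero, one_mul]
    exact hG0

end Pool.Agent.Y23.G
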