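import Pool.Agent.Y23.G.Ts3
import Pool.Agent.Y23.G.Sp

/-! # Test functions -/

set_option autoImplicit false
set_option linter.unusedSectionVars false
set_option maxHeartbeats 2000000

open Complex Filter Topology Set MeasureTheory Metric
open scoped ComplexConjugate Convolution

namespace Pool.Agent.Y23.G

/-- convolution with a bounded function -/
lemma conv_TT {b c : ℝ} {f k : ℝ → ℂ} (hf : Fa b f) (hk : Fa c k) {M : ℝ} (hM : ∀ x, ‖k x‖ ≤ M) :
    ∃ g : ℝ → ℂ, Fa (b + c) g ∧ ∀ w, TT g w = TT f w * TT k w := by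
  set g : ℝ → ℂ := fun x => ∫ t : ℝ, f t * k (x - t) with hg
  have hfi := hf.integrable
  have hki := hk.integrable
  have hgc : g = (f ⋆[ContinuousLinearMap.mul ℂ ℂ, volume] k) := rfl
  have hgi : Integrable g := by
    rw [hgc]
    exact hfi.integrable_convolution _ hki
  refine ⟨g, Fa_bdd hgi.aestronglyMeasurable (C := ∫ t : ℝ, ‖f t‖ * M) (fun x => ?_) (fun x hx => ?_), fun w => ?_⟩
  · refine norm_integral_le_of_norm_le (hfi.norm.mul_const M) (Eventually.of_forall fun t => ?_)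
    rw [norm_mul]
    exact mul_le_mul_of_nonneg_left (hM _) (norm_nonneg _)
  · simp only [hg]
    have : (fun t : ℝ => f t * k (x - t)) = fun _ => 0 := by
      funext t
      by_cases ht : b < |t|
      · rw [hf.2 t ht, zero_mul]
      · rw [not_lt] at ht
        have h1 : c < |x - t| := by
          have := abs_sub_abs_le_abs_sub x t
          linarith
        rw [hk.2 _ h1, mul_zero]
    rw [this, integral_zero]
  · have hfe : Integrable (fun t : ℝ => f t * cexp (w * t)) := hf.integrable_mul (by fun_prop)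
    have hke : Integrable (fun t : ℝ => k t * cexp (w * t)) := hk.integrable_mul (by fun_prop)
    have h1 := integral_convolution (ContinuousLinearMap.mul ℂ ℂ) hfe hke
    rw [ContinuousLinearMap.mul_apply'] at h1
    unfold TT
    rw [← h1]
    refine integral_congr_ae (Eventually.of_forall fun x => ?_)
    simp only [hg]
    rw [convolution_def, ← integral_mul_const]
    refine integral_congr_ae (Eventually.of_forall fun t => ?_)
    simp only [ContinuousLinearMap.mul_apply']
    have e : cexp (w * (x : ℂ)) = cexp (w * t) * cexp (w * ((x - t : ℝ) : ℂ)) := by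
      rw [← Complex.exp_add]; congr 1; push_cast; ring
    rw [e]
    ring

lemma TT_kap_zero {η : ℝ} (hη : 0 < η) : TT (kap η) 0 ≠ 0 := by
  -- the kernel is nonnegative
  have hre : ∀ x, 0 ≤ (kap η x).re := by
    intro x
    unfold kap tent
    by_cases h1 : |x| ≤ η
    · rw [if_pos h1, if_pos (by linarith)]
      simp only [Complex.sub_re, Complex.mul_re, Complex.ofReal_re, Complex.ofReal_im]
      norm_num
      have : 2 * (1 - |x| / (2 * η)) = 2 - |x| / η := by field_simp
      rw [this]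
      linarith
    · by_cases h2 : |x| ≤ 2 * η
      · rw [if_neg h1, if_pos h2]
        simp only [Complex.sub_re, Complex.mul_re, Complex.ofReal_re, Complex.ofReal_im]
        norm_num
        rw [div_le_one (by positivity)]
        exact h2
      · rw [if_neg h1, if_neg h2]
        simp
  have hF := Fa_kap hη
  have hi := hF.integrable
  have h2 : TT (kap η) 0 = ∫ x, kap η x := by
    unfold TT
    refine integral_congr_ae (Eventually.of_forall fun x => ?_)
    simp
  rw [h2]
  intro h3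
  have h4 : ∫ x, (kap η x).re = 0 := by
    have h5 := integral_re hi
    have h6 := congrArg Complex.re h3
    rw [Complex.zero_re] at h6
    rw [← h6]
    exact h5
  have h5 : ∫ x in Icc (-η) η, (kap η x).re ≤ ∫ x, (kap η x).re :=
    setIntegral_le_integral hi.re (Eventually.of_forall hre)
  have h6 : ∫ x in Icc (-η) η, (kap η x).re = ∫ x in Icc (-η) η, (1 : ℝ) := by
    refine setIntegral_congr_fun measurableSet_Icc fun x hx => ?_
    show (kap η x).re = 1
    rw [kap_one hη (abs_le.2 hx), Complex.one_re]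
  rw [h6, h4] at h5
  simp at h5
  linarith

lemma kap_bdd {η : ℝ} (hη : 0 < η) (x : ℝ) : ‖kap η x‖ ≤ 3 := by
  unfold kap
  have h1 := tent_nonneg (by linarith : 0 < 2 * η) x
  have h2 := tent_le (by linarith : 0 < 2 * η) x
  have h3 := tent_nonneg hη x
  have h4 := tent_le hη x
  refine (norm_sub_le _ _).trans ?_
  rw [norm_mul, Complex.norm_real, Complex.norm_real, Real.norm_eq_abs, Real.norm_eq_abs, abs_of_nonneg h1,
    abs_of_nonneg h3]
  norm_num
  linarith

variable [L : LFun]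

/-- cutting off the inverse transform -/
lemma cut {A K : ℝ} (hA : 0 ≤ A) (hK : 0 < K) {H : ℂ → ℂ} (hH : Differentiable ℂ H)
    (hb : ∀ w, ‖H w‖ ≤ K * Real.exp (Ex A |w.re|) / (1 + w.im ^ 2)) {R : ℝ} (hR : 0 ≤ R) :
    ∃ B C : ℝ, 0 ≤ B ∧ 0 < C ∧ ∀ b : ℝ, 0 ≤ b → ∃ f : ℝ → ℂ, Fa b f ∧ ∀ w : ℂ, |w.re| ≤ R →
      ‖TT f w - H w‖ ≤ C * Real.exp (B * (1 + b) - cc * Real.exp (2 * b / L.m)) := by
  obtain ⟨φ, hφc, hφd, hφi, hφt⟩ := inv_tr hA hK hH hb
  obtain ⟨C0, hC0, hd⟩ := dbl (L := L) (B := 4 * A + R) (by positivity)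
  have hpi := Real.pi_pos
  refine ⟨4 * A + R + 1, K * C0 * Real.pi, by positivity, by positivity, fun b hb0 => ?_⟩
  set τ := Real.exp ((4 * A + R + 1) * (1 + b) - cc * Real.exp (2 * b / L.m)) with hτ
  set f : ℝ → ℂ := (Icc (-b) b).indicator φ with hf
  obtain ⟨M, hM⟩ := (isCompact_Icc (a := -b) (b := b)).exists_bound_of_continuousOn hφc.continuousOn
  have hfF : Fa b f := by
    refine Fa_bdd (hφc.aestronglyMeasurable.indicator measurableSet_Icc) (C := |M|) (fun x => ?_) (fun x hx => ?_)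
    · simp only [hf]
      by_cases h : x ∈ Icc (-b) b
      · rw [indicator_of_mem h]
        exact (hM x h).trans (le_abs_self M)
      · rw [indicator_of_notMem h, norm_zero]
        exact abs_nonneg _
    · simp only [hf]
      rw [indicator_of_notMem]
      rw [mem_Icc, ← abs_le, not_le]
      exact hx
  refine ⟨f, hfF, fun w hw => ?_⟩
  have h1 : TT f w - H w = ∫ x : ℝ, (f x - φ x) * cexp (w * x) := by
    rw [← hφt w]
    unfold TT
    rw [← integral_sub (hfF.integrable_mul (by fun_prop)) (hφi w)]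
    refine integral_congr_ae (Eventually.of_forall fun x => ?_)
    simp only
    ring
  rw [h1]
  calc ‖∫ x : ℝ, (f x - φ x) * cexp (w * x)‖ ≤ ∫ x : ℝ, K * C0 * τ * (1 + x ^ 2)⁻¹ := by
        refine norm_integral_le_of_norm_le (integrable_inv_one_add_sq.const_mul _) (Eventually.of_forall fun x => ?_)
        have hx2 : 0 < 1 + x ^ 2 := by positivity
        by_cases h : x ∈ Icc (-b) b
        · simp only [hf]
          rw [indicator_of_mem h, sub_self, zero_mul, norm_zero]
          positivity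
        · simp only [hf]
          rw [indicator_of_notMem h, zero_sub, norm_mul, norm_neg, Complex.norm_exp]
          rw [mem_Icc, ← abs_le, not_le] at h
          have h3 : (w * (x : ℂ)).re ≤ R * (1 + |x|) := by
            rw [Complex.re_mul_ofReal]
            calc w.re * x ≤ |w.re * x| := le_abs_self _
              _ = |w.re| * |x| := abs_mul _ _
              _ ≤ R * (1 + |x|) := mul_le_mul hw (by linarith) (abs_nonneg _) hR
          have h4 := hd b |x| hb0 h.le
          rw [sq_abs] at h4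
          rw [← hτ] at h4
          rw [← div_eq_mul_inv, le_div_iff₀ hx2]
          calc ‖φ x‖ * Real.exp (w * (x : ℂ)).re * (1 + x ^ 2) ≤
              (K * Real.exp (4 * A * (1 + |x|) - cc * Real.exp (2 * |x| / L.m)) * Real.exp (R * (1 + |x|))) * (1 + x ^ 2) := by
                gcongr
                exact hφd x
            _ = K * (Real.exp ((4 * A + R) * (1 + |x|) - cc * Real.exp (2 * |x| / L.m)) * (1 + x ^ 2)) := by
                rw [mul_assoc K, ← Real.exp_add]
                have : 4 * A * (1 + |x|) - cc * Real.exp (2 * |x| / L.m) + R * (1 + |x|) =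
                  (4 * A + R) * (1 + |x|) - cc * Real.exp (2 * |x| / L.m) := by ring
                rw [this]; ring
            _ ≤ K * (C0 * τ) := mul_le_mul_of_nonneg_left h4 hK.le
            _ = _ := by ring
    _ = _ := by rw [integral_const_mul, integral_univ_inv_one_add_sq]; ring

/-- the limit of the tail -/
lemma tau_lim {B C c η : ℝ} (hB : 0 ≤ B) (hC : 0 < C) (hc : c < cc * Real.exp (-(2 * η / L.m))) : ∃ A1 : ℝ, 1 ≤ A1 ∧
    ∀ a : ℝ, A1 ≤ a → C * Real.exp (B * (1 + a) - cc * Real.exp (2 * (a - η) / L.m)) ≤ Real.exp (-(c * Real.exp (2 * a / L.m))) := by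
  have hm := m_one (L := L)
  have hm0 : (0 : ℝ) < L.m := by linarith
  set ε := cc * Real.exp (-(2 * η / L.m)) - c with hε
  have hε0 : 0 < ε := by linarith
  set T := 2 * B + |Real.log C| with hT
  have hT0 : 0 ≤ T := by positivity
  refine ⟨max 1 (T * L.m ^ 2 / (2 * ε)), le_max_left _ _, fun a ha => ?_⟩
  have ha1 : 1 ≤ a := le_of_max_le_left ha
  have ha2 : T * L.m ^ 2 / (2 * ε) ≤ a := le_of_max_le_right ha
  rw [div_le_iff₀ (by positivity)] at ha2
  have h1 : Real.exp (2 * (a - η) / L.m) = Real.exp (-(2 * η / L.m)) * Real.exp (2 * a / L.m) := by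
    rw [← Real.exp_add]; congr 1; ring
  have h2 : C = Real.exp (Real.log C) := (Real.exp_log hC).symm
  rw [h2, ← Real.exp_add, Real.exp_le_exp]
  have h3 : 2 * a ^ 2 / (L.m : ℝ) ^ 2 ≤ Real.exp (2 * a / L.m) := by
    have h4 := Real.quadratic_le_exp_of_nonneg (x := 2 * a / L.m) (by positivity)
    have h6 : (2 * a / (L.m : ℝ)) ^ 2 / 2 = 2 * a ^ 2 / (L.m : ℝ) ^ 2 := by ring
    rw [h6] at h4
    have h7 : 0 ≤ 2 * a / (L.m : ℝ) := by positivity
    linarith
  have h5 : T * a ≤ ε * (2 * a ^ 2 / (L.m : ℝ) ^ 2) := by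
    rw [mul_div_assoc', le_div_iff₀ (by positivity)]
    nlinarith
  have h6 : T * a ≤ ε * Real.exp (2 * a / L.m) := h5.trans (mul_le_mul_of_nonneg_left h3 hε0.le)
  have h7 : Real.log C + B * (1 + a) ≤ T * a := by
    have := le_abs_self (Real.log C)
    have := abs_nonneg (Real.log C)
    rw [hT]
    nlinarith
  rw [h1]
  have h8 : ε * Real.exp (2 * a / L.m) = cc * (Real.exp (-(2 * η / L.m)) * Real.exp (2 * a / L.m)) - c * Real.exp (2 * a / L.m) := by
    rw [hε]; ring
  linarith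

/-- **the test functions** -/
theorem test_pair {w0 : ℂ} (hw0 : w0.re = 0) (h0 : L.X (1 / 2 + w0) = 0) {η : ℝ} (hη : 0 < η) :
    ∃ B C c1 A1 : ℝ, 0 ≤ B ∧ 0 < C ∧ 0 < c1 ∧ 1 ≤ A1 ∧ ∀ a : ℝ, A1 ≤ a → ∃ U W : ℝ → ℂ, Hd a U ∧ Hd a W ∧
      (∀ w, TT U w = (w - w0) * TT W w) ∧
      SS U ≤ C * Real.exp (2 * (B * (1 + a) - cc * Real.exp (2 * (a - η) / L.m))) ∧ c1 ≤ ‖TT W w0‖ ∧
      N2 W ≤ 4 * a ^ 2 * N2 U := by
  have hη2 : 0 < η / 2 := by positivity
  obtain ⟨A, hA, hXb⟩ := X_all (L := L)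
  obtain ⟨H, K, hH, hK, hHb, hHz, hH0⟩ := simple_fun hA hXb h0
  obtain ⟨B, C, hB, hC, hcut⟩ := cut hA hK hH hHb (R := 1) zero_le_one
  obtain ⟨Ck, hCk, hkb⟩ := kap_bound hη2
  set Z : ℝ := ∑' ρ : Zt, (mu ρ : ℝ) * (1 / (1 + ((ρ : ℂ).im - w0.im) ^ 2)) with hZ
  have hZ0 : 0 ≤ Z := tsum_nonneg fun ρ => by positivity
  have hk0 := TT_kap_zero hη2
  have hp : 0 < ‖deriv H w0‖ := norm_pos_iff.2 hH0
  have hp2 : 0 < ‖TT (kap (η / 2)) 0‖ := norm_pos_iff.2 hk0
  obtain ⟨A1, hA1, hlim⟩ := tau_lim (L := L) (B := B) (C := C * (2 / ‖deriv H w0‖)) (c := 0) (η := η) hB (by positivity)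
    (by have := cc_pos (L := L); positivity)
  refine ⟨B, 4 * C ^ 2 * Ck ^ 2 * Z + 1, ‖deriv H w0‖ / 2 * ‖TT (kap (η / 2)) 0‖, max A1 (η + 1), hB, by positivity,
    by positivity, le_max_of_le_left hA1, fun a ha => ?_⟩
  have haA : A1 ≤ a := le_of_max_le_left ha
  have haη : η + 1 ≤ a := le_of_max_le_right ha
  have ha0 : 0 < a := by linarith
  obtain ⟨f, hf, hfb⟩ := hcut (a - η) (by linarith)
  set τ := Real.exp (B * (1 + a) - cc * Real.exp (2 * (a - η) / L.m)) with hτ
  have hτ0 : 0 < τ := Real.exp_pos _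
  have hfb' : ∀ w : ℂ, |w.re| ≤ 1 → ‖TT f w - H w‖ ≤ C * τ := by
    intro w hw
    refine (hfb w hw).trans (mul_le_mul_of_nonneg_left (Real.exp_le_exp.2 ?_) hC.le)
    nlinarith
  -- the kernel
  set κ : ℝ → ℂ := fun x => kap (η / 2) x * cexp (-w0 * x) with hκ
  have hκF : Fa η κ := by
    have := (Fa_kap hη2).mul_bdd (g := fun x : ℝ => cexp (-w0 * x)) (by fun_prop)
    rwa [show 2 * (η / 2) = η by ring] at this
  have hκT : ∀ w, TT κ w = TT (kap (η / 2)) (-w0 + w) := fun w => TT_mul_exp _ _ _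
  have hκb : ∀ x, ‖κ x‖ ≤ 3 := by
    intro x
    simp only [hκ]
    rw [norm_mul, Complex.norm_exp]
    have : (-w0 * (x : ℂ)).re = 0 := by
      rw [Complex.re_mul_ofReal, Complex.neg_re, hw0]; ring
    rw [this, Real.exp_zero, mul_one]
    exact kap_bdd hη2 x
  obtain ⟨g, hg, hgT⟩ := conv_TT hf hκF hκb
  rw [sub_add_cancel] at hg
  have hκa : Fa a κ := hκF.mono (by linarith)
  set U : ℝ → ℂ := fun x => g x - TT f w0 * κ x with hU
  have hUF : Fa a U := hg.sub (hκa.smul (TT f w0))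
  have hUT : ∀ w, TT U w = (TT f w - TT f w0) * TT κ w := by
    intro w
    simp only [hU]
    rw [TT_sub hg (hκa.smul (TT f w0)), TT_smul, hgT]
    ring
  have hH00 : H w0 = 0 := hHz w0 h0
  have hf0 : ‖TT f w0‖ ≤ C * τ := by
    have := hfb' w0 (by rw [hw0, abs_zero]; exact zero_le_one)
    rwa [hH00, sub_zero] at this
  -- values at the zeros
  have hval : ∀ ρ : Zt, (mu ρ : ℝ) * ‖TT U ((ρ : ℂ) - 1 / 2)‖ ^ 2 ≤
      (4 * C ^ 2 * Ck ^ 2 * τ ^ 2) * ((mu ρ : ℝ) * (1 / (1 + ((ρ : ℂ).im - w0.im) ^ 2))) := by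
    intro ρ
    set w := (ρ : ℂ) - 1 / 2 with hw
    have hre : |w.re| ≤ 1 := half_re ρ
    have hX : L.X (1 / 2 + w) = 0 := by
      rw [hw, add_sub_cancel]
      exact ρ.2
    have h1 : ‖TT f w‖ ≤ C * τ := by
      have := hfb' w hre
      rwa [hHz w hX, sub_zero] at this
    have h2 : ‖TT κ w‖ ≤ Ck / (1 + ((ρ : ℂ).im - w0.im) ^ 2) := by
      rw [hκT]
      have h3 := hkb (-w0 + w) (by rw [Complex.add_re, Complex.neg_re, hw0, neg_zero, zero_add]; exact hre)
      have h4 : (-w0 + w).im = (ρ : ℂ).im - w0.im := by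
        rw [hw]; simp; ring
      rwa [h4] at h3
    have h3 : ‖TT U w‖ ≤ (2 * C * τ) * (Ck / (1 + ((ρ : ℂ).im - w0.im) ^ 2)) := by
      rw [hUT, norm_mul]
      refine mul_le_mul ((norm_sub_le _ _).trans (by linarith)) h2 (norm_nonneg _) (by positivity)
    have h4 : ‖TT U w‖ ^ 2 ≤ (4 * C ^ 2 * Ck ^ 2 * τ ^ 2) * (1 / (1 + ((ρ : ℂ).im - w0.im) ^ 2)) := by
      set d := 1 + ((ρ : ℂ).im - w0.im) ^ 2 with hd
      have hd1 : 1 ≤ d := by rw [hd]; nlinarith [sq_nonneg ((ρ : ℂ).im - w0.im)]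
      calc ‖TT U w‖ ^ 2 ≤ ((2 * C * τ) * (Ck / d)) ^ 2 := pow_le_pow_left₀ (norm_nonneg _) h3 2
        _ = (4 * C ^ 2 * Ck ^ 2 * τ ^ 2) * (1 / d ^ 2) := by field_simp; ring
        _ ≤ (4 * C ^ 2 * Ck ^ 2 * τ ^ 2) * (1 / d) := by
            refine mul_le_mul_of_nonneg_left ?_ (by positivity)
            exact one_div_le_one_div_of_le (by positivity) (by nlinarith)
    calc _ ≤ (mu ρ : ℝ) * ((4 * C ^ 2 * Ck ^ 2 * τ ^ 2) * (1 / (1 + ((ρ : ℂ).im - w0.im) ^ 2))) :=
          mul_le_mul_of_nonneg_left h4 (Nat.cast_nonneg _)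
      _ = _ := by ring
  have hdom : Dom U := Summable.of_nonneg_of_le (fun ρ => by positivity) hval ((zsummable w0.im).mul_left _)
  have hUH : Hd a U := (Hd_iff ha0 U).2 ⟨hUF, hdom⟩
  have hU0 : TT U w0 = 0 := by rw [hUT, sub_self, zero_mul]
  obtain ⟨W, hW, hWT, hWN⟩ := hUH.div ha0 w0 hU0
  refine ⟨U, W, hUH, hW, fun w => (hWT w).symm, ?_, ?_, hWN hw0⟩
  · have h8 : SS U ≤ (4 * C ^ 2 * Ck ^ 2 * τ ^ 2) * Z := by
      unfold SS
      rw [hZ, ← tsum_mul_left]
      exact hdom.tsum_le_tsum hval ((zsummable w0.im).mul_left _)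
    have h9 : Real.exp (2 * (B * (1 + a) - cc * Real.exp (2 * (a - η) / L.m))) = τ ^ 2 := by
      rw [hτ, ← Real.exp_nat_mul]
      push_cast; rfl
    rw [h9]
    nlinarith [sq_nonneg τ]
  · -- the derivative
    have hfd : Differentiable ℂ (TT f) := differentiable_TT hf
    have hκd : Differentiable ℂ (TT κ) := differentiable_TT hκF
    have hWd : Differentiable ℂ (TT W) := differentiable_TT hW.1
    have h1 : HasDerivAt (fun w => (w - w0) * TT W w) (TT W w0) w0 := by
      have := ((hasDerivAt_id w0).sub_const w0).mul (hWd w0).hasDerivAt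
      refine this.congr_deriv ?_
      simp
    have h2 : HasDerivAt (fun w => (TT f w - TT f w0) * TT κ w) (deriv (TT f) w0 * TT κ w0) w0 := by
      have := ((hfd w0).hasDerivAt.sub_const (TT f w0)).mul (hκd w0).hasDerivAt
      refine this.congr_deriv ?_
      simp
    have h3 : (fun w => (w - w0) * TT W w) = fun w => (TT f w - TT f w0) * TT κ w := by
      funext w
      rw [hWT, hUT]
    rw [h3] at h1
    have h4 : TT W w0 = deriv (TT f) w0 * TT κ w0 := h1.unique h2
    have h5 : TT κ w0 = TT (kap (η / 2)) 0 := by rw [hκT, neg_add_cancel]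
    rw [h4, norm_mul, h5]
    refine mul_le_mul_of_nonneg_right ?_ hp2.le
    have h6 : ‖deriv (fun w => TT f w - H w) w0‖ ≤ C * τ / 1 := by
      refine Complex.norm_deriv_le_of_forall_mem_sphere_norm_le one_pos (hfd.sub hH).diffContOnCl fun z hz => ?_
      refine hfb' z ?_
      rw [mem_sphere, dist_eq_norm] at hz
      have h7 := Complex.abs_re_le_norm (z - w0)
      rw [hz, Complex.sub_re, hw0, sub_zero] at h7
      exact h7
    have h7 : deriv (fun w => TT f w - H w) w0 = deriv (TT f) w0 - deriv H w0 :=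
      ((hfd w0).hasDerivAt.sub (hH w0).hasDerivAt).deriv
    rw [h7, div_one] at h6
    have h8 := hlim a haA
    rw [zero_mul, neg_zero, Real.exp_zero] at h8
    have h9 : C * τ ≤ ‖deriv H w0‖ / 2 := by
      have e : C * (2 / ‖deriv H w0‖) * τ = C * τ / (‖deriv H w0‖ / 2) := by field_simp
      rw [e, div_le_one (by positivity)] at h8
      exact h8
    have h10 : ‖deriv H w0‖ ≤ ‖deriv (TT f) w0‖ + ‖deriv (TT f) w0 - deriv H w0‖ := by
      have e : deriv H w0 = deriv (TT f) w0 - (deriv (TT f) w0 - deriv H w0) := by ring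
      calc ‖deriv H w0‖ = ‖deriv (TT f) w0 - (deriv (TT f) w0 - deriv H w0)‖ := by rw [← e]
        _ ≤ _ := norm_sub_le _ _
    linarith

end Pool.Agent.Y23.G
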