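import Pool.Agent.Y23.Div

/-! # Zero data of a completed L-function -/

set_option autoImplicit false

open Complex Filter Topology Set
open scoped ComplexConjugate

namespace Pool.Agent.Y23.G

/-- `log (3 + |t|)` -/
noncomputable def Lg (t : ℝ) : ℝ := Real.log (3 + |t|)

lemma one_le_Lg (t : ℝ) : 1 ≤ Lg t := by
  unfold Lg
  rw [Real.le_log_iff_exp_le (by positivity)]
  have := Real.exp_one_lt_d9
  have := abs_nonneg t
  linarith

lemma Lg_cont : Continuous Lg := by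
  unfold Lg
  refine Continuous.log (by fun_prop) fun t => ?_
  positivity

lemma Lg_neg (t : ℝ) : Lg (-t) = Lg t := by unfold Lg; rw [abs_neg]

lemma Lg_le (j : ℤ) : Lg j ≤ 4 * (1 + |(j : ℝ)|) ^ (1 / 2 : ℝ) := by
  unfold Lg
  have h0 : 0 ≤ |(j : ℝ)| := abs_nonneg _
  have h1 : Real.log (3 + |(j : ℝ)|) ≤ (3 + |(j : ℝ)|) ^ (1 / 2 : ℝ) / (1 / 2) :=
    Real.log_le_rpow_div (by positivity) (by norm_num)
  have h2 : (3 + |(j : ℝ)|) ^ (1 / 2 : ℝ) ≤ (4 * (1 + |(j : ℝ)|)) ^ (1 / 2 : ℝ) :=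
    Real.rpow_le_rpow (by positivity) (by linarith) (by norm_num)
  have h3 : (4 * (1 + |(j : ℝ)|)) ^ (1 / 2 : ℝ) = 2 * (1 + |(j : ℝ)|) ^ (1 / 2 : ℝ) := by
    rw [Real.mul_rpow (by norm_num) (by positivity)]
    congr 1
    rw [show (4 : ℝ) = 2 ^ (2 : ℝ) by norm_num, ← Real.rpow_mul (by norm_num)]
    norm_num
  rw [h3] at h2
  linarith

lemma summable_j : Summable (fun j : ℤ => Lg j / (1 + (j : ℝ) ^ 2)) := by
  have h1 : Summable (fun j : ℤ => |(j : ℝ)| ^ (-(3 / 2 : ℝ))) :=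
    Real.summable_abs_int_rpow (by norm_num)
  have h2 : Summable (fun j : ℤ => 8 * |(j : ℝ)| ^ (-(3 / 2 : ℝ)) + if j = 0 then Lg 0 else 0) := by
    refine (h1.mul_left 8).add ?_
    exact summable_of_ne_finset_zero (s := {0}) fun b hb => by
      rw [Finset.mem_singleton] at hb
      rw [if_neg hb]
  refine Summable.of_nonneg_of_le (fun j => ?_) (fun j => ?_) h2
  · have := one_le_Lg (j : ℝ)
    positivity
  · by_cases hj : j = 0
    · subst hj
      simp only [Int.cast_zero, if_true]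
      have h3 : 0 ≤ 8 * |(0 : ℝ)| ^ (-(3 / 2 : ℝ)) := by positivity
      simp only [ne_eq, OfNat.ofNat_ne_zero, not_false_eq_true, zero_pow, add_zero, div_one]
      linarith
    · rw [if_neg hj, add_zero]
      have hj1 : (1 : ℝ) ≤ |(j : ℝ)| := by
        have := Int.one_le_abs hj
        exact_mod_cast this
      have hj0 : 0 < |(j : ℝ)| := by linarith
      have h3 := Lg_le j
      have h4 : (1 + |(j : ℝ)|) ^ (1 / 2 : ℝ) ≤ 2 * |(j : ℝ)| ^ (1 / 2 : ℝ) := by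
        calc (1 + |(j : ℝ)|) ^ (1 / 2 : ℝ) ≤ (4 * |(j : ℝ)|) ^ (1 / 2 : ℝ) :=
              Real.rpow_le_rpow (by positivity) (by linarith) (by norm_num)
          _ = _ := by
              rw [Real.mul_rpow (by norm_num) (by positivity)]
              congr 1
              rw [show (4 : ℝ) = 2 ^ (2 : ℝ) by norm_num, ← Real.rpow_mul (by norm_num)]
              norm_num
      rw [div_le_iff₀ (by positivity)]
      have h5 : |(j : ℝ)| ^ (-(3 / 2 : ℝ)) * (j : ℝ) ^ 2 = |(j : ℝ)| ^ (1 / 2 : ℝ) := by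
        rw [← sq_abs, ← Real.rpow_natCast, ← Real.rpow_add hj0]
        norm_num
      have h6 : 0 ≤ |(j : ℝ)| ^ (-(3 / 2 : ℝ)) := by positivity
      nlinarith

/-- the zeros of a completed L-function with their multiplicities -/
class ZD : Type where
  /-- the zeros -/
  Zs : Set ℂ
  /-- the multiplicity -/
  mul : ℂ → ℕ
  strip : ∀ s ∈ Zs, |s.re - 1 / 2| ≤ 1
  refl : ∀ s ∈ Zs, 1 - conj s ∈ Zs
  mrefl : ∀ s ∈ Zs, mul (1 - conj s) = mul s
  mpos : ∀ s ∈ Zs, 1 ≤ mul s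
  cnt : ∃ C : ℝ, 0 < C ∧ ∀ t : ℝ, ∀ S : Finset ℂ, (∀ s ∈ S, s ∈ Zs ∧ |s.im - t| ≤ 1) →
    ((∑ s ∈ S, mul s : ℕ) : ℝ) ≤ C * Lg t

/-- the zeros -/
abbrev Zt [D : ZD] : Type := {s : ℂ // s ∈ D.Zs}

/-- the multiplicity -/
def mu [D : ZD] (s : ℂ) : ℕ := D.mul s

lemma cnt [D : ZD] : ∃ C : ℝ, 0 < C ∧ ∀ t : ℝ, ∀ S : Finset ℂ, (∀ s ∈ S, s ∈ D.Zs ∧ |s.im - t| ≤ 1) →
    ((∑ s ∈ S, mu s : ℕ) : ℝ) ≤ C * Lg t := D.cnt

/-- the weighted sum over the zeros -/
lemma zsum [D : ZD] : ∃ K : ℝ, 0 < K ∧ ∀ t : ℝ, ∀ S : Finset ℂ, (∀ s ∈ S, s ∈ D.Zs) →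
    ∑ s ∈ S, (mu s : ℝ) * (1 / (1 + (s.im - t) ^ 2)) ≤ K * Lg t := by
  classical
  obtain ⟨C, hC, hcnt⟩ := cnt
  set A : ℝ := ∑' j : ℤ, Lg j / (1 + (j : ℝ) ^ 2) with hA
  have hA0 : 0 ≤ A := tsum_nonneg fun j => by
    have := one_le_Lg (j : ℝ)
    positivity
  refine ⟨3 * C * (12 * (A + 1)) + 1, by positivity, fun t S hS => ?_⟩
  set n : ℤ := ⌊t⌋ with hn
  have hL := one_le_Lg t
  -- group by the integer part
  have h1 : ∑ s ∈ S, (mu s : ℝ) * (1 / (1 + (s.im - t) ^ 2)) =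
      ∑ k ∈ S.image (fun s => ⌊s.im⌋), ∑ s ∈ S.filter (fun s => ⌊s.im⌋ = k),
        (mu s : ℝ) * (1 / (1 + (s.im - t) ^ 2)) :=
    (Finset.sum_fiberwise_of_maps_to (fun s hs => Finset.mem_image_of_mem _ hs) _).symm
  rw [h1]
  have h2 : ∀ k ∈ S.image (fun s => ⌊s.im⌋), ∑ s ∈ S.filter (fun s => ⌊s.im⌋ = k),
        (mu s : ℝ) * (1 / (1 + (s.im - t) ^ 2)) ≤ 3 * C * (12 * (Lg t * (Lg ((k - n : ℤ) : ℝ) / (1 + ((k - n : ℤ) : ℝ) ^ 2)))) := by
    intro k _
    have h3 := hcnt k (S.filter (fun s => ⌊s.im⌋ = k)) (by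
      intro s hs
      rw [Finset.mem_filter] at hs
      refine ⟨hS s hs.1, ?_⟩
      have h4 := Int.floor_le s.im
      have h5 := Int.lt_floor_add_one s.im
      rw [hs.2] at h4 h5
      rw [abs_le]
      constructor <;> linarith)
    have h6 : ∀ s ∈ S.filter (fun s => ⌊s.im⌋ = k), (mu s : ℝ) * (1 / (1 + (s.im - t) ^ 2)) ≤
        (mu s : ℝ) * (12 / (1 + ((k - n : ℤ) : ℝ) ^ 2)) := by
      intro s hs
      rw [Finset.mem_filter] at hs
      refine mul_le_mul_of_nonneg_left ?_ (Nat.cast_nonneg _)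
      have h4 := Int.floor_le s.im
      have h5 := Int.lt_floor_add_one s.im
      rw [hs.2] at h4 h5
      have h7 := Int.floor_le t
      have h8 := Int.lt_floor_add_one t
      rw [← hn] at h7 h8
      rw [div_le_div_iff₀ (by positivity) (by positivity)]
      push_cast
      set d := s.im - t with hd
      have h9 : |(k : ℝ) - n| ≤ |d| + 1 := by
        rw [abs_le]
        constructor
        · have := neg_abs_le d
          linarith
        · have := le_abs_self d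
          linarith
      have h10 : ((k : ℝ) - n) ^ 2 ≤ (|d| + 1) ^ 2 := by
        rw [← sq_abs]
        exact pow_le_pow_left₀ (abs_nonneg _) h9 2
      have h11 : (|d| + 1) ^ 2 ≤ 2 * d ^ 2 + 2 := by
        nlinarith [sq_nonneg (|d| - 1), sq_abs d]
      nlinarith
    have h7 : Lg (k : ℝ) ≤ Lg t * Lg ((k - n : ℤ) : ℝ) * 3 := by
      unfold Lg
      have h8 : (3 : ℝ) + |(k : ℝ)| ≤ (3 + |t|) * (3 + |((k - n : ℤ) : ℝ)|) := by
        push_cast
        have h9 : |(k : ℝ)| ≤ |(k : ℝ) - n| + |(n : ℝ)| := by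
          have := abs_add_le ((k : ℝ) - n) n
          simpa using this
        have h10 : |(n : ℝ)| ≤ |t| + 1 := by
          have h11 := Int.floor_le t
          have h12 := Int.lt_floor_add_one t
          rw [← hn] at h11 h12
          rw [abs_le]
          constructor
          · have := neg_abs_le t
            linarith
          · have := le_abs_self t
            linarith
        have h13 := abs_nonneg t
        have h14 := abs_nonneg ((k : ℝ) - n)
        nlinarith [mul_nonneg h13 h14]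
      have h9 : Real.log (3 + |(k : ℝ)|) ≤ Real.log (3 + |t|) + Real.log (3 + |((k - n : ℤ) : ℝ)|) := by
        rw [← Real.log_mul (by positivity) (by positivity)]
        exact Real.log_le_log (by positivity) h8
      have h10 := one_le_Lg t
      have h11 := one_le_Lg ((k - n : ℤ) : ℝ)
      unfold Lg at h10 h11
      nlinarith
    calc _ ≤ ∑ s ∈ S.filter (fun s => ⌊s.im⌋ = k), (mu s : ℝ) * (12 / (1 + ((k - n : ℤ) : ℝ) ^ 2)) :=
          Finset.sum_le_sum h6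
      _ = ((∑ s ∈ S.filter (fun s => ⌊s.im⌋ = k), mu s : ℕ) : ℝ) * (12 / (1 + ((k - n : ℤ) : ℝ) ^ 2)) := by
          rw [← Finset.sum_mul]; push_cast; rfl
      _ ≤ (C * Lg k) * (12 / (1 + ((k - n : ℤ) : ℝ) ^ 2)) := by
          refine mul_le_mul_of_nonneg_right h3 (by positivity)
      _ ≤ (C * (Lg t * Lg ((k - n : ℤ) : ℝ) * 3)) * (12 / (1 + ((k - n : ℤ) : ℝ) ^ 2)) := by
          refine mul_le_mul_of_nonneg_right (mul_le_mul_of_nonneg_left h7 hC.le) (by positivity)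
      _ = _ := by ring
  refine (Finset.sum_le_sum h2).trans ?_
  rw [← Finset.mul_sum, ← Finset.mul_sum, ← Finset.mul_sum]
  have h3 : ∑ k ∈ S.image (fun s => ⌊s.im⌋), (Lg ((k - n : ℤ) : ℝ) / (1 + ((k - n : ℤ) : ℝ) ^ 2)) ≤ A := by
    have h4 : ∑ k ∈ S.image (fun s => ⌊s.im⌋), (Lg ((k - n : ℤ) : ℝ) / (1 + ((k - n : ℤ) : ℝ) ^ 2)) =
        ∑ j ∈ (S.image (fun s => ⌊s.im⌋)).image (fun k => k - n), (Lg (j : ℝ) / (1 + (j : ℝ) ^ 2)) := by
      exact (Finset.sum_image (f := fun j : ℤ => Lg (j : ℝ) / (1 + (j : ℝ) ^ 2)) (s := S.image (fun s => ⌊s.im⌋))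
        (g := fun k => k - n) (fun x _ y _ hxy => by simpa using hxy)).symm
    rw [h4]
    exact summable_j.sum_le_tsum _ fun j _ => by
      have := one_le_Lg (j : ℝ)
      positivity
  have h5 : 0 ≤ 3 * C := by positivity
  have h6 : 12 * (Lg t * ∑ k ∈ S.image (fun s => ⌊s.im⌋), (Lg ((k - n : ℤ) : ℝ) / (1 + ((k - n : ℤ) : ℝ) ^ 2))) ≤
      12 * (Lg t * (A + 1)) := by
    have h7 : 0 ≤ Lg t := by linarith
    have := mul_le_mul_of_nonneg_left (h3.trans (by linarith : A ≤ A + 1)) h7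
    linarith
  nlinarith [mul_le_mul_of_nonneg_left h6 h5]

/-- the sum over all zeros converges -/
lemma zsummable [D : ZD] (t : ℝ) : Summable (fun ρ : Zt => (mu ρ : ℝ) * (1 / (1 + ((ρ : ℂ).im - t) ^ 2))) := by
  classical
  obtain ⟨K, hK, h⟩ := zsum
  refine summable_of_sum_le (c := K * Lg t) (fun ρ => by positivity) fun S => ?_
  have := h t (S.map (Function.Embedding.subtype _)) (by
    intro s hs
    rw [Finset.mem_map] at hs
    obtain ⟨u, _, rfl⟩ := hs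
    exact u.2)
  rwa [Finset.sum_map] at this

lemma zsum_le [D : ZD] : ∃ K : ℝ, 0 < K ∧ ∀ t : ℝ,
    ∑' ρ : Zt, (mu ρ : ℝ) * (1 / (1 + ((ρ : ℂ).im - t) ^ 2)) ≤ K * Lg t := by
  classical
  obtain ⟨K, hK, h⟩ := zsum
  refine ⟨K, hK, fun t => Real.tsum_le_of_sum_le (fun ρ => by positivity) fun S => ?_⟩
  have := h t (S.map (Function.Embedding.subtype _)) (by
    intro s hs
    rw [Finset.mem_map] at hs
    obtain ⟨u, _, rfl⟩ := hs
    exact u.2)
  rwa [Finset.sum_map] at this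


end Pool.Agent.Y23.G
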